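import Mathlib

/-!
Basic facts on unions of two perfect matchings (= fixed-point-free involutions) of a finite set.
-/

namespace Pool.Agent.Lib.MP_fe131b_co

open Finset

/-- A perfect matching of `X`, given by the fixed-point-free involution mapping a point to its
partner. -/
def PM {X : Type*} (M : X → X) : Prop := (∀ x, M (M x) = x) ∧ ∀ x, M x ≠ x

/-- one step along one of the two matchings -/
def step {X : Type*} (L M : X → X) (a b : X) : Prop := b = L a ∨ b = M a

/-- the relation of lying in the same component of the union of the two matchings -/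
def rel {X : Type*} (L M : X → X) : Setoid X := Relation.EqvGen.setoid (step L M)

/-- the union of the two matchings is connected -/
def Connected {X : Type*} (L M : X → X) : Prop := ∀ x y, (rel L M).r x y

theorem rel_L {X : Type*} (L M : X → X) (x : X) : (rel L M).r x (L x) :=
  Relation.EqvGen.rel _ _ (Or.inl rfl)

theorem rel_M {X : Type*} (L M : X → X) (x : X) : (rel L M).r x (M x) :=
  Relation.EqvGen.rel _ _ (Or.inr rfl)

theorem rel_refl {X : Type*} (L M : X → X) (x : X) : (rel L M).r x x := (rel L M).refl' x

theorem rel_symm {X : Type*} {L M : X → X} {x y : X} (h : (rel L M).r x y) : (rel L M).r y x :=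
  (rel L M).symm' h

theorem rel_trans {X : Type*} {L M : X → X} {x y z : X} (h : (rel L M).r x y)
    (h' : (rel L M).r y z) : (rel L M).r x z :=
  (rel L M).trans' h h'

/-- induction: a relation containing the steps which is an equivalence contains `rel`. -/
theorem rel_le_of {X : Type*} {L M : X → X} (s : Setoid X) (hL : ∀ x, s.r x (L x))
    (hM : ∀ x, s.r x (M x)) {x y : X} (h : (rel L M).r x y) : s.r x y := by
  induction h with
  | rel a b hab =>
    rcases hab with rfl | rfl
    · exact hL a
    · exact hM a
  | refl a => exact s.refl' a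
  | symm a b _ ih => exact s.symm' ih
  | trans a b c _ _ ih1 ih2 => exact s.trans' ih1 ih2

/-- a function invariant under both matchings is constant on components -/
theorem rel_invariant {X Y : Type*} {L M : X → X} (f : X → Y) (hL : ∀ x, f (L x) = f x)
    (hM : ∀ x, f (M x) = f x) {x y : X} (h : (rel L M).r x y) : f x = f y :=
  rel_le_of (Setoid.ker f) (fun x => (hL x).symm) (fun x => (hM x).symm) h

/-- parity: a finite set with a fixed-point-free involution has an even number of elements -/
theorem even_card_of_involution {X : Type*} (S : Finset X) (f : X → X)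
    (hf : ∀ x ∈ S, f (f x) = x) (hne : ∀ x ∈ S, f x ≠ x) (hS : ∀ x ∈ S, f x ∈ S) :
    Even S.card := by
  have h : ∑ x ∈ S, (1 : ZMod 2) = 0 := by
    refine Finset.sum_involution (fun a _ => f a) ?_ ?_ ?_ ?_
    · intro a _
      decide
    · intro a ha _
      exact hne a ha
    · intro a ha
      exact hS a ha
    · intro a ha
      exact hf a ha
  rw [Finset.sum_const, nsmul_eq_mul, mul_one] at h
  exact (ZMod.natCast_eq_zero_iff_even).mp h

section Switch

variable {X : Type*} [DecidableEq X]

/-- the matching obtained from `M` by the switch that exchanges the roles of `c` and `d`: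
the pairs `{c, M c}`, `{d, M d}` are replaced by `{c, M d}`, `{d, M c}`. -/
def sw (M : X → X) (c d : X) (x : X) : X := Equiv.swap c d (M (Equiv.swap c d x))

theorem sw_PM {M : X → X} (hM : PM M) (c d : X) : PM (sw M c d) := by
  constructor
  · intro x
    simp [sw, hM.1]
  · intro x hx
    have : Equiv.swap c d (sw M c d x) = Equiv.swap c d x := by rw [hx]
    simp only [sw, Equiv.swap_apply_self] at this
    exact hM.2 _ this

theorem sw_of_ne {M : X → X} {c d x : X} (h1 : x ≠ c) (h2 : x ≠ d) (h3 : M x ≠ c)
    (h4 : M x ≠ d) : sw M c d x = M x := by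
  simp only [sw]
  rw [Equiv.swap_apply_of_ne_of_ne h1 h2, Equiv.swap_apply_of_ne_of_ne h3 h4]

theorem sw_left {M : X → X} {c d : X} (h3 : M d ≠ c) (h4 : M d ≠ d) : sw M c d c = M d := by
  simp only [sw]
  rw [Equiv.swap_apply_left, Equiv.swap_apply_of_ne_of_ne h3 h4]

theorem sw_right {M : X → X} {c d : X} (h3 : M c ≠ c) (h4 : M c ≠ d) : sw M c d d = M c := by
  simp only [sw]
  rw [Equiv.swap_apply_right, Equiv.swap_apply_of_ne_of_ne h3 h4]

theorem sw_sw (M : X → X) (c d : X) : sw (sw M c d) c d = M := by
  funext x
  simp [sw]

theorem sw_comm (M : X → X) (c d : X) : sw M c d = sw M d c := by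
  funext x
  simp [sw, Equiv.swap_comm c d]

end Switch

section Merge

variable {X : Type*} [Finite X] [DecidableEq X]

/-- removing the pair `{c, M c}` of `M` does not disconnect `c` from `M c` -/
theorem rel_of_restrict {L M R : X → X} (hL : PM L) (hM : PM M) (c : X) (s : Setoid X)
    (hsL : ∀ x, s.r x (L x)) (hle : ∀ x y, s.r x y → (rel L M).r x y)
    (hsM : ∀ x, (rel L M).r c x → x ≠ c → x ≠ M c → s.r x (M x)) : s.r c (M c) := by
  classical
  by_contra hcon
  haveI := Fintype.ofFinite X
  let S : Finset X := Finset.univ.filter (fun x => s.r c x)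
  have hmemS : ∀ x, x ∈ S ↔ s.r c x := fun x => by simp [S]
  have hSeven : Even S.card := by
    refine even_card_of_involution S L ?_ ?_ ?_
    · intro x _; exact hL.1 x
    · intro x _; exact hL.2 x
    · intro x hx
      rw [hmemS] at hx ⊢
      exact s.trans' hx (hsL x)
  have hcS : c ∈ S := (hmemS c).2 (s.refl' c)
  have hSodd : Even (S.erase c).card := by
    refine even_card_of_involution (S.erase c) M ?_ ?_ ?_
    · intro x _; exact hM.1 x
    · intro x _; exact hM.2 x
    · intro x hx
      rw [Finset.mem_erase] at hx ⊢
      have hx2 := (hmemS x).1 hx.2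
      have hne : x ≠ M c := by
        rintro rfl
        exact hcon hx2
      constructor
      · intro h
        apply hne
        rw [← h, hM.1]
      · rw [hmemS]
        exact s.trans' hx2 (hsM x (hle _ _ hx2) hx.1 hne)
  rw [Finset.card_erase_of_mem hcS] at hSodd
  have hpos : 0 < S.card := Finset.card_pos.2 ⟨c, hcS⟩
  obtain ⟨a, ha⟩ := hSeven
  obtain ⟨b, hb⟩ := hSodd
  omega

/-- A switch between two different components merges them (and changes nothing else). -/
theorem sw_rel_le {L M : X → X} (hL : PM L) (hM : PM M) {c d : X}
    (hcd : ¬ (rel L M).r c d) {x y : X} (h : (rel L M).r x y) :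
    (rel L (sw M c d)).r x y := by
  classical
  -- the relation generated by L and M off the four touched points
  let M0 : X → X := fun x => if x = c ∨ x = M c ∨ x = d ∨ x = M d then x else M x
  have h0M : ∀ x y, (rel L M0).r x y → (rel L M).r x y := by
    intro x y hxy
    refine rel_le_of (rel L M) (rel_L L M) ?_ hxy
    intro z
    by_cases hz : z = c ∨ z = M c ∨ z = d ∨ z = M d
    · simp only [M0, hz, if_true]
      exact rel_refl L M z
    · simp only [M0, hz, if_false]
      exact rel_M L M z
  have h0M' : ∀ x y, (rel L M0).r x y → (rel L (sw M c d)).r x y := by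
    intro x y hxy
    refine rel_le_of (rel L (sw M c d)) (rel_L _ _) ?_ hxy
    intro z
    by_cases hz : z = c ∨ z = M c ∨ z = d ∨ z = M d
    · simp only [M0, hz, if_true]
      exact rel_refl _ _ z
    · simp only [M0, hz, if_false]
      push Not at hz
      have : sw M c d z = M z := by
        apply sw_of_ne hz.1 hz.2.2.1
        · intro h; apply hz.2.1; rw [← h, hM.1]
        · intro h; apply hz.2.2.2; rw [← h, hM.1]
      rw [← this]
      exact rel_M _ _ z
  have hcMc : (rel L M0).r c (M c) := by
    refine rel_of_restrict (R := M) hL hM c (rel L M0) (rel_L L M0) h0M ?_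
    intro z hz h1 h2
    have hz3 : z ≠ d := by rintro rfl; exact hcd hz
    have hz4 : z ≠ M d := by
      rintro rfl
      exact hcd (rel_trans hz (rel_symm (rel_M L M d)))
    have h5 : M0 z = M z := by
      simp only [M0]
      rw [if_neg]
      push Not
      exact ⟨h1, h2, hz3, hz4⟩
    rw [← h5]
    exact rel_M L M0 z
  have hdMd : (rel L M0).r d (M d) := by
    refine rel_of_restrict (R := M) hL hM d (rel L M0) (rel_L L M0) h0M ?_
    intro z hz h1 h2
    have hz3 : z ≠ c := by rintro rfl; exact hcd (rel_symm hz)
    have hz4 : z ≠ M c := by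
      rintro rfl
      exact hcd (rel_symm (rel_trans hz (rel_symm (rel_M L M c))))
    have h5 : M0 z = M z := by
      simp only [M0]
      rw [if_neg]
      push Not
      exact ⟨hz3, hz4, h1, h2⟩
    rw [← h5]
    exact rel_M L M0 z
  refine rel_le_of (rel L (sw M c d)) (rel_L _ _) ?_ h
  intro z
  by_cases hz : z = c ∨ z = M c ∨ z = d ∨ z = M d
  · rcases hz with rfl | rfl | rfl | rfl
    · exact h0M' _ _ hcMc
    · rw [hM.1]; exact rel_symm (h0M' _ _ hcMc)
    · exact h0M' _ _ hdMd
    · rw [hM.1]; exact rel_symm (h0M' _ _ hdMd)
  · have h5 : M0 z = M z := by simp only [M0]; rw [if_neg hz]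
    rw [← h5]
    exact h0M' _ _ (rel_M L M0 z)

theorem sw_rel_merge {L M : X → X} (hL : PM L) (hM : PM M) {c d : X}
    (hcd : ¬ (rel L M).r c d) : (rel L (sw M c d)).r c d := by
  have hne : M d ≠ c := by
    rintro rfl
    exact hcd (rel_symm (rel_M L M d))
  have h1 : sw M c d c = M d := sw_left hne (hM.2 d)
  have h2 : (rel L (sw M c d)).r c (M d) := by
    rw [← h1]; exact rel_M _ _ c
  exact rel_trans h2 (rel_symm (sw_rel_le hL hM hcd (rel_M L M d)))

end Merge

section Count

variable {X : Type*} [Finite X]

/-- number of components of the union of the two matchings -/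
noncomputable def ncomp (L M : X → X) : ℕ := Nat.card (Quotient (rel L M))

theorem ncomp_lt_of_merge {L M M' : X → X}
    (hle : ∀ x y, (rel L M).r x y → (rel L M').r x y) {c d : X}
    (h1 : ¬ (rel L M).r c d) (h2 : (rel L M').r c d) : ncomp L M' < ncomp L M := by
  classical
  haveI : Finite (Quotient (rel L M)) := Quotient.finite _
  haveI : Finite (Quotient (rel L M')) := Quotient.finite _
  let f : Quotient (rel L M) → Quotient (rel L M') :=
    Quotient.map' (s₁ := rel L M) (s₂ := rel L M') id (fun x y h => hle x y h)
  have hf : Function.Surjective f := by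
    intro q
    induction q using Quotient.inductionOn' with
    | h x => exact ⟨Quotient.mk'' x, rfl⟩
  have hnot : ¬ Function.Injective f := by
    intro hinj
    have : f (Quotient.mk'' c) = f (Quotient.mk'' d) := Quotient.sound' h2
    exact h1 (Quotient.exact' (hinj this))
  unfold ncomp
  rcases lt_or_ge (Nat.card (Quotient (rel L M'))) (Nat.card (Quotient (rel L M))) with h | h
  · exact h
  · exfalso
    apply hnot
    haveI := Fintype.ofFinite (Quotient (rel L M))
    haveI := Fintype.ofFinite (Quotient (rel L M'))
    have hcard : Fintype.card (Quotient (rel L M')) ≤ Fintype.card (Quotient (rel L M)) :=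
      Fintype.card_le_of_surjective f hf
    have hcard' : Fintype.card (Quotient (rel L M)) ≤ Fintype.card (Quotient (rel L M')) := by
      simpa [Nat.card_eq_fintype_card] using h
    exact ((Fintype.bijective_iff_surjective_and_card f).2
      ⟨hf, le_antisymm hcard' hcard⟩).1

end Count

end Pool.Agent.Lib.MP_fe131b_co
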