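import Mathlib

/-!
Eulerian multigraphs, Euler tours and compatibility of Euler tours.
-/

namespace Pool.Agent.Lib.MP_fe131b_co

/-- A multigraph (loops and parallel edges allowed) with vertex set `V` and edge set `E`:
every edge `e` has the two ends `(e, false)` and `(e, true)`, placed at the vertices
`ends e false` and `ends e true`. -/
structure Multigraph (V E : Type) where
  ends : E → Bool → V

namespace Multigraph

variable {V E : Type} (G : Multigraph V E)

/-- the degree of a vertex: the number of edge-ends at the vertex -/
noncomputable def degree (v : V) : ℕ := Nat.card {x : E × Bool // G.ends x.1 x.2 = v}

/-- connectedness: any two vertices are joined by a path -/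
def IsConnected : Prop :=
  ∀ u v : V, Relation.EqvGen (fun a b => ∃ e, G.ends e false = a ∧ G.ends e true = b) u v

/-- An Eulerian graph: connected, with all degrees even. -/
def IsEulerian : Prop := G.IsConnected ∧ ∀ v, Even (G.degree v)

/-- An Euler tour: a closed walk traversing every edge exactly once. The steps are indexed
cyclically by `ZMod |E|`; the `j`-th step traverses the edge `(step j).1` starting from its end
`step j` and arriving by its other end. -/
structure EulerTour where
  step : ZMod (Nat.card E) → E × Bool
  once : Function.Bijective (fun j => (step j).1)
  chain : ∀ j, G.ends (step j).1 (!(step j).2) = G.ends (step (j + 1)).1 (step (j + 1)).2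

/-- the transition after the `j`-th step: the unordered pair formed by the edge-end by which the
`j`-th step arrives and the edge-end by which the next step leaves -/
noncomputable def EulerTour.transition {G : Multigraph V E} (T : G.EulerTour) (j : ZMod (Nat.card E)) :
    Sym2 (E × Bool) :=
  s(((T.step j).1, !(T.step j).2), T.step (j + 1))

/-- two Euler tours are compatible if they have no transition in common -/
def EulerTour.Compatible {G : Multigraph V E} (T T' : G.EulerTour) : Prop :=
  ∀ i j, T.transition i ≠ T'.transition j

end Multigraph

end Pool.Agent.Lib.MP_fe131b_co
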