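import Pool.Agent.Lib.MP_fe131b_co.Structure
import Pool.Agent.Lib.MP_fe131b_co.Defs

section

/-!
Choice of the parameters in the single-vertex theorem.
-/

namespace Pool.Agent.Lib.MP_fe131b_co

open Finset Function

/-- The single-vertex property: for all perfect matchings `L i` (`i < k`) of an `n`-set there are
pairwise disjoint perfect matchings `M i` such that all unions `L i ∪ M i` are connected. -/
def SV (n k : ℕ) : Prop :=
  ∀ (V : Type) [Fintype V] (L : Fin k → V → V), Fintype.card V = n → (∀ i, PM (L i)) →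
    ∃ M : Fin k → V → V, (∀ i, PM (M i)) ∧ Disj M ∧ ∀ i, Connected (L i) (M i)

/-- conjugation by an equivalence -/
theorem PM_conj {V W : Type*} (f : V ≃ W) {M : V → V} (hM : PM M) :
    PM (fun w => f (M (f.symm w))) := by
  constructor
  · intro w; simp [hM.1]
  · intro w h
    have := congrArg f.symm h
    simp only [Equiv.symm_apply_apply] at this
    exact hM.2 _ this

theorem connected_conj {V W : Type*} (f : V ≃ W) {L M : V → V} (h : Connected L M) :
    Connected (fun w => f (L (f.symm w))) (fun w => f (M (f.symm w))) := by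
  intro x y
  have h1 := h (f.symm x) (f.symm y)
  have h2 : (rel (fun w => f (L (f.symm w))) (fun w => f (M (f.symm w)))).r
      (f (f.symm x)) (f (f.symm y)) := by
    refine rel_le_of (Setoid.comap f (rel (fun w => f (L (f.symm w)))
      (fun w => f (M (f.symm w))))) ?_ ?_ h1
    · intro z
      change (rel (fun w => f (L (f.symm w))) (fun w => f (M (f.symm w)))).r (f z) (f (L z))
      have h3 := rel_L (fun w => f (L (f.symm w))) (fun w => f (M (f.symm w))) (f z)
      simp only [Equiv.symm_apply_apply] at h3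
      exact h3
    · intro z
      change (rel (fun w => f (L (f.symm w))) (fun w => f (M (f.symm w)))).r (f z) (f (M z))
      have h3 := rel_M (fun w => f (L (f.symm w))) (fun w => f (M (f.symm w))) (f z)
      simp only [Equiv.symm_apply_apply] at h3
      exact h3
  simpa using h2

/-- transfer of a statement on one structured set with a large index set -/
theorem SV_of_structured {V0 ι : Type} [Fintype V0] [Fintype ι] {k : ℕ}
    (hk : k ≤ Fintype.card ι)
    (h : ∀ L : ι → V0 → V0, (∀ i, PM (L i)) →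
      ∃ M : ι → V0 → V0, (∀ i, PM (M i)) ∧ Disj M ∧ ∀ i, Connected (L i) (M i)) :
    SV (Fintype.card V0) k := by
  classical
  intro V _ L hV hL
  rcases Nat.eq_zero_or_pos k with rfl | hkpos
  · refine ⟨fun i => i.elim0, fun i => i.elim0, fun i => i.elim0, fun i => i.elim0⟩
  let f : V ≃ V0 := Fintype.equivOfCardEq hV
  obtain ⟨g⟩ : Nonempty (Fin k ↪ ι) := by
    apply Function.Embedding.nonempty_of_card_le
    simpa using hk
  let L0 : ι → V0 → V0 := Function.extend g (fun i w => f (L i (f.symm w)))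
    (fun _ w => f (L ⟨0, hkpos⟩ (f.symm w)))
  have hL0g : ∀ i, L0 (g i) = fun w => f (L i (f.symm w)) := by
    intro i
    exact g.injective.extend_apply _ _ i
  have hL0 : ∀ i, PM (L0 i) := by
    intro i
    by_cases hi : ∃ j, g j = i
    · obtain ⟨j, rfl⟩ := hi
      rw [hL0g]
      exact PM_conj f (hL j)
    · have : L0 i = fun w => f (L ⟨0, hkpos⟩ (f.symm w)) :=
        Function.extend_apply' _ _ _ hi
      rw [this]
      exact PM_conj f (hL _)
  obtain ⟨M0, hM1, hM2, hM3⟩ := h L0 hL0
  refine ⟨fun i v => f.symm (M0 (g i) (f v)), ?_, ?_, ?_⟩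
  · intro i
    have := PM_conj f.symm (hM1 (g i))
    simpa using this
  · intro i j hij x h
    have h1 := f.symm.injective h
    exact hM2 (g i) (g j) (fun h => hij (g.injective h)) _ h1
  · intro i
    have h1 := connected_conj f.symm (hM3 (g i))
    rw [hL0g] at h1
    simpa using h1

theorem card_cls (K : Type) [AddCommGroup K] [Fintype K] [DecidableEq K] (q : ℕ) [NeZero q] :
    Fintype.card (Cls K q) = (Fintype.card K - 1) * (Fintype.card K - 1) * q := by
  have h1 : Fintype.card {s : K × K // s.1 ≠ 0 ∧ s.2 ≠ 0} =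
      (Fintype.card K - 1) * (Fintype.card K - 1) := by
    have e : {s : K × K // s.1 ≠ 0 ∧ s.2 ≠ 0} ≃ {k : K // k ≠ 0} × {k : K // k ≠ 0} :=
      { toFun := fun s => (⟨s.1.1, s.2.1⟩, ⟨s.1.2, s.2.2⟩)
        invFun := fun s => ⟨(s.1.1, s.2.1), s.1.2, s.2.2⟩
        left_inv := fun s => rfl
        right_inv := fun s => rfl }
    rw [Fintype.card_congr e, Fintype.card_prod]
    have h2 : Fintype.card {k : K // k ≠ 0} = Fintype.card K - 1 := by
      have := Fintype.card_subtype_compl (fun k : K => k = 0)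
      simpa using this
    rw [h2]
  unfold Cls
  rw [Fintype.card_prod, h1, ZMod.card]

theorem card_pts (K : Type) [AddCommGroup K] [Fintype K] [DecidableEq K] (q D : ℕ) [NeZero q]
    [NeZero D] :
    Fintype.card (Grp K q × ZMod D) = Fintype.card K * Fintype.card K * q * D := by
  unfold Grp
  rw [Fintype.card_prod, Fintype.card_prod, Fintype.card_prod, ZMod.card, ZMod.card]

theorem aux_T2N {N D T : ℝ} (hT8' : 8 ≤ T) (hT4R : T ^ 4 ≤ D) (hDN : D ≤ N) :
    6 * T ^ 2 < 5 * N := by
  have h3 : (64 : ℝ) ≤ T ^ 2 := by nlinarith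
  have h1 : (64 : ℝ) * T ^ 2 ≤ D := by
    calc (64 : ℝ) * T ^ 2 ≤ T ^ 2 * T ^ 2 := mul_le_mul_of_nonneg_right h3 (by positivity)
      _ = T ^ 4 := by ring
      _ ≤ D := hT4R
  nlinarith

theorem aux_ZT {N T Z : ℝ} (hT : 0 < T) (h : 6 * T ^ 2 < 5 * N) (hN : 0 < N)
    (hZR : 3 * N ≤ Z * T) : 2 * T < Z := by
  have h1 : (2 : ℝ) * T * T < Z * T := by nlinarith
  exact lt_of_mul_lt_mul_right h1 hT.le

theorem aux_hZ {N D T Z : ℝ} (hTR : 0 < T) (hT4R : T ^ 4 ≤ D) (hT8R : 8 * T ≤ D)
    (hN : 0 < N) (hT2N : 6 * T ^ 2 < 5 * N) (hZR : 3 * N ≤ Z * T) (hZT : 2 * T < Z) :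
    2 * (D * N ^ 2 * T ^ 2) < Z * (Z - 2 * T) * ((D - T) * (D - 2 * T)) := by
  have hDR : 0 < D := by linarith
  have e1 : D ^ 2 / 2 ≤ (D - T) * (D - 2 * T) := by nlinarith
  have hZpos : 0 < Z := by linarith
  have e2 : (3 * N) * (3 * N - 2 * T ^ 2) ≤ (Z * T) * (Z * T - 2 * T ^ 2) := by
    apply mul_le_mul hZR (by linarith) (by nlinarith) (by positivity)
  have e3 : 4 * N ^ 2 < (3 * N) * (3 * N - 2 * T ^ 2) := by nlinarith
  have e4 : 4 * N ^ 2 < Z * (Z - 2 * T) * T ^ 2 := by
    calc 4 * N ^ 2 < _ := e3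
      _ ≤ _ := e2
      _ = _ := by ring
  have e5 : 0 ≤ Z * (Z - 2 * T) := mul_nonneg hZpos.le (by linarith)
  have e6 : Z * (Z - 2 * T) * (D ^ 2 / 2) ≤ Z * (Z - 2 * T) * ((D - T) * (D - 2 * T)) :=
    mul_le_mul_of_nonneg_left e1 e5
  refine lt_of_lt_of_le ?_ e6
  have e7 : 4 * N ^ 2 * T ^ 2 < Z * (Z - 2 * T) * D := by
    calc 4 * N ^ 2 * T ^ 2 < (Z * (Z - 2 * T) * T ^ 2) * T ^ 2 :=
          mul_lt_mul_of_pos_right e4 (by positivity)
      _ = Z * (Z - 2 * T) * T ^ 4 := by ring
      _ ≤ Z * (Z - 2 * T) * D := mul_le_mul_of_nonneg_left hT4R e5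
  have e8 : 4 * N ^ 2 * T ^ 2 * D < Z * (Z - 2 * T) * D * D :=
    mul_lt_mul_of_pos_right e7 hDR
  calc 2 * (D * N ^ 2 * T ^ 2) = (4 * N ^ 2 * T ^ 2 * D) / 2 := by ring
    _ < (Z * (Z - 2 * T) * D * D) / 2 := by linarith
    _ = _ := by ring

theorem aux_Cn {N T Z C : ℝ} (hT : 0 < T) (e1 : N * 4 ≤ C * T) (e2 : Z * T ≤ 3 * N + T)
    (e3 : 2 * T ≤ N) : Z * (2 * T) + N ≤ C * (2 * T) := by
  nlinarith

theorem aux_sig {a D s : ℝ} (ha : 1 ≤ a) (hs : 0 < s) (h : 6 * a * s ≤ D) :
    4 * a * s ≤ D - 2 * s := by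
  nlinarith

/-- **The single-vertex theorem.** Here `A = |K|` for an elementary abelian 2-group `K`. -/
theorem SV_main (K : Type) [AddCommGroup K] [Fintype K] [DecidableEq K]
    (hK : ∀ k : K, k + k = 0) (n k A : ℕ) (hA : Fintype.card K = A) (hA2 : 2 ≤ A)
    (hn : Even n) (hbig : 12288 ^ 4 * A ^ 26 * (128 * (Nat.log 2 n + 3)) ^ 9 ≤ n)
    (hk : A ^ 2 * k ≤ (A - 1) ^ 2 * n) : SV n k := by
  classical
  set Λ := Nat.log 2 n with hΛ
  set q1 := 2 * Λ + 6 with hq1
  set q := 64 * q1 with hq
  have hqeq : 128 * (Λ + 3) = q := by omega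
  rw [hqeq] at hbig
  have hqpos : 0 < q := by omega
  haveI : NeZero q := ⟨by omega⟩
  set T := 12288 * A ^ 6 * q ^ 2 with hT
  have hApos : 0 < A := by omega
  have hA2q : 0 < A ^ 2 * q := by positivity
  set D := (n + A ^ 2 * q - 1) / (A ^ 2 * q) with hD
  have hD1 : n ≤ A ^ 2 * q * D := by
    have h1 := Nat.div_add_mod (n + A ^ 2 * q - 1) (A ^ 2 * q)
    have h2 := Nat.mod_lt (n + A ^ 2 * q - 1) hA2q
    rw [← hD] at h1
    omega
  have hD2 : A ^ 2 * q * D < n + A ^ 2 * q := by
    have h1 := Nat.div_mul_le_self (n + A ^ 2 * q - 1) (A ^ 2 * q)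
    rw [← hD, Nat.mul_comm] at h1
    omega
  have hT4 : T ^ 4 ≤ D := by
    have h1 : A ^ 2 * q * T ^ 4 ≤ A ^ 2 * q * D := by
      refine le_trans (le_of_eq ?_) (le_trans hbig hD1)
      rw [hT]; ring
    exact Nat.le_of_mul_le_mul_left h1 hA2q
  have hq384 : 384 ≤ q := by omega
  have hTbig : 12288 * A ^ 6 * q ^ 2 ≤ T := le_refl _
  have hT8 : 8 ≤ T := by
    have h1 : 1 ≤ A ^ 6 := Nat.one_le_pow _ _ hApos
    have h2 : 1 ≤ q ^ 2 := Nat.one_le_pow _ _ hqpos
    have : 12288 * 1 * 1 ≤ 12288 * A ^ 6 * q ^ 2 := by gcongr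
    omega
  have hTpos : 0 < T := by omega
  have hA2qn : A ^ 2 * q ≤ n := by
    have h2 : A ^ 2 * q * 1 ≤ A ^ 2 * q * T ^ 4 :=
      Nat.mul_le_mul_left _ (Nat.one_le_pow _ _ hTpos)
    have h3 : A ^ 2 * q * T ^ 4 ≤ n := by
      refine le_trans (le_of_eq ?_) hbig
      rw [hT]; ring
    rw [Nat.mul_one] at h2
    exact le_trans h2 h3
  clear hbig
  have hT48 : 8 * T ≤ D := by
    have h1 : T * 8 ≤ T * T ^ 3 := by
      apply Nat.mul_le_mul_left
      calc 8 ≤ T := hT8
        _ ≤ T ^ 3 := Nat.le_self_pow (by norm_num) T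
    have h2 : T * T ^ 3 = T ^ 4 := by ring
    omega
  have hT2D : T ^ 2 ≤ D := le_trans (Nat.pow_le_pow_right hTpos (by norm_num)) hT4
  have hDpos : 0 < D := by omega
  haveI : NeZero D := ⟨by omega⟩
  -- D is at least 3072 * A^4 * q
  have hD3 : 3072 * A ^ 4 * q ≤ D := by
    have h1 : A ^ 4 ≤ A ^ 6 := Nat.pow_le_pow_right hApos (by norm_num)
    have h2 : q ≤ q ^ 2 := Nat.le_self_pow (by norm_num) q
    have h3 : 3072 * A ^ 4 * q ≤ 12288 * A ^ 6 * q ^ 2 := by
      apply Nat.mul_le_mul _ h2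
      apply Nat.mul_le_mul _ h1
      norm_num
    have h4 : T ≤ D := by omega
    exact le_trans h3 (le_trans hTbig h4)
  set N := A ^ 2 * q * D with hN
  have hcardX : Fintype.card (Grp K q × ZMod D) = N := by
    rw [card_pts, hA, hN]; ring
  set e := N - n with he
  have heN : n + e = N := by omega
  have heven : Even e := by
    have h1 : Even N := by
      rw [hN, hq]
      exact ⟨A ^ 2 * (32 * q1) * D, by ring⟩
    have h2 : Even (n + e) := by rw [heN]; exact h1
    exact (Nat.even_add.1 h2).1 hn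
  have heq : e < A ^ 2 * q := by omega
  have hA2qD : 6 * (A ^ 2 * q) ≤ D := by
    have h1 : A ^ 2 ≤ A ^ 4 := Nat.pow_le_pow_right hApos (by norm_num)
    have h2 : 6 * (A ^ 2 * q) ≤ 3072 * A ^ 4 * q := by
      have : 6 * A ^ 2 * q ≤ 3072 * A ^ 4 * q := by
        apply Nat.mul_le_mul_right
        apply Nat.mul_le_mul _ h1
        norm_num
      calc 6 * (A ^ 2 * q) = 6 * A ^ 2 * q := by ring
        _ ≤ _ := this
    omega
  have h6e : 6 * e ≤ D := by omega
  -- parameters
  set B := A ^ 4 * q with hB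
  have hBpos : 0 < B := by positivity
  set Cn := D / (3072 * B) + 1 with hCn
  set Z := D / (4096 * B) + 1 with hZ
  set σ := 256 * A ^ 2 * Cn with hσ
  set θ := q1 * D with hθ
  have hCn1 : Cn * (3072 * B) ≤ D + 3072 * B := by
    rw [hCn, Nat.add_mul]
    have := Nat.div_mul_le_self D (3072 * B)
    omega
  have hCn2 : D ≤ Cn * (3072 * B) := by
    rw [hCn, Nat.add_mul]
    have h1 := Nat.div_add_mod D (3072 * B)
    have h2 := Nat.mod_lt D (show 0 < 3072 * B by positivity)
    rw [Nat.mul_comm] at h1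
    omega
  have hZ2 : D ≤ Z * (4096 * B) := by
    rw [hZ, Nat.add_mul]
    have h1 := Nat.div_add_mod D (4096 * B)
    have h2 := Nat.mod_lt D (show 0 < 4096 * B by positivity)
    rw [Nat.mul_comm] at h1
    omega
  have hZ1 : Z * (4096 * B) ≤ D + 4096 * B := by
    rw [hZ, Nat.add_mul]
    have := Nat.div_mul_le_self D (4096 * B)
    omega
  have hσpos : 0 < σ := by positivity
  -- 6 A² q σ ≤ D
  have h6σ : 6 * (A ^ 2 * q) * σ ≤ D := by
    have h1 : 6 * (A ^ 2 * q) * σ * 2 = Cn * (3072 * B) := by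
      rw [hσ, hB]; ring
    have h2 : 3072 * B ≤ D := by rw [hB]; rw [← Nat.mul_assoc]; exact hD3
    omega
  have hA2q1 : 1 ≤ A ^ 2 * q := hA2q
  have hσD : 6 * σ ≤ D := by
    calc 6 * σ = 6 * 1 * σ := by ring
      _ ≤ 6 * (A ^ 2 * q) * σ := by
          apply Nat.mul_le_mul_right
          apply Nat.mul_le_mul_left
          exact hA2q1
      _ ≤ D := h6σ
  have hCnσ : 4 * Cn ≤ σ := by
    rw [hσ]
    apply Nat.mul_le_mul_right
    have : 1 ≤ A ^ 2 := Nat.one_le_pow _ _ hApos
    omega
  have hθpos : 0 < θ := by positivity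
  have hclsle : Fintype.card (Cls K q) ≤ A ^ 2 * q := by
    rw [card_cls, hA]
    apply Nat.mul_le_mul_right
    rw [pow_two]
    exact Nat.mul_le_mul (by omega) (by omega)
  have hqD : q * D = 64 * θ := by rw [hθ, hq]; ring
  have hDθ : 6 * D ≤ θ := by
    rw [hθ]
    apply Nat.mul_le_mul_right
    omega
  have hND : q * D ≤ N := by
    rw [hN]
    have : q * D = 1 * q * D := by ring
    rw [this]
    apply Nat.mul_le_mul_right
    apply Nat.mul_le_mul_right
    exact Nat.one_le_pow _ _ hApos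
  -- real number facts
  have hDR : (0 : ℝ) < D := by exact_mod_cast hDpos
  have hTR : (0 : ℝ) < T := by exact_mod_cast hTpos
  have hBR : (0 : ℝ) < B := by exact_mod_cast hBpos
  have hNR : (N : ℝ) = (A : ℝ) ^ 2 * q * D := by rw [hN]; push_cast; ring
  have hNTB : (T : ℝ) * D = (N : ℝ) * (12288 * B) := by
    rw [hNR, hT, hB]; push_cast; ring
  have hNpos : (0 : ℝ) < N := by
    have : 0 < N := lt_of_lt_of_le (by positivity) hND
    exact_mod_cast this
  have hZR : 3 * (N : ℝ) ≤ Z * T := by
    have h1 : (D : ℝ) ≤ Z * (4096 * B) := by exact_mod_cast hZ2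
    have h2 : (T : ℝ) * D ≤ T * (Z * (4096 * B)) := mul_le_mul_of_nonneg_left h1 hTR.le
    rw [hNTB] at h2
    have h3 : (3 * (N : ℝ)) * (4096 * B) ≤ (Z * T) * (4096 * B) := by
      calc (3 * (N : ℝ)) * (4096 * B) = N * (12288 * B) := by ring
        _ ≤ _ := h2
        _ = _ := by ring
    exact le_of_mul_le_mul_right h3 (by positivity)
  have hT4R : (T : ℝ) ^ 4 ≤ D := by exact_mod_cast hT4
  have hT8R : (8 : ℝ) * T ≤ D := by exact_mod_cast hT48
  have hDN : (D : ℝ) ≤ N := by
    have : D ≤ N := le_trans (by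
      calc D = 1 * D := by ring
        _ ≤ q * D := Nat.mul_le_mul_right _ hqpos) hND
    exact_mod_cast this
  have hT8'' : (8 : ℝ) ≤ T := by exact_mod_cast hT8
  have hT2N : 6 * (T : ℝ) ^ 2 < 5 * N := aux_T2N hT8'' hT4R hDN
  have hZTR : 2 * (T : ℝ) < Z := aux_ZT hTR hT2N hNpos hZR
  have hZT : 2 * T ≤ Z := by
    exact_mod_cast hZTR.le
  have hstruct := vertex_param (K := K) hK q D e T σ θ Cn Z heven (by omega) hTpos hσpos hθpos
    (by omega) (by omega) ?_ hZT ?_ ?_ ?_ (by omega) ?_
  · -- conclusion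
    have hcardV : Fintype.card {x : Grp K q × ZMod D // ¬ Dmy K q D e x} = n := by
      have h3 := Fintype.card_subtype_compl (fun x : Grp K q × ZMod D => Dmy K q D e x)
      have h4 : Fintype.card {x : Grp K q × ZMod D // Dmy K q D e x} = e := by
        rw [← Nat.card_eq_fintype_card]; exact card_dmy (by omega)
      rw [h4, hcardX] at h3
      omega
    have hι : k ≤ Fintype.card (Cls K q × ZMod D) := by
      rw [Fintype.card_prod, card_cls, ZMod.card, hA]
      have h1 : A ^ 2 * k ≤ A ^ 2 * ((A - 1) * (A - 1) * q * D) := by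
        calc A ^ 2 * k ≤ (A - 1) ^ 2 * n := hk
          _ ≤ (A - 1) ^ 2 * (A ^ 2 * q * D) := Nat.mul_le_mul_left _ hD1
          _ = _ := by ring
      exact Nat.le_of_mul_le_mul_left h1 (by positivity)
    have := SV_of_structured (V0 := {x : Grp K q × ZMod D // ¬ Dmy K q D e x})
      (ι := Cls K q × ZMod D) hι hstruct
    rwa [hcardV] at this
  · -- hZ
    rw [hcardX]
    exact aux_hZ hTR hT4R hT8R hNpos hT2N hZR hZTR
  · -- hCn
    rw [hcardX]
    -- in reals
    have e1 : (N : ℝ) * 4 ≤ Cn * T := by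
      have h1 : (D : ℝ) ≤ Cn * (3072 * B) := by exact_mod_cast hCn2
      have h2 : (T : ℝ) * D ≤ T * (Cn * (3072 * B)) := mul_le_mul_of_nonneg_left h1 hTR.le
      rw [hNTB] at h2
      have h3 : ((N : ℝ) * 4) * (3072 * B) ≤ (Cn * T) * (3072 * B) := by
        calc ((N : ℝ) * 4) * (3072 * B) = N * (12288 * B) := by ring
          _ ≤ _ := h2
          _ = _ := by ring
      exact le_of_mul_le_mul_right h3 (by positivity)
    have e2 : (Z : ℝ) * T ≤ 3 * N + T := by
      have h1 : (Z : ℝ) * (4096 * B) ≤ D + 4096 * B := by exact_mod_cast hZ1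
      have h2 : T * ((Z : ℝ) * (4096 * B)) ≤ T * (D + 4096 * B) :=
        mul_le_mul_of_nonneg_left h1 hTR.le
      have h3 : (Z * T : ℝ) * (4096 * B) ≤ (3 * N + T) * (4096 * B) := by
        calc (Z * T : ℝ) * (4096 * B) = T * ((Z : ℝ) * (4096 * B)) := by ring
          _ ≤ T * (D + 4096 * B) := h2
          _ = T * D + T * (4096 * B) := by ring
          _ = N * (12288 * B) + T * (4096 * B) := by rw [hNTB]
          _ = _ := by ring
      exact le_of_mul_le_mul_right h3 (by positivity)
    have e3 : (2 : ℝ) * T ≤ N := by linarith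
    have e4 : (Z : ℝ) * (2 * T) + N ≤ Cn * (2 * T) := aux_Cn hTR e1 e2 e3
    exact_mod_cast e4
  · -- hθT
    rw [hcardX]
    have hσR : (0 : ℝ) < σ := by exact_mod_cast hσpos
    have h6R : 6 * ((A : ℝ) ^ 2 * q) * σ ≤ D := by exact_mod_cast h6σ
    have hA2qR : (1 : ℝ) ≤ (A : ℝ) ^ 2 * q := by exact_mod_cast hA2q1
    have hcR : (Fintype.card (Cls K q) : ℝ) ≤ (A : ℝ) ^ 2 * q := by exact_mod_cast hclsle
    have e1 : 4 * ((A : ℝ) ^ 2 * q) * σ ≤ (D : ℝ) - (2 * σ : ℕ) := by
      push_cast
      exact aux_sig hA2qR hσR h6R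
    have e2 : 0 < (D : ℝ) - (2 * σ : ℕ) := lt_of_lt_of_le (by positivity) e1
    have e3 : (Fintype.card (Cls K q) : ℝ) * (2 * (2 * σ : ℕ) / ((D : ℝ) - (2 * σ : ℕ))) ≤ 1 := by
      rw [← mul_div_assoc, div_le_one e2]
      refine le_trans ?_ e1
      push_cast
      calc (Fintype.card (Cls K q) : ℝ) * (2 * (2 * σ)) ≤ ((A : ℝ) ^ 2 * q) * (2 * (2 * σ)) :=
            mul_le_mul_of_nonneg_right hcR (by positivity)
        _ = _ := by ring
    have e4 : Real.log N ≤ 0.7 * (Λ + 2) := by
      have h1 : N ≤ 2 * n := by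
        omega
      have h2 : n < 2 ^ (Λ + 1) := Nat.lt_pow_succ_log_self (by norm_num) n
      have h3 : N ≤ 2 ^ (Λ + 2) := by
        have h5 : 2 ^ (Λ + 2) = 2 * 2 ^ (Λ + 1) := by ring
        rw [h5]
        exact le_trans h1 (Nat.mul_le_mul_left 2 h2.le)
      have h4 : (N : ℝ) ≤ (2 : ℝ) ^ (Λ + 2) := by exact_mod_cast h3
      calc Real.log N ≤ Real.log ((2 : ℝ) ^ (Λ + 2)) := Real.log_le_log hNpos h4
        _ = (Λ + 2 : ℕ) * Real.log 2 := by rw [Real.log_pow]
        _ ≤ (Λ + 2 : ℕ) * 0.7 := by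
            apply mul_le_mul_of_nonneg_left _ (Nat.cast_nonneg _)
            have := Real.log_two_lt_d9
            linarith
        _ = _ := by push_cast; ring
    have e5 : 2 * (Real.log N + (Fintype.card (Cls K q) : ℝ) *
        (2 * (2 * σ : ℕ) / ((D : ℝ) - (2 * σ : ℕ)))) ≤ q1 := by
      have h1 : (q1 : ℝ) = 2 * Λ + 6 := by rw [hq1]; push_cast; ring
      rw [h1]
      have hΛ0 : (0 : ℝ) ≤ Λ := Nat.cast_nonneg _
      linarith
    have hθR : (θ : ℝ) = q1 * D := by rw [hθ]; push_cast; ring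
    rw [hθR]
    calc 2 * (D : ℝ) * (Real.log N + (Fintype.card (Cls K q) : ℝ) *
        (2 * (2 * σ : ℕ) / ((D : ℝ) - (2 * σ : ℕ)))) =
        (2 * (Real.log N + (Fintype.card (Cls K q) : ℝ) *
        (2 * (2 * σ : ℕ) / ((D : ℝ) - (2 * σ : ℕ))))) * D := by ring
      _ ≤ q1 * D := mul_le_mul_of_nonneg_right e5 hDR.le
  · -- hload
    rw [Fintype.card_prod, ZMod.card]
    calc Fintype.card (Cls K q) * D * (4 * Cn) ≤ (A ^ 2 * q) * D * (4 * Cn) := by
          apply Nat.mul_le_mul_right
          exact Nat.mul_le_mul_right _ hclsle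
      _ = σ * θ := by rw [hσ, hθ, hq]; ring
  · -- hn
    rw [hcardX]
    omega

end Pool.Agent.Lib.MP_fe131b_co
end

section

/-!
Reduction of the problem on compatible Euler tours to the single-vertex property.
The graph is given by its set `H` of edge-ends (darts), the involution `α` exchanging the two ends
of an edge, and the map `φ` sending an edge-end to its vertex.
-/

namespace Pool.Agent.Lib.MP_fe131b_co

open Finset Function

theorem exists_PM_of_even {V : Type*} [Finite V] (h : Even (Nat.card V)) :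
    ∃ M : V → V, PM M := by
  classical
  haveI := Fintype.ofFinite V
  obtain ⟨k, hk⟩ := h
  have e : V ≃ Fin k × Bool := by
    apply Fintype.equivOfCardEq
    rw [← Nat.card_eq_fintype_card, hk]
    simp
    ring
  refine ⟨fun v => e.symm ((e v).1, !(e v).2), ?_, ?_⟩
  · intro v; simp
  · intro v hv
    have := congrArg e hv
    simp only [Equiv.apply_symm_apply] at this
    have h2 := congrArg Prod.snd this
    simp at h2

/-- a function pairing the points of each fibre -/
theorem exists_pairing {H Q : Type*} [Finite H] (φ : H → Q)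
    (h : ∀ w, Even (Nat.card {h // φ h = w})) : ∃ f : H → H, PM f ∧ ∀ h, φ (f h) = φ h := by
  choose M hM using fun w => exists_PM_of_even (h w)
  let f : H → H := fun h => (M (φ h) ⟨h, rfl⟩).1
  have hφ : ∀ h, φ (f h) = φ h := fun h => (M (φ h) ⟨h, rfl⟩).2
  have key : ∀ (w : Q) (x : {h // φ h = w}), f x.1 = (M w x).1 := by
    rintro w ⟨h, rfl⟩
    rfl
  refine ⟨f, ⟨?_, ?_⟩, hφ⟩
  · intro h
    have e1 : f h = (M (φ h) ⟨h, rfl⟩).1 := rfl
    rw [e1, key, (hM _).1]
  · intro h hh
    exact (hM (φ h)).2 ⟨h, rfl⟩ (Subtype.ext hh)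

/-- The pairing of the edge-ends at a vertex given by the trails outside the vertex. -/
theorem exists_outer {H W : Type*} [Finite H] (α : H → H) (hα : PM α) (φ : H → W) (w : W)
    (τ : H → H) (hτ : PM τ) (hτφ : ∀ h, φ (τ h) = φ h) (s : Setoid H)
    (hs1 : ∀ h, s.r h (α h)) (hs2 : ∀ h, φ h ≠ w → s.r h (τ h)) :
    ∃ L : {h // φ h = w} → {h // φ h = w}, PM L ∧ ∀ x, s.r x.1 (L x).1 := by
  classical
  haveI := Fintype.ofFinite H
  let ψ : {h // φ h = w} → Quotient s := fun x => Quotient.mk s x.1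
  have heven : ∀ c : Quotient s, Even (Nat.card {x : {h // φ h = w} // ψ x = c}) := by
    intro c
    -- the class
    let O : Finset H := Finset.univ.filter (fun h => Quotient.mk s h = c)
    have hO : ∀ h, h ∈ O ↔ Quotient.mk s h = c := by intro h; simp [O]
    have h1 : Even O.card := by
      refine even_card_of_involution O α (fun x _ => hα.1 x) (fun x _ => hα.2 x) ?_
      intro x hx
      rw [hO] at hx ⊢
      rw [← hx]
      exact (Quotient.sound (hs1 x)).symm
    have h2 : Even (O.filter (fun h => φ h ≠ w)).card := by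
      refine even_card_of_involution _ τ (fun x _ => hτ.1 x) (fun x _ => hτ.2 x) ?_
      intro x hx
      rw [Finset.mem_filter, hO] at hx ⊢
      refine ⟨?_, by rw [hτφ]; exact hx.2⟩
      rw [← hx.1]
      exact (Quotient.sound (hs2 x hx.2)).symm
    have h3 : (O.filter (fun h => φ h = w)).card + (O.filter (fun h => φ h ≠ w)).card =
        O.card := Finset.card_filter_add_card_filter_not _
    have h4 : Nat.card {x : {h // φ h = w} // ψ x = c} = (O.filter (fun h => φ h = w)).card := by
      have e : {x : {h // φ h = w} // ψ x = c} ≃ {h // h ∈ O.filter (fun h => φ h = w)} :=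
        { toFun := fun x => ⟨x.1.1, by
            rw [Finset.mem_filter, hO]; exact ⟨x.2, x.1.2⟩⟩
          invFun := fun h => ⟨⟨h.1, (Finset.mem_filter.1 h.2).2⟩,
            (hO _).1 (Finset.mem_filter.1 h.2).1⟩
          left_inv := fun x => rfl
          right_inv := fun x => rfl }
      rw [Nat.card_congr e, Nat.card_eq_fintype_card, Fintype.card_coe]
    rw [h4]
    rw [← h3] at h1
    exact (Nat.even_add.1 h1).2 h2
  obtain ⟨L, hL, hLψ⟩ := exists_pairing ψ heven
  refine ⟨L, hL, ?_⟩
  intro x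
  have := hLψ x
  exact s.symm' (Quotient.exact this)

theorem process {H W : Type} [Finite H] [DecidableEq W] (α : H → H) (hα : PM α) (φ : H → W)
    (k : ℕ) (heven : ∀ w, Even (Nat.card {h // φ h = w}))
    (hSV : ∀ w, SV (Nat.card {h // φ h = w}) k ∨ IsEmpty {h // φ h = w}) (S : Finset W) :
    ∃ τ : Fin k → H → H, (∀ i, PM (τ i)) ∧ (∀ i h, φ (τ i h) = φ h) ∧
      (∀ i j, i ≠ j → ∀ h, φ h ∈ S → τ i h ≠ τ j h) ∧
      (∀ i h h', φ h ∈ S → φ h' = φ h → (rel α (τ i)).r h h') := by
  classical
  induction S using Finset.induction_on with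
  | empty =>
    obtain ⟨f, hf1, hf2⟩ := exists_pairing φ heven
    exact ⟨fun _ => f, fun _ => hf1, fun _ h => hf2 h, fun i j _ h hh => by simp at hh,
      fun i h h' hh => by simp at hh⟩
  | insert w S hw ih =>
    obtain ⟨τ, h1, h2, h3, h4⟩ := ih
    rcases hSV w with hsv | hemp
    · -- the restricted relation
      let τ' : Fin k → H → H := fun i h => if φ h = w then h else τ i h
      have hout := fun i => exists_outer α hα φ w (τ i) (h1 i) (h2 i) (rel α (τ' i))
        (fun h => rel_L _ _ h) (by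
          intro h hh
          have : τ' i h = τ i h := by simp only [τ']; rw [if_neg hh]
          rw [← this]
          exact rel_M _ _ h)
      choose L hL1 hL2 using hout
      haveI : Fintype {h // φ h = w} := Fintype.ofFinite _
      obtain ⟨M, hM1, hM2, hM3⟩ := hsv {h // φ h = w} L (Nat.card_eq_fintype_card).symm hL1
      let τn : Fin k → H → H := fun i h => if hh : φ h = w then (M i ⟨h, hh⟩).1 else τ i h
      have e1 : ∀ i h (hh : φ h = w), τn i h = (M i ⟨h, hh⟩).1 := by
        intro i h hh; simp only [τn]; rw [dif_pos hh]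
      have e2 : ∀ i h, φ h ≠ w → τn i h = τ i h := by
        intro i h hh; simp only [τn]; rw [dif_neg hh]
      have hφn : ∀ i h, φ (τn i h) = φ h := by
        intro i h
        by_cases hh : φ h = w
        · rw [e1 i h hh, hh]; exact (M i ⟨h, hh⟩).2
        · rw [e2 i h hh]; exact h2 i h
      have hpm : ∀ i, PM (τn i) := by
        intro i
        constructor
        · intro h
          by_cases hh : φ h = w
          · have hh' : φ (τn i h) = w := by rw [hφn, hh]
            rw [e1 i _ hh']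
            have : (⟨τn i h, hh'⟩ : {h // φ h = w}) = M i ⟨h, hh⟩ := Subtype.ext (e1 i h hh)
            rw [this, (hM1 i).1]
          · have hh' : φ (τn i h) ≠ w := by rw [hφn]; exact hh
            rw [e2 i _ hh', e2 i h hh, (h1 i).1]
        · intro h
          by_cases hh : φ h = w
          · rw [e1 i h hh]
            exact fun h' => (hM1 i).2 ⟨h, hh⟩ (Subtype.ext h')
          · rw [e2 i h hh]; exact (h1 i).2 h
      -- the outer relation is contained in the new one
      have hle1 : ∀ i x y, (rel α (τ' i)).r x y → (rel α (τn i)).r x y := by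
        intro i x y hxy
        refine rel_le_of (rel α (τn i)) (rel_L _ _) ?_ hxy
        intro z
        by_cases hz : φ z = w
        · have : τ' i z = z := by simp only [τ']; rw [if_pos hz]
          rw [this]
        · have : τ' i z = τ i z := by simp only [τ']; rw [if_neg hz]
          rw [this, ← e2 i z hz]
          exact rel_M _ _ z
      -- all ends at w are connected
      have hw1 : ∀ i (x y : {h // φ h = w}), (rel α (τn i)).r x.1 y.1 := by
        intro i x y
        have h5 := hM3 i x y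
        refine rel_le_of (Setoid.comap Subtype.val (rel α (τn i))) ?_ ?_ h5
        · intro z
          exact hle1 i _ _ (hL2 i z)
        · intro z
          change (rel α (τn i)).r z.1 (M i z).1
          rw [← e1 i z.1 z.2]
          exact rel_M _ _ _
      have hle2 : ∀ i x y, (rel α (τ i)).r x y → (rel α (τn i)).r x y := by
        intro i x y hxy
        refine rel_le_of (rel α (τn i)) (rel_L _ _) ?_ hxy
        intro z
        by_cases hz : φ z = w
        · exact hw1 i ⟨z, hz⟩ ⟨τ i z, by rw [h2, hz]⟩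
        · rw [← e2 i z hz]
          exact rel_M _ _ z
      refine ⟨τn, hpm, hφn, ?_, ?_⟩
      · intro i j hij h hh
        by_cases hhw : φ h = w
        · rw [e1 i h hhw, e1 j h hhw]
          intro h'
          exact hM2 i j hij ⟨h, hhw⟩ (Subtype.ext h')
        · rw [e2 i h hhw, e2 j h hhw]
          rcases Finset.mem_insert.1 hh with hh | hh
          · exact absurd hh hhw
          · exact h3 i j hij h hh
      · intro i h h' hh hh'
        by_cases hhw : φ h = w
        · exact hw1 i ⟨h, hhw⟩ ⟨h', by rw [hh', hhw]⟩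
        · rcases Finset.mem_insert.1 hh with hh | hh
          · exact absurd hh hhw
          · exact hle2 i h h' (h4 i h h' hh hh')
    · have hne : ∀ h, φ h ≠ w := fun h hh => hemp.false ⟨h, hh⟩
      refine ⟨τ, h1, h2, ?_, ?_⟩
      · intro i j hij h hh
        rcases Finset.mem_insert.1 hh with hh | hh
        · exact absurd hh (hne h)
        · exact h3 i j hij h hh
      · intro i h h' hh
        rcases Finset.mem_insert.1 hh with hh | hh
        · exact absurd hh (hne h)
        · exact h4 i h h' hh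

/-- **Reduction theorem**, in terms of edge-ends. -/
theorem compatible_transitions {H W : Type} [Finite H] [Finite W] (α : H → H) (hα : PM α)
    (φ : H → W) (k : ℕ) (heven : ∀ w, Even (Nat.card {h // φ h = w}))
    (hSV : ∀ w, SV (Nat.card {h // φ h = w}) k ∨ IsEmpty {h // φ h = w})
    (hconn : ∀ x y : H, Relation.EqvGen (fun a b => b = α a ∨ φ a = φ b) x y) :
    ∃ τ : Fin k → H → H, (∀ i, PM (τ i)) ∧ (∀ i h, φ (τ i h) = φ h) ∧ Disj τ ∧
      ∀ i, Connected α (τ i) := by
  classical
  haveI := Fintype.ofFinite W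
  obtain ⟨τ, h1, h2, h3, h4⟩ := process α hα φ k heven hSV Finset.univ
  refine ⟨τ, h1, h2, fun i j hij h => h3 i j hij h (Finset.mem_univ _), ?_⟩
  intro i x y
  have h5 := hconn x y
  induction h5 with
  | rel a b hab =>
    rcases hab with rfl | hab
    · exact rel_L _ _ _
    · exact h4 i a b (Finset.mem_univ _) hab.symm
  | refl a => exact rel_refl _ _ _
  | symm a b _ ih => exact rel_symm ih
  | trans a b c _ _ ih1 ih2 => exact rel_trans ih1 ih2

end Pool.Agent.Lib.MP_fe131b_co
end

section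

/-!
From transition systems to Euler tours, for multigraphs and for simple graphs.
-/

namespace Pool.Agent.Lib.MP_fe131b_co

open Finset Function

theorem connected_symm {X : Type*} {L M : X → X} (h : Connected L M) : Connected M L := by
  intro x y
  exact rel_le_of (rel M L) (rel_M M L) (rel_L M L) (h x y)

/-- the sequence of edge-ends along the tour -/
theorem tour_seq {H : Type*} [Finite H] {α τ : H → H} (hα : PM α) (hτ : PM τ)
    (hc : Connected α τ) (m : ℕ) (hm : Nat.card H = 2 * m) (h0 : H) :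
    ∃ t : ℕ → H, t 0 = h0 ∧ (∀ j, t (j + 1) = τ (α (t j))) ∧ t m = t 0 ∧
      (∀ i < m, ∀ j < m, t i = t j → i = j) ∧ (∀ i j, t i ≠ α (t j)) ∧
      (∀ h, ∃ j < m, h = t j ∨ h = α (t j)) := by
  classical
  have hc' := connected_symm hc
  have hper : minimalPeriod (τ ∘ α) h0 = m := by
    have h1 := two_period_le hτ hα h0
    have h2 := card_comp_le hτ hα h0
    have h3 : Nat.card {y // (rel τ α).r h0 y} = Nat.card H := by
      apply Nat.card_congr
      exact Equiv.subtypeUnivEquiv (fun y => hc' h0 y)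
    omega
  refine ⟨fun j => (τ ∘ α)^[j] h0, rfl, ?_, ?_, ?_, ?_, ?_⟩
  · intro j
    simp only
    rw [Function.iterate_succ_apply']
    rfl
  · have := iterate_minimalPeriod (f := τ ∘ α) (x := h0)
    rw [hper] at this
    simpa using this
  · intro i hi j hj h
    exact (iterate_eq_iterate_iff_of_lt_minimalPeriod (by rw [hper]; exact hi)
      (by rw [hper]; exact hj)).1 h
  · intro i j h
    exact iterate_ne_M hτ hα j i h0 h.symm
  · intro h
    obtain ⟨r, hr, h1⟩ := rel_iff_exists hτ hα (hc' h0 h)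
    rw [hper] at hr
    exact ⟨r, hr, h1⟩

/-! ### Multigraphs -/

/-- the other end of an edge -/
def flipEnd {E : Type} (x : E × Bool) : E × Bool := (x.1, !x.2)

theorem flipEnd_PM {E : Type} : PM (flipEnd : E × Bool → E × Bool) := by
  constructor
  · rintro ⟨e, b⟩; simp [flipEnd]
  · rintro ⟨e, b⟩ h
    simp [flipEnd] at h

theorem multigraph_tours {V E : Type} [Finite V] [Finite E] (G : Multigraph V E) (k : ℕ)
    (hG : G.IsEulerian) (hE : 0 < Nat.card E)
    (hSV : ∀ v, SV (G.degree v) k) :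
    ∃ T : Fin k → G.EulerTour, ∀ i j, i ≠ j → (T i).Compatible (T j) := by
  classical
  haveI : Nonempty E := (Nat.card_pos_iff.1 hE).1
  haveI : NeZero (Nat.card E) := ⟨by omega⟩
  let φ : E × Bool → V := fun x => G.ends x.1 x.2
  have hconn : ∀ x y : E × Bool,
      Relation.EqvGen (fun a b => b = flipEnd a ∨ φ a = φ b) x y := by
    -- darts at connected vertices are related
    have key : ∀ u v : V, Relation.EqvGen
        (fun a b => ∃ e, G.ends e false = a ∧ G.ends e true = b) u v →
        (u = v ∨ ((∀ x, φ x = u → ∀ y, φ y = v →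
          Relation.EqvGen (fun a b => b = flipEnd a ∨ φ a = φ b) x y) ∧
          (∃ x, φ x = u) ∧ (∃ y, φ y = v))) := by
      intro u v h
      induction h with
      | rel a b hab =>
        obtain ⟨e, he1, he2⟩ := hab
        right
        refine ⟨?_, ⟨(e, false), he1⟩, ⟨(e, true), he2⟩⟩
        intro x hx y hy
        have h1 : Relation.EqvGen (fun a b => b = flipEnd a ∨ φ a = φ b) x (e, false) :=
          Relation.EqvGen.rel _ _ (Or.inr (by rw [hx]; exact he1.symm))
        have h2 : Relation.EqvGen (fun a b => b = flipEnd a ∨ φ a = φ b) (e, false)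
            ((e, true) : E × Bool) := Relation.EqvGen.rel _ _ (Or.inl rfl)
        have h3 : Relation.EqvGen (fun a b => b = flipEnd a ∨ φ a = φ b) (e, true) y :=
          Relation.EqvGen.rel _ _ (Or.inr (by rw [hy]; exact he2))
        exact Relation.EqvGen.trans _ _ _ (Relation.EqvGen.trans _ _ _ h1 h2) h3
      | refl a => left; rfl
      | symm a b _ ih =>
        rcases ih with ih | ⟨ih, h1, h2⟩
        · left; exact ih.symm
        · right
          exact ⟨fun x hx y hy => Relation.EqvGen.symm _ _ (ih y hy x hx), h2, h1⟩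
      | trans a b c _ _ ih1 ih2 =>
        rcases ih1 with rfl | ⟨ih1, h1, h2⟩
        · exact ih2
        · rcases ih2 with rfl | ⟨ih2, h3, h4⟩
          · right; exact ⟨ih1, h1, h2⟩
          · right
            refine ⟨?_, h1, h4⟩
            intro x hx y hy
            obtain ⟨z, hz⟩ := h2
            exact Relation.EqvGen.trans _ _ _ (ih1 x hx z hz) (ih2 z hz y hy)
    intro x y
    rcases key (φ x) (φ y) (hG.1 (φ x) (φ y)) with h | ⟨h, _, _⟩
    · exact Relation.EqvGen.rel _ _ (Or.inr h)
    · exact h x rfl y rfl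
  obtain ⟨τ, h1, h2, h3, h4⟩ := compatible_transitions (H := E × Bool) (W := V) flipEnd
    flipEnd_PM φ k hG.2 (fun w => Or.inl (hSV w)) hconn
  have hcard : Nat.card (E × Bool) = 2 * Nat.card E := by
    rw [Nat.card_prod]; simp; ring
  have hseq := fun i => tour_seq (flipEnd_PM (E := E)) (h1 i) (h4 i) (Nat.card E) hcard
    (Classical.arbitrary (E × Bool))
  choose t ht0 ht1 ht2 ht3 ht4 _ using hseq
  have hnext : ∀ i (j : ZMod (Nat.card E)), t i (j + 1).val = τ i (flipEnd (t i j.val)) := by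
    intro i j
    rw [← ht1]
    by_cases hj : j.val + 1 < Nat.card E
    · have : (j + 1).val = j.val + 1 := by
        have h7 : j + 1 = ((j.val + 1 : ℕ) : ZMod (Nat.card E)) := by
          push_cast
          rw [ZMod.natCast_zmod_val]
        rw [h7, ZMod.val_cast_of_lt hj]
      rw [this]
    · have h5 : j.val + 1 = Nat.card E := by
        have := ZMod.val_lt j
        omega
      have h6 : (j + 1).val = 0 := by
        have h7 : j + 1 = ((j.val + 1 : ℕ) : ZMod (Nat.card E)) := by
          push_cast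
          rw [ZMod.natCast_zmod_val]
        rw [h7, h5, ZMod.natCast_self, ZMod.val_zero]
      rw [h6, h5, ht2]
  let T : Fin k → G.EulerTour := fun i =>
    { step := fun j => t i j.val
      once := by
        rw [Nat.bijective_iff_injective_and_card]
        refine ⟨?_, by rw [Nat.card_zmod]⟩
        intro j j' hjj'
        simp only at hjj'
        have h5 : t i j.val = t i j'.val ∨ t i j.val = flipEnd (t i j'.val) := by
          rcases hb : (t i j.val).2 with _ | _ <;> rcases hb' : (t i j'.val).2 with _ | _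
          · left; exact Prod.ext hjj' (by rw [hb, hb'])
          · right; exact Prod.ext hjj' (by simp [flipEnd, hb, hb'])
          · right; exact Prod.ext hjj' (by simp [flipEnd, hb, hb'])
          · left; exact Prod.ext hjj' (by rw [hb, hb'])
        rcases h5 with h5 | h5
        · exact ZMod.val_injective _ (ht3 i _ (ZMod.val_lt j) _ (ZMod.val_lt j') h5)
        · exact absurd h5 (ht4 i _ _)
      chain := by
        intro j
        have h5 := hnext i j
        have h6 := h2 i (flipEnd (t i j.val))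
        rw [← h5] at h6
        exact h6.symm }
  refine ⟨T, ?_⟩
  intro i j hij a b hab
  -- transitions as pairs {x, τ x}
  have htr : ∀ i a, (T i).transition a = s(flipEnd (t i a.val), τ i (flipEnd (t i a.val))) := by
    intro i a
    unfold Multigraph.EulerTour.transition
    have h5 := hnext i a
    change s(flipEnd (t i a.val), t i (a + 1).val) = _
    rw [h5]
  rw [htr, htr, Sym2.eq_iff] at hab
  rcases hab with ⟨h5, h6⟩ | ⟨h5, h6⟩
  · rw [h5] at h6
    exact h3 i j hij _ h6
  · have h7 : τ i (flipEnd (t i a.val)) = τ j (flipEnd (t i a.val)) := by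
      rw [h6, h5, (h1 j).1]
    exact h3 i j hij _ h7

/-! ### Simple graphs -/

section Simple

variable {V : Type} {G : SimpleGraph V}

/-- The transitions of a closed walk: the unordered pairs of cyclically consecutive edges. -/
def transitions {u : V} (p : G.Walk u u) : List (Sym2 (Sym2 V)) :=
  List.zipWith (fun e f => s(e, f)) p.edges (p.edges.rotate 1)

/-- Two closed walks are compatible if no pair of edges is traversed consecutively in both. -/
def CompatibleWalks {u v : V} (p : G.Walk u u) (q : G.Walk v v) : Prop :=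
  ∀ t ∈ transitions p, t ∉ transitions q

/-- the walk along a sequence of darts -/
def walkOf (t : ℕ → G.Dart) (h : ∀ j, (t j).snd = (t (j + 1)).fst) :
    (n : ℕ) → G.Walk (t 0).fst (t n).fst
  | 0 => SimpleGraph.Walk.nil
  | n + 1 => (walkOf t h n).concat (by rw [← h n]; exact (t n).adj)

theorem walkOf_edges (t : ℕ → G.Dart) (h : ∀ j, (t j).snd = (t (j + 1)).fst) (n : ℕ) :
    (walkOf t h n).edges = (List.range n).map (fun j => (t j).edge) := by
  induction n with
  | zero => rfl
  | succ n ih =>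
    simp only [walkOf]
    rw [SimpleGraph.Walk.edges_concat, ih, List.range_succ, List.map_append,
      List.concat_eq_append]
    congr 1
    simp only [List.map_cons, List.map_nil, List.cons.injEq, and_true]
    rw [← h n]
    rfl

theorem dart_symm_PM : PM (SimpleGraph.Dart.symm : G.Dart → G.Dart) := by
  constructor
  · intro d; simp
  · intro d; exact d.symm_ne

theorem dart_pair_eq {x y x' y' : G.Dart} (h1 : x.fst = y.fst) (h2 : x ≠ y)
    (h1' : x'.fst = y'.fst) (h2' : x' ≠ y')
    (h : s(x.edge, y.edge) = s(x'.edge, y'.edge)) :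
    (x = x' ∧ y = y') ∨ (x = y' ∧ y = x') := by
  have key : ∀ a b a' b' : G.Dart, a.fst = b.fst → a ≠ b → a'.fst = b'.fst → a.edge = a'.edge →
      b.edge = b'.edge → a = a' ∧ b = b' := by
    intro a b a' b' hab hne hab' ha hb
    rw [SimpleGraph.dart_edge_eq_iff] at ha hb
    rcases ha with ha | ha
    · refine ⟨ha, ?_⟩
      rcases hb with hb | hb
      · exact hb
      · exfalso
        -- b = b'.symm: b.snd = b'.fst = a'.fst = a.fst = b.fst
        have h3 : b.snd = b.fst := by
          have h4 : b.snd = b'.fst := by rw [hb]; rfl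
          rw [h4, ← hab', ← ha, hab]
        exact b.adj.ne h3.symm
    · exfalso
      rcases hb with hb | hb
      · -- a = a'.symm, b = b'
        have h3 : a.snd = a.fst := by
          have h4 : a.snd = a'.fst := by rw [ha]; rfl
          rw [h4, hab', ← hb, hab]
        exact a.adj.ne h3.symm
      · apply hne
        have h3 : a.snd = b.snd := by
          have h4 : a.snd = a'.fst := by rw [ha]; rfl
          have h5 : b.snd = b'.fst := by rw [hb]; rfl
          rw [h4, h5, hab']
        exact SimpleGraph.Dart.ext _ _ (Prod.ext hab h3)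
  rw [Sym2.eq_iff] at h
  rcases h with ⟨h3, h4⟩ | ⟨h3, h4⟩
  · left; exact key x y x' y' h1 h2 h1' h3 h4
  · right; exact key x y y' x' h1 h2 h1'.symm h3 h4

theorem simple_tours [Fintype V] [DecidableEq V] [DecidableRel G.Adj] (k : ℕ) (hG : G.Connected)
    (heven : ∀ v, Even (G.degree v)) (hpos : ∃ v, 0 < G.degree v)
    (hSV : ∀ v, SV (G.degree v) k) :
    ∃ (u : Fin k → V) (p : (i : Fin k) → G.Walk (u i) (u i)), (∀ i, (p i).IsEulerian) ∧
      ∀ i j, i ≠ j → CompatibleWalks (p i) (p j) := by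
  classical
  obtain ⟨v0, hv0⟩ := hpos
  obtain ⟨w0, hw0⟩ : ∃ w, G.Adj v0 w := by
    rw [G.degree_pos_iff_exists_adj] at hv0
    exact hv0
  let φ : G.Dart → V := fun d => d.fst
  have hdeg : ∀ v, Nat.card {d : G.Dart // φ d = v} = G.degree v := by
    intro v
    rw [Nat.card_eq_fintype_card, ← SimpleGraph.dart_fst_fiber_card_eq_degree,
      Fintype.card_subtype]
  have hconn : ∀ x y : G.Dart,
      Relation.EqvGen (fun a b => b = a.symm ∨ φ a = φ b) x y := by
    intro x y
    obtain ⟨p⟩ := hG.preconnected x.fst y.fst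
    -- induction on the walk
    have key : ∀ (u v : V) (p : G.Walk u v) (x y : G.Dart), x.fst = u → y.fst = v →
        Relation.EqvGen (fun a b => b = a.symm ∨ φ a = φ b) x y := by
      intro u v p
      induction p with
      | nil =>
        intro x y hx hy
        exact Relation.EqvGen.rel _ _ (Or.inr (by simp only [φ]; rw [hx, hy]))
      | @cons a b c hab q ih =>
        intro x y hx hy
        let d : G.Dart := ⟨(a, b), hab⟩
        have h1 : Relation.EqvGen (fun a b : G.Dart => b = a.symm ∨ φ a = φ b) x d :=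
          Relation.EqvGen.rel _ _ (Or.inr hx)
        have h2 : Relation.EqvGen (fun a b : G.Dart => b = a.symm ∨ φ a = φ b) d d.symm :=
          Relation.EqvGen.rel _ _ (Or.inl rfl)
        exact Relation.EqvGen.trans _ _ _ (Relation.EqvGen.trans _ _ _ h1 h2)
          (ih d.symm y rfl hy)
    exact key _ _ p x y rfl rfl
  obtain ⟨τ, h1, h2, h3, h4⟩ := compatible_transitions (H := G.Dart) (W := V)
    SimpleGraph.Dart.symm dart_symm_PM φ k (fun w => by rw [hdeg]; exact heven w)
    (fun w => Or.inl (by rw [hdeg]; exact hSV w)) hconn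
  set m := G.edgeFinset.card with hm
  have hcard : Nat.card G.Dart = 2 * m := by
    rw [Nat.card_eq_fintype_card]
    exact G.dart_card_eq_twice_card_edges
  have hseq := fun i => tour_seq (dart_symm_PM (G := G)) (h1 i) (h4 i) m hcard
    (⟨(v0, w0), hw0⟩ : G.Dart)
  choose t ht0 ht1 ht2 ht3 ht4 ht5 using hseq
  have hchain : ∀ i j, (t i j).snd = (t i (j + 1)).fst := by
    intro i j
    rw [ht1]
    have := h2 i (t i j).symm
    exact this.symm
  have hmpos : 0 < m := by
    have : 0 < Nat.card G.Dart := by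
      rw [Nat.card_pos_iff]
      exact ⟨⟨⟨(v0, w0), hw0⟩⟩, inferInstance⟩
    omega
  refine ⟨fun i => (t i 0).fst, fun i => (walkOf (t i) (hchain i) m).copy rfl
    (by rw [ht2 i]), ?_, ?_⟩
  · intro i e he
    rw [SimpleGraph.Walk.edges_copy, walkOf_edges]
    apply List.count_eq_one_of_mem
    · rw [List.nodup_map_iff_inj_on List.nodup_range]
      intro a ha b hb hab
      rw [List.mem_range] at ha hb
      rw [SimpleGraph.dart_edge_eq_iff] at hab
      rcases hab with hab | hab
      · exact ht3 i a ha b hb hab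
      · exact absurd hab (ht4 i a b)
    · rw [List.mem_map]
      -- find the dart
      obtain ⟨d, hd⟩ : ∃ d : G.Dart, d.edge = e := by
        induction e using Sym2.ind with
        | _ a b =>
          exact ⟨⟨(a, b), by simpa using he⟩, rfl⟩
      obtain ⟨j, hj, h5⟩ := ht5 i d
      refine ⟨j, List.mem_range.2 hj, ?_⟩
      rcases h5 with h5 | h5
      · rw [← h5, hd]
      · rw [← hd, h5, SimpleGraph.Dart.edge_symm]
  · -- compatibility
    have htr : ∀ i, ∀ x ∈ transitions ((walkOf (t i) (hchain i) m).copy rfl (by rw [ht2 i])),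
        ∃ d : G.Dart, x = s(d.edge, (τ i d).edge) := by
      intro i x hx
      unfold transitions at hx
      rw [SimpleGraph.Walk.edges_copy, walkOf_edges] at hx
      obtain ⟨a, ha, hax⟩ := List.mem_iff_getElem.1 hx
      have ha' : a < m := by
        simp only [List.length_zipWith, List.length_rotate, List.length_map,
          List.length_range, min_self] at ha
        exact ha
      rw [List.getElem_zipWith, List.getElem_rotate] at hax
      simp only [List.getElem_map, List.getElem_range, List.length_map,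
        List.length_range] at hax
      refine ⟨(t i a).symm, ?_⟩
      rw [← hax, ← ht1, SimpleGraph.Dart.edge_symm]
      congr 1
      by_cases h5 : a + 1 < m
      · rw [Nat.mod_eq_of_lt h5]
      · have h6 : a + 1 = m := by omega
        rw [h6, Nat.mod_self, ht2]
    intro i j hij x hx hx'
    obtain ⟨d, hd⟩ := htr i x hx
    obtain ⟨d', hd'⟩ := htr j x hx'
    rw [hd] at hd'
    rcases dart_pair_eq (h2 i d).symm ((h1 i).2 d).symm (h2 j d').symm ((h1 j).2 d').symm hd'
      with ⟨h5, h6⟩ | ⟨h5, h6⟩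
    · rw [h5] at h6
      exact h3 i j hij _ h6
    · apply h3 i j hij d
      rw [h6, h5, (h1 j).1]

end Simple

end Pool.Agent.Lib.MP_fe131b_co
end

section

/-!
The final choice of the number of layers in terms of the minimum degree.
-/

namespace Pool.Agent.Lib.MP_fe131b_co

open Finset Function Filter

theorem exists_pow_bound : ∃ B : ℕ, ∀ x : ℕ, (x + 3) ^ 18 ≤ B * 2 ^ x := by
  have h := tendsto_pow_const_div_const_pow_of_one_lt 18 (show (1 : ℝ) < 2 by norm_num)
  obtain ⟨M, hM⟩ := h.bddAbove_range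
  have hM' : ∀ n : ℕ, ((n : ℝ) ^ 18 / 2 ^ n) ≤ M := fun n => hM ⟨n, rfl⟩
  refine ⟨Nat.ceil (8 * M), ?_⟩
  intro x
  have h1 := hM' (x + 3)
  rw [div_le_iff₀ (by positivity)] at h1
  have h2 : ((x + 3 : ℕ) : ℝ) ^ 18 ≤ (8 * M) * 2 ^ x := by
    refine le_trans h1 (le_of_eq ?_)
    rw [pow_add]; ring
  have h3 : (8 * M) * 2 ^ x ≤ (Nat.ceil (8 * M) : ℝ) * 2 ^ x :=
    mul_le_mul_of_nonneg_right (Nat.le_ceil _) (by positivity)
  exact_mod_cast le_trans h2 h3

/-- the single-vertex property for all large even `n` -/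
theorem SV_large : ∃ C0 : ℕ, 1 ≤ C0 ∧ ∀ a n k : ℕ, 1 ≤ a → Even n →
    C0 * (2 ^ a) ^ 52 ≤ n → (2 ^ a) ^ 2 * k ≤ (2 ^ a - 1) ^ 2 * n → SV n k := by
  classical
  obtain ⟨B, hB⟩ := exists_pow_bound
  refine ⟨(12288 ^ 4 * 128 ^ 9) ^ 2 * B + 1, by omega, ?_⟩
  intro a n k ha hn hbig hk
  have hA2 : 2 ≤ 2 ^ a := by
    calc 2 = 2 ^ 1 := by norm_num
      _ ≤ 2 ^ a := Nat.pow_le_pow_right (by norm_num) ha
  generalize hAA : 2 ^ a = A at hbig hk hA2
  have hnpos : n ≠ 0 := by
    have : 1 ≤ A ^ 52 := Nat.one_le_pow _ _ (by omega)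
    intro h0
    rw [h0] at hbig
    have h1 := Nat.le_zero.1 hbig
    rcases Nat.mul_eq_zero.1 h1 with h | h
    · omega
    · omega
  have hcardK : Fintype.card (Fin a → ZMod 2) = A := by
    rw [Fintype.card_fun, ZMod.card, Fintype.card_fin, hAA]
  refine SV_main (Fin a → ZMod 2) ?_ n k A hcardK hA2 hn ?_ hk
  · intro k
    funext i
    exact CharTwo.add_self_eq_zero (k i)
  · -- the numerical condition
    set Λ := Nat.log 2 n with hΛ
    have h1 : 2 ^ Λ ≤ n := Nat.pow_log_le_self 2 hnpos
    have h2 : (Λ + 3) ^ 18 ≤ B * n := le_trans (hB Λ) (Nat.mul_le_mul_left _ h1)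
    have h3 : (12288 ^ 4 * A ^ 26 * (128 * (Λ + 3)) ^ 9) ^ 2 ≤ n ^ 2 := by
      calc (12288 ^ 4 * A ^ 26 * (128 * (Λ + 3)) ^ 9) ^ 2
          = (12288 ^ 4 * 128 ^ 9) ^ 2 * (Λ + 3) ^ 18 * A ^ 52 := by ring
        _ ≤ (12288 ^ 4 * 128 ^ 9) ^ 2 * (B * n) * A ^ 52 := by
            apply Nat.mul_le_mul_right
            exact Nat.mul_le_mul_left _ h2
        _ = ((12288 ^ 4 * 128 ^ 9) ^ 2 * B * A ^ 52) * n := by ring
        _ ≤ n * n := by
            apply Nat.mul_le_mul_right
            refine le_trans ?_ hbig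
            apply Nat.mul_le_mul_right
            exact Nat.le_succ _
        _ = n ^ 2 := by ring
    exact le_of_sq_le_sq' h3
where
  le_of_sq_le_sq' {x y : ℕ} (h : x ^ 2 ≤ y ^ 2) : x ≤ y := by
    by_contra hcon
    push Not at hcon
    exact absurd h (not_le.2 (Nat.pow_lt_pow_left hcon (by norm_num)))

/-- For every `d` there is a `k` close to `2 d` such that the single-vertex property holds for
all even degrees at least `2 d`. -/
theorem exists_k : ∃ C : ℝ, ∀ d : ℕ, 1 ≤ d → ∃ k : ℕ,
    2 * (d : ℝ) - C * (d : ℝ) ^ ((51 : ℝ) / 52) ≤ k ∧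
    ∀ n : ℕ, Even n → 2 * d ≤ n → SV n k := by
  classical
  obtain ⟨C0, hC0, hSV⟩ := SV_large
  have hSV0 : ∀ n, SV n 0 := by
    intro n V _ L _ _
    exact ⟨fun i => i.elim0, fun i => i.elim0, fun i => i.elim0, fun i => i.elim0⟩
  refine ⟨9 * (C0 : ℝ) * 2 ^ 52, ?_⟩
  intro d hd
  have hdR : (1 : ℝ) ≤ d := by exact_mod_cast hd
  have hdpos : (0 : ℝ) < d := by linarith
  have hC0R : (1 : ℝ) ≤ C0 := by exact_mod_cast hC0
  set P : ℝ := (d : ℝ) ^ ((51 : ℝ) / 52) with hP
  have hP1 : 1 ≤ P := Real.one_le_rpow hdR (by norm_num)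
  by_cases hsmall : 2 * d < C0 * (2 ^ 1) ^ 52
  · -- small d : k = 0
    refine ⟨0, ?_, fun n _ _ => hSV0 n⟩
    have h1 : (2 : ℝ) * d < C0 * 2 ^ 52 := by
      have : ((2 * d : ℕ) : ℝ) < ((C0 * (2 ^ 1) ^ 52 : ℕ) : ℝ) := by exact_mod_cast hsmall
      push_cast at this
      norm_num at this ⊢
      exact this
    have h2 : (C0 : ℝ) * 2 ^ 52 * 1 ≤ (9 * C0 * 2 ^ 52) * P := by
      apply mul_le_mul _ hP1 zero_le_one (by positivity)
      nlinarith
    push_cast
    linarith
  · push Not at hsmall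
    -- the largest a with C0 * (2^a)^52 ≤ 2 d
    let Q : ℕ → Prop := fun a => C0 * (2 ^ a) ^ 52 ≤ 2 * d
    have hQ1 : Q 1 := hsmall
    have hbound : ∀ a, Q a → a ≤ 2 * d := by
      intro a ha
      have h1 : a < 2 ^ a := Nat.lt_two_pow_self
      have h2 : 2 ^ a ≤ (2 ^ a) ^ 52 := Nat.le_self_pow (by norm_num) _
      have h3 : 1 * (2 ^ a) ^ 52 ≤ C0 * (2 ^ a) ^ 52 := Nat.mul_le_mul_right _ hC0
      have h4 : C0 * (2 ^ a) ^ 52 ≤ 2 * d := ha
      have h5 : 2 ^ a ≤ 2 * d := by
        calc 2 ^ a ≤ (2 ^ a) ^ 52 := h2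
          _ = 1 * (2 ^ a) ^ 52 := (Nat.one_mul _).symm
          _ ≤ _ := h3
          _ ≤ _ := h4
      exact le_trans h1.le h5
    set a := Nat.findGreatest Q (2 * d) with ha
    have haQ : Q a := Nat.findGreatest_spec (m := 1) (by omega) hQ1
    have ha1 : 1 ≤ a := Nat.le_findGreatest (by omega) hQ1
    have hanot : ¬ Q (a + 1) := by
      intro h
      have h1 := hbound _ h
      have := Nat.le_findGreatest (P := Q) h1 h
      omega
    have hanot' : 2 * d < C0 * (2 ^ (a + 1)) ^ 52 := by
      simpa [Q] using hanot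
    have haQ' : C0 * (2 ^ a) ^ 52 ≤ 2 * d := haQ
    set A := 2 ^ a with hA
    have hA2 : 2 ≤ A := by
      calc 2 = 2 ^ 1 := by norm_num
        _ ≤ 2 ^ a := Nat.pow_le_pow_right (by norm_num) ha1
    have hApos : 0 < A := by omega
    set k := ((A - 1) ^ 2 * (2 * d)) / A ^ 2 with hk
    refine ⟨k, ?_, ?_⟩
    · -- the lower bound for k
      have hAR : (2 : ℝ) ≤ A := by exact_mod_cast hA2
      have hARpos : (0 : ℝ) < A := by linarith
      have h1 : ((A - 1) ^ 2 * (2 * d)) < (k + 1) * A ^ 2 := by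
        have := Nat.lt_div_mul_add (a := (A - 1) ^ 2 * (2 * d)) (b := A ^ 2) (by positivity)
        rw [← hk] at this
        calc (A - 1) ^ 2 * (2 * d) < k * A ^ 2 + A ^ 2 := this
          _ = _ := by ring
      have h2 : ((A : ℝ) - 1) ^ 2 * (2 * d) < ((k : ℝ) + 1) * A ^ 2 := by
        have h3 : ((A - 1 : ℕ) : ℝ) = (A : ℝ) - 1 := by
          rw [Nat.cast_sub (by omega)]; simp
        have h4 : (((A - 1) ^ 2 * (2 * d) : ℕ) : ℝ) < (((k + 1) * A ^ 2 : ℕ) : ℝ) := by
          exact_mod_cast h1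
        push_cast at h4
        rw [h3] at h4
        exact h4
      -- 2 d - 4 d / A ≤ k + 1
      have h3 : 2 * (d : ℝ) - 4 * d / A ≤ k + 1 := by
        have h5 : (2 * (d : ℝ) - 4 * d / A) * A ^ 2 ≤ ((A : ℝ) - 1) ^ 2 * (2 * d) := by
          have h6 : (2 * (d : ℝ) - 4 * d / A) * A ^ 2 = 2 * d * A ^ 2 - 4 * d * A := by
            field_simp
          rw [h6]
          nlinarith
        have h6 : (2 * (d : ℝ) - 4 * d / A) * A ^ 2 ≤ ((k : ℝ) + 1) * A ^ 2 :=
          le_trans h5 h2.le
        exact le_of_mul_le_mul_right h6 (by positivity)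
      -- d / A ≤ 2 C0 P
      have h4 : (d : ℝ) / A ≤ 2 * C0 * P := by
        rw [div_le_iff₀ hARpos]
        -- raise to the power 52
        have h5 : (2 : ℝ) * d < C0 * (2 * A) ^ 52 := by
          have : ((2 * d : ℕ) : ℝ) < ((C0 * (2 ^ (a + 1)) ^ 52 : ℕ) : ℝ) := by
            exact_mod_cast hanot'
          push_cast at this
          rw [hA]
          push_cast
          calc (2 : ℝ) * d < _ := this
            _ = _ := by rw [pow_succ]; ring
        have h6 : (d : ℝ) = (d : ℝ) ^ ((1 : ℝ) / 52) * P := by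
          rw [hP, ← Real.rpow_add hdpos]
          norm_num
        have h7 : (d : ℝ) ^ ((1 : ℝ) / 52) ≤ C0 * (2 * A) := by
          have h8 : (d : ℝ) ≤ (C0 * (2 * A)) ^ 52 := by
            have h9 : (C0 : ℝ) ≤ C0 ^ 52 := by
              calc (C0 : ℝ) = C0 ^ 1 := (pow_one _).symm
                _ ≤ C0 ^ 52 := pow_le_pow_right₀ hC0R (by norm_num)
            calc (d : ℝ) ≤ 2 * d := by linarith
              _ ≤ C0 * (2 * A) ^ 52 := h5.le
              _ ≤ C0 ^ 52 * (2 * A) ^ 52 := mul_le_mul_of_nonneg_right h9 (by positivity)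
              _ = (C0 * (2 * A)) ^ 52 := (mul_pow _ _ _).symm
          have h10 : (d : ℝ) ^ ((1 : ℝ) / 52) ≤ ((C0 * (2 * A) : ℝ) ^ 52) ^ ((1 : ℝ) / 52) :=
            Real.rpow_le_rpow hdpos.le h8 (by norm_num)
          refine le_trans h10 (le_of_eq ?_)
          rw [← Real.rpow_natCast, ← Real.rpow_mul (by positivity)]
          norm_num
        calc (d : ℝ) = (d : ℝ) ^ ((1 : ℝ) / 52) * P := h6
          _ ≤ C0 * (2 * A) * P := mul_le_mul_of_nonneg_right h7 (by linarith)
          _ = _ := by ring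
      have h5 : 4 * (d : ℝ) / A ≤ 8 * C0 * P := by
        calc 4 * (d : ℝ) / A = 4 * (d / A) := by ring
          _ ≤ 4 * (2 * C0 * P) := by linarith
          _ = _ := by ring
      have h6 : 8 * (C0 : ℝ) * P + 1 ≤ (9 * C0 * 2 ^ 52) * P := by
        have h7 : (1 : ℝ) ≤ C0 * P := by nlinarith
        nlinarith
      linarith
    · intro n hn hdn
      apply hSV a n k ha1 hn (le_trans haQ' hdn)
      calc A ^ 2 * k ≤ (A - 1) ^ 2 * (2 * d) := by
            rw [hk]; exact Nat.mul_div_le _ _
        _ ≤ (A - 1) ^ 2 * n := Nat.mul_le_mul_left _ hdn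

end Pool.Agent.Lib.MP_fe131b_co
end
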