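import Pool.Agent.Lib.MP_fe131b_co.FracVertex
import Pool.Agent.Lib.MP_fe131b_co.Tours

/-!
Fractional version of the reduction theorem: a uniform family of transition systems, all of them
connected, which contains every transition at a vertex of degree `n` at most `1 / (n - 2)` of the
time; and the Euler tours given by it.
-/

namespace Pool.Agent.Lib.MP_fe131b_co

open Finset Function

theorem frac_process {H W : Type} [Finite H] [DecidableEq W] (α : H → H) (hα : PM α) (φ : H → W)
    (heven : ∀ w, Even (Nat.card {h // φ h = w})) (S : Finset W) :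
    ∃ (I : Type) (_ : Fintype I) (_ : Nonempty I) (τ : I → H → H), (∀ i, PM (τ i)) ∧
      (∀ i h, φ (τ i h) = φ h) ∧
      (∀ i h h', φ h ∈ S → φ h' = φ h → (rel α (τ i)).r h h') ∧
      (∀ h h', φ h ∈ S →
        (Nat.card {x // φ x = φ h} - 2) * Nat.card {i // τ i h = h'} ≤ Fintype.card I) := by
  classical
  induction S using Finset.induction_on with
  | empty =>
    obtain ⟨f, hf1, hf2⟩ := exists_pairing φ heven
    exact ⟨Unit, inferInstance, inferInstance, fun _ => f, fun _ => hf1, fun _ h => hf2 h,
      fun i h h' hh => by simp at hh, fun h h' hh => by simp at hh⟩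
  | insert w S hw ih =>
    obtain ⟨I, iI, nI, τ, h1, h2, h4, h5⟩ := ih
    -- the restricted relation
    let τ' : I → H → H := fun i h => if φ h = w then h else τ i h
    have hout := fun i => exists_outer α hα φ w (τ i) (h1 i) (h2 i) (rel α (τ' i))
      (fun h => rel_L _ _ h) (by
        intro h hh
        have : τ' i h = τ i h := by simp only [τ']; rw [if_neg hh]
        rw [← this]
        exact rel_M _ _ h)
    choose L hL1 hL2 using hout
    have : Fintype {h // φ h = w} := Fintype.ofFinite _
    obtain ⟨J, iJ, nJ, hJ⟩ := frac_vertex {h // φ h = w}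
    have hM := fun i => hJ (L i) (hL1 i)
    choose M hM1 hM3 hM4 using hM
    let τn : I × J → H → H := fun p h => if hh : φ h = w then (M p.1 p.2 ⟨h, hh⟩).1 else τ p.1 h
    have e1 : ∀ p h (hh : φ h = w), τn p h = (M p.1 p.2 ⟨h, hh⟩).1 := by
      intro p h hh; simp only [τn]; rw [dif_pos hh]
    have e2 : ∀ p h, φ h ≠ w → τn p h = τ p.1 h := by
      intro p h hh; simp only [τn]; rw [dif_neg hh]
    have hφn : ∀ p h, φ (τn p h) = φ h := by
      intro p h
      by_cases hh : φ h = w
      · rw [e1 p h hh, hh]; exact (M p.1 p.2 ⟨h, hh⟩).2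
      · rw [e2 p h hh]; exact h2 p.1 h
    have hpm : ∀ p, PM (τn p) := by
      intro p
      constructor
      · intro h
        by_cases hh : φ h = w
        · have hh' : φ (τn p h) = w := by rw [hφn, hh]
          rw [e1 p _ hh']
          have : (⟨τn p h, hh'⟩ : {h // φ h = w}) = M p.1 p.2 ⟨h, hh⟩ := Subtype.ext (e1 p h hh)
          rw [this, (hM1 p.1 p.2).1]
        · have hh' : φ (τn p h) ≠ w := by rw [hφn]; exact hh
          rw [e2 p _ hh', e2 p h hh, (h1 p.1).1]
      · intro h
        by_cases hh : φ h = w
        · rw [e1 p h hh]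
          exact fun h' => (hM1 p.1 p.2).2 ⟨h, hh⟩ (Subtype.ext h')
        · rw [e2 p h hh]; exact (h1 p.1).2 h
    -- the outer relation is contained in the new one
    have hle1 : ∀ p x y, (rel α (τ' p.1)).r x y → (rel α (τn p)).r x y := by
      intro p x y hxy
      refine rel_le_of (rel α (τn p)) (rel_L _ _) ?_ hxy
      intro z
      by_cases hz : φ z = w
      · have : τ' p.1 z = z := by simp only [τ']; rw [if_pos hz]
        rw [this]
      · have : τ' p.1 z = τ p.1 z := by simp only [τ']; rw [if_neg hz]
        rw [this, ← e2 p z hz]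
        exact rel_M _ _ z
    -- all ends at w are connected
    have hw1 : ∀ p (x y : {h // φ h = w}), (rel α (τn p)).r x.1 y.1 := by
      intro p x y
      have h5 := hM3 p.1 p.2 x y
      refine rel_le_of (Setoid.comap Subtype.val (rel α (τn p))) ?_ ?_ h5
      · intro z
        exact hle1 p _ _ (hL2 p.1 z)
      · intro z
        change (rel α (τn p)).r z.1 (M p.1 p.2 z).1
        rw [← e1 p z.1 z.2]
        exact rel_M _ _ _
    have hle2 : ∀ p x y, (rel α (τ p.1)).r x y → (rel α (τn p)).r x y := by
      intro p x y hxy
      refine rel_le_of (rel α (τn p)) (rel_L _ _) ?_ hxy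
      intro z
      by_cases hz : φ z = w
      · exact hw1 p ⟨z, hz⟩ ⟨τ p.1 z, by rw [h2, hz]⟩
      · rw [← e2 p z hz]
        exact rel_M _ _ z
    refine ⟨I × J, inferInstance, inferInstance, τn, hpm, hφn, ?_, ?_⟩
    · intro p h h' hh hh'
      by_cases hhw : φ h = w
      · exact hw1 p ⟨h, hhw⟩ ⟨h', by rw [hh', hhw]⟩
      · rcases Finset.mem_insert.1 hh with hh | hh
        · exact absurd hh hhw
        · exact hle2 p h h' (h4 p.1 h h' hh hh')
    · intro h h' hh
      rw [Fintype.card_prod]
      by_cases hhw : φ h = w
      · by_cases hhw' : φ h' = w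
        · have hn : Nat.card {x // φ x = φ h} = Nat.card {x // φ x = w} := by rw [hhw]
          have hc : Nat.card {p // τn p h = h'} =
              ∑ i : I, Nat.card {j // M i j ⟨h, hhw⟩ = ⟨h', hhw'⟩} := by
            have e : {p // τn p h = h'} ≃ Σ i : I, {j // M i j ⟨h, hhw⟩ = ⟨h', hhw'⟩} :=
              { toFun := fun p => ⟨p.1.1, ⟨p.1.2, Subtype.ext (by rw [← e1 p.1 h hhw]; exact p.2)⟩⟩
                invFun := fun p => ⟨(p.1, p.2.1), by rw [e1 _ h hhw, p.2.2]⟩
                left_inv := fun p => rfl
                right_inv := fun p => rfl }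
            rw [Nat.card_congr e, Nat.card_sigma]
          rw [hn, hc, Finset.mul_sum]
          calc ∑ i : I, (Nat.card {x // φ x = w} - 2) *
                Nat.card {j // M i j ⟨h, hhw⟩ = ⟨h', hhw'⟩}
              ≤ ∑ _i : I, Fintype.card J := Finset.sum_le_sum (fun i _ => hM4 i _ _)
            _ = Fintype.card I * Fintype.card J := by
                rw [Finset.sum_const, Finset.card_univ, smul_eq_mul]
        · have hc : Nat.card {p // τn p h = h'} = 0 := by
            rw [Nat.card_eq_zero]
            left
            refine ⟨?_⟩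
            rintro ⟨p, hp⟩
            apply hhw'
            rw [← hp, hφn, hhw]
          rw [hc, mul_zero]
          exact Nat.zero_le _
      · have hhS : φ h ∈ S := by
          rcases Finset.mem_insert.1 hh with hh | hh
          · exact absurd hh hhw
          · exact hh
        have hc : Nat.card {p // τn p h = h'} = Nat.card {i // τ i h = h'} * Fintype.card J := by
          have e : {p // τn p h = h'} ≃ {i // τ i h = h'} × J :=
            { toFun := fun p => (⟨p.1.1, by rw [← e2 p.1 h hhw]; exact p.2⟩, p.1.2)
              invFun := fun p => ⟨(p.1.1, p.2), by rw [e2 _ h hhw]; exact p.1.2⟩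
              left_inv := fun p => rfl
              right_inv := fun p => rfl }
          rw [Nat.card_congr e, Nat.card_prod, Nat.card_eq_fintype_card (α := J)]
        rw [hc, ← mul_assoc]
        exact Nat.mul_le_mul_right _ (h5 h h' hhS)

/-- **Fractional reduction theorem**, in terms of edge-ends. -/
theorem frac_transitions {H W : Type} [Finite H] [Finite W] (α : H → H) (hα : PM α)
    (φ : H → W) (heven : ∀ w, Even (Nat.card {h // φ h = w}))
    (hconn : ∀ x y : H, Relation.EqvGen (fun a b => b = α a ∨ φ a = φ b) x y) :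
    ∃ (I : Type) (_ : Fintype I) (_ : Nonempty I) (τ : I → H → H), (∀ i, PM (τ i)) ∧
      (∀ i h, φ (τ i h) = φ h) ∧ (∀ i, Connected α (τ i)) ∧
      (∀ h h', (Nat.card {x // φ x = φ h} - 2) * Nat.card {i // τ i h = h'} ≤
        Fintype.card I) := by
  classical
  have := Fintype.ofFinite W
  obtain ⟨I, iI, nI, τ, h1, h2, h4, h5⟩ := frac_process α hα φ heven Finset.univ
  refine ⟨I, iI, nI, τ, h1, h2, ?_, fun h h' => h5 h h' (Finset.mem_univ _)⟩
  intro i x y
  have h5 := hconn x y
  induction h5 with
  | rel a b hab =>
    rcases hab with rfl | hab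
    · exact rel_L _ _ _
    · exact h4 i a b (Finset.mem_univ _) hab.symm
  | refl a => exact rel_refl _ _ _
  | symm a b _ ih => exact rel_symm ih
  | trans a b c _ _ ih1 ih2 => exact rel_trans ih1 ih2

/-- the Euler tour given by a connected transition system -/
theorem exists_tour {V E : Type} [Finite E] (G : Multigraph V E)
    (hE : 0 < Nat.card E) (τ : E × Bool → E × Bool) (h1 : PM τ)
    (h2 : ∀ x, G.ends (τ x).1 (τ x).2 = G.ends x.1 x.2) (h4 : Connected flipEnd τ) :
    ∃ T : G.EulerTour, ∀ j, ∃ x, T.transition j = s(x, τ x) := by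
  classical
  have : Nonempty E := (Nat.card_pos_iff.1 hE).1
  have : NeZero (Nat.card E) := ⟨by omega⟩
  have hcard : Nat.card (E × Bool) = 2 * Nat.card E := by
    rw [Nat.card_prod]; simp; ring
  obtain ⟨t, ht0, ht1, ht2, ht3, ht4, _⟩ := tour_seq (flipEnd_PM (E := E)) h1 h4 (Nat.card E) hcard
    (Classical.arbitrary (E × Bool))
  have hnext : ∀ (j : ZMod (Nat.card E)), t (j + 1).val = τ (flipEnd (t j.val)) := by
    intro j
    rw [← ht1]
    by_cases hj : j.val + 1 < Nat.card E
    · have : (j + 1).val = j.val + 1 := by
        have h7 : j + 1 = ((j.val + 1 : ℕ) : ZMod (Nat.card E)) := by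
          push_cast
          rw [ZMod.natCast_zmod_val]
        rw [h7, ZMod.val_cast_of_lt hj]
      rw [this]
    · have h5 : j.val + 1 = Nat.card E := by
        have := ZMod.val_lt j
        omega
      have h6 : (j + 1).val = 0 := by
        have h7 : j + 1 = ((j.val + 1 : ℕ) : ZMod (Nat.card E)) := by
          push_cast
          rw [ZMod.natCast_zmod_val]
        rw [h7, h5, ZMod.natCast_self, ZMod.val_zero]
      rw [h6, h5, ht2]
  let T : G.EulerTour :=
    { step := fun j => t j.val
      once := by
        rw [Nat.bijective_iff_injective_and_card]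
        refine ⟨?_, by rw [Nat.card_zmod]⟩
        intro j j' hjj'
        simp only at hjj'
        have h5 : t j.val = t j'.val ∨ t j.val = flipEnd (t j'.val) := by
          rcases hb : (t j.val).2 with _ | _ <;> rcases hb' : (t j'.val).2 with _ | _
          · left; exact Prod.ext hjj' (by rw [hb, hb'])
          · right; exact Prod.ext hjj' (by simp [flipEnd, hb, hb'])
          · right; exact Prod.ext hjj' (by simp [flipEnd, hb, hb'])
          · left; exact Prod.ext hjj' (by rw [hb, hb'])
        rcases h5 with h5 | h5
        · exact ZMod.val_injective _ (ht3 _ (ZMod.val_lt j) _ (ZMod.val_lt j') h5)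
        · exact absurd h5 (ht4 _ _)
      chain := by
        intro j
        have h5 := hnext j
        have h6 := h2 (flipEnd (t j.val))
        rw [← h5] at h6
        exact h6.symm }
  refine ⟨T, ?_⟩
  intro j
  refine ⟨flipEnd (t j.val), ?_⟩
  unfold Multigraph.EulerTour.transition
  have h5 := hnext j
  change s(flipEnd (t j.val), t (j + 1).val) = _
  rw [h5]

end Pool.Agent.Lib.MP_fe131b_co
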