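import Pool.Agent.Lib.MP_fe131b_co.Basic

/-!
Fractional version of the single-vertex property: for a perfect matching `L` on `n` points there is
a uniform family of perfect matchings `M` with `L ∪ M` connected, containing every pair
at most `1 / (n - 2)` of the time.
-/

namespace Pool.Agent.Lib.MP_fe131b_co

open Finset Function

section

variable {X : Type*} [Finite X]

theorem exists_connected {L : X → X} (hL : PM L) : ∃ M : X → X, PM M ∧ Connected L M := by
  classical
  -- minimise the number of components
  have hne : ∃ n, ∃ M : X → X, PM M ∧ ncomp L M = n := ⟨ncomp L L, L, hL, rfl⟩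
  obtain ⟨M, hM, hn⟩ := Nat.find_spec hne
  refine ⟨M, hM, ?_⟩
  by_contra hcon
  unfold Connected at hcon
  push Not at hcon
  obtain ⟨c, d, hcd⟩ := hcon
  have h1 := ncomp_lt_of_merge (L := L) (M := M) (M' := sw M c d)
    (fun x y h => sw_rel_le hL hM hcd h) hcd (sw_rel_merge hL hM hcd)
  have h2 := Nat.find_min' hne ⟨sw M c d, sw_PM hM c d, rfl⟩
  omega

end

section

variable {X : Type*} [DecidableEq X]

/-- a permutation commuting with `L` which maps `a` to `b` -/
def mv (L : X → X) (a b : X) : Equiv.Perm X :=
  if b = a then 1 else if b = L a then Equiv.swap a (L a)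
    else Equiv.swap a b * Equiv.swap (L a) (L b)

theorem mv_apply_self {L : X → X} (hL : PM L) (a b : X) : mv L a b a = b := by
  unfold mv
  split_ifs with h1 h2
  · simp [h1]
  · simp [h2]
  · have h3 : Equiv.swap (L a) (L b) a = a := by
      apply Equiv.swap_apply_of_ne_of_ne (hL.2 a).symm
      intro h
      apply h2
      rw [h, hL.1]
    rw [Equiv.Perm.mul_apply, h3, Equiv.swap_apply_left]

theorem mv_apply_of_ne {L : X → X} (a b z : X) (h1 : z ≠ a) (h2 : z ≠ b) (h3 : z ≠ L a)
    (h4 : z ≠ L b) : mv L a b z = z := by
  unfold mv
  split_ifs with h5 h6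
  · rfl
  · exact Equiv.swap_apply_of_ne_of_ne h1 h3
  · rw [Equiv.Perm.mul_apply, Equiv.swap_apply_of_ne_of_ne h3 h4,
      Equiv.swap_apply_of_ne_of_ne h1 h2]

theorem mv_comm {L : X → X} (hL : PM L) (a b z : X) : mv L a b (L z) = L (mv L a b z) := by
  have hinj : ∀ x y, L x = L y → x = y := fun x y h => by
    rw [← hL.1 x, h, hL.1]
  by_cases hab : b = a
  · subst hab
    simp [mv]
  by_cases hab2 : b = L a
  · have e : mv L a b = Equiv.swap a (L a) := by
      unfold mv; rw [if_neg hab, if_pos hab2]
    rw [e]
    by_cases hz : z = a
    · subst hz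
      rw [Equiv.swap_apply_right, Equiv.swap_apply_left, hL.1]
    by_cases hz2 : z = L a
    · subst hz2
      rw [hL.1, Equiv.swap_apply_left, Equiv.swap_apply_right]
    rw [Equiv.swap_apply_of_ne_of_ne hz hz2, Equiv.swap_apply_of_ne_of_ne]
    · intro h
      exact hz2 (by rw [← h, hL.1])
    · intro h
      exact hz (hinj _ _ h)
  · have e : mv L a b = Equiv.swap a b * Equiv.swap (L a) (L b) := by
      unfold mv; rw [if_neg hab, if_neg hab2]
    have hLab : L a ≠ L b := fun h => hab (hinj _ _ h).symm
    have hLb : a ≠ L b := fun h => hab2 (by rw [h, hL.1])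
    have ha := hL.2 a
    have hb := hL.2 b
    have v1 : mv L a b a = b := mv_apply_self hL a b
    have v2 : mv L a b b = a := by
      rw [e, Equiv.Perm.mul_apply, Equiv.swap_apply_of_ne_of_ne hab2 hb.symm,
        Equiv.swap_apply_right]
    have v3 : mv L a b (L a) = L b := by
      rw [e, Equiv.Perm.mul_apply, Equiv.swap_apply_left, Equiv.swap_apply_of_ne_of_ne]
      · exact fun h => hLb h.symm
      · exact hb
    have v4 : mv L a b (L b) = L a := by
      rw [e, Equiv.Perm.mul_apply, Equiv.swap_apply_right, Equiv.swap_apply_of_ne_of_ne]
      · exact ha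
      · exact fun h => hab2 h.symm
    by_cases hz : z = a
    · subst hz; rw [v3, v1]
    by_cases hz2 : z = b
    · subst hz2; rw [v4, v2]
    by_cases hz3 : z = L a
    · subst hz3; rw [hL.1, v1, v3, hL.1]
    by_cases hz4 : z = L b
    · subst hz4; rw [hL.1, v2, v4, hL.1]
    rw [mv_apply_of_ne a b z hz hz2 hz3 hz4, mv_apply_of_ne a b (L z)]
    · intro h; exact hz3 (by rw [← h, hL.1])
    · intro h; exact hz4 (by rw [← h, hL.1])
    · intro h; exact hz (hinj _ _ h)
    · intro h; exact hz2 (hinj _ _ h)

/-- the permutations commuting with `L` -/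
def Cent (L : X → X) : Type _ := {g : Equiv.Perm X // ∀ z, g (L z) = L (g z)}

end

/-- conjugation of a matching by a permutation -/
def cj {X : Type*} (g : Equiv.Perm X) (M : X → X) : X → X := fun x => g (M (g.symm x))

theorem cj_PM {X : Type*} (g : Equiv.Perm X) {M : X → X} (hM : PM M) : PM (cj g M) := by
  constructor
  · intro x; simp [cj, hM.1]
  · intro x hx
    apply hM.2 (g.symm x)
    exact (Equiv.eq_symm_apply g).2 hx

theorem cj_rel {X : Type*} (g : Equiv.Perm X) {L M : X → X} {x y : X}
    (h : (rel L M).r x y) : (rel (cj g L) (cj g M)).r (g x) (g y) := by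
  refine rel_le_of (Setoid.comap g (rel (cj g L) (cj g M))) ?_ ?_ h
  · intro z
    change (rel (cj g L) (cj g M)).r (g z) (g (L z))
    have : g (L z) = cj g L (g z) := by simp [cj]
    rw [this]
    exact rel_L _ _ _
  · intro z
    change (rel (cj g L) (cj g M)).r (g z) (g (M z))
    have : g (M z) = cj g M (g z) := by simp [cj]
    rw [this]
    exact rel_M _ _ _

theorem cj_connected {X : Type*} (g : Equiv.Perm X) {L M : X → X} (h : Connected L M) :
    Connected (cj g L) (cj g M) := by
  intro x y
  have := cj_rel g (h (g.symm x) (g.symm y))
  simpa using this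

/-- any two perfect matchings of a finite set are conjugate -/
theorem exists_conj {X : Type*} [Finite X] {L L' : X → X} (hL : PM L) (hL' : PM L') :
    ∃ g : Equiv.Perm X, cj g L = L' := by
  classical
  have := Fintype.ofFinite X
  -- maximise the number of points on which `cj g L` and `L'` agree
  obtain ⟨g, -, hg⟩ := Finset.exists_max_image (Finset.univ : Finset (Equiv.Perm X))
    (fun g => (Finset.univ.filter (fun x => cj g L x = L' x)).card) ⟨1, Finset.mem_univ _⟩
  refine ⟨g, ?_⟩
  by_contra hne
  obtain ⟨x, hx⟩ := Function.ne_iff.1 hne
  set M := cj g L with hMdef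
  have hM : PM M := cj_PM g hL
  -- exchange the points `M x` and `L' x`
  let s : Equiv.Perm X := Equiv.swap (M x) (L' x)
  have hcomp : cj (s * g) L = cj s M := by
    funext z
    simp [cj, hMdef, Equiv.Perm.mul_def]
  have hsx : s x = x := Equiv.swap_apply_of_ne_of_ne (hM.2 x).symm (hL'.2 x).symm
  have hval : cj s M x = L' x := by
    have h1 : s.symm x = x := by rw [Equiv.symm_apply_eq, hsx]
    simp only [cj]
    rw [h1]
    exact Equiv.swap_apply_left _ _
  have hlt : (Finset.univ.filter (fun x => cj g L x = L' x)).card <
      (Finset.univ.filter (fun x => cj (s * g) L x = L' x)).card := by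
    apply Finset.card_lt_card
    rw [Finset.ssubset_iff_of_subset]
    · refine ⟨x, ?_, ?_⟩
      · rw [Finset.mem_filter, hcomp]
        exact ⟨Finset.mem_univ _, hval⟩
      · rw [Finset.mem_filter]
        exact fun h => hx h.2
    · intro z hz
      rw [Finset.mem_filter] at hz ⊢
      refine ⟨Finset.mem_univ _, ?_⟩
      rw [hcomp]
      have hz' : M z = L' z := hz.2
      -- `z` and `M z` are different from `M x`, `L' x`
      have a1 : z ≠ M x := by
        rintro rfl
        apply hx
        rw [hM.1] at hz'
        have h5 := congrArg L' hz'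
        rw [hL'.1] at h5
        exact h5.symm
      have a2 : z ≠ L' x := by
        rintro rfl
        apply hx
        rw [hL'.1] at hz'
        have h5 := congrArg M hz'
        rw [hM.1] at h5
        exact h5.symm
      have a3 : M z ≠ M x := by
        intro h
        have : z = x := by rw [← hM.1 z, h, hM.1]
        subst this
        exact hx hz'
      have a4 : M z ≠ L' x := by
        intro h
        have : z = x := by rw [← hL'.1 z, ← hz', h, hL'.1]
        subst this
        exact hx hz'
      have h1 : s.symm z = z := by
        rw [Equiv.symm_apply_eq]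
        exact (Equiv.swap_apply_of_ne_of_ne a1 a2).symm
      simp only [cj]
      rw [h1]
      have h2 : s (M z) = M z := Equiv.swap_apply_of_ne_of_ne a3 a4
      rw [h2, hz']
  exact absurd (hg (s * g) (Finset.mem_univ _)) (not_le.2 hlt)


/-- **Fractional single-vertex lemma.** -/
theorem frac_vertex (X : Type) [Finite X] :
    ∃ (J : Type) (_ : Fintype J) (_ : Nonempty J),
      ∀ L : X → X, PM L → ∃ M : J → X → X, (∀ j, PM (M j)) ∧ (∀ j, Connected L (M j)) ∧
        ∀ x y, (Nat.card X - 2) * Nat.card {j // M j x = y} ≤ Fintype.card J := by
  classical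
  have := Fintype.ofFinite X
  by_cases hPM : ∃ L0 : X → X, PM L0
  swap
  · refine ⟨Unit, inferInstance, inferInstance, ?_⟩
    intro L hL
    exact absurd ⟨L, hL⟩ hPM
  obtain ⟨L0, hL0⟩ := hPM
  obtain ⟨M0, hM0, hc0⟩ := exists_connected hL0
  let J : Type := {g : Equiv.Perm X // ∀ z, g (L0 z) = L0 (g z)}
  have hJ : Nonempty J := ⟨⟨1, fun z => rfl⟩⟩
  have hcj0 : ∀ g : J, cj g.1 L0 = L0 := by
    intro g
    funext z
    simp only [cj]
    rw [g.2]
    simp
  -- the count in the base case
  have hbase : ∀ x y, (Nat.card X - 2) * Nat.card {g : J // cj g.1 M0 x = y} ≤ Fintype.card J := by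
    -- transitivity
    have htr : ∀ x y x' y', y ≠ x → y ≠ L0 x → y' ≠ x' → y' ≠ L0 x' →
        ∃ c : J, c.1 x = x' ∧ c.1 y = y' := by
      intro x y x' y' h1 h2 h3 h4
      set c1 := mv L0 x x' with hc1
      have e1 : c1 x = x' := mv_apply_self hL0 x x'
      set y1 := c1 y with hy1
      have h5 : y1 ≠ x' := by
        rw [← e1]
        exact fun h => h1 (c1.injective h)
      have h6 : y1 ≠ L0 x' := by
        rw [← e1, ← mv_comm hL0 x x' x]
        exact fun h => h2 (c1.injective h)
      refine ⟨⟨mv L0 y1 y' * c1, ?_⟩, ?_, ?_⟩
      · intro z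
        rw [Equiv.Perm.mul_apply, Equiv.Perm.mul_apply, mv_comm hL0, mv_comm hL0]
      · rw [Equiv.Perm.mul_apply, e1]
        apply mv_apply_of_ne
        · exact h5.symm
        · exact h3.symm
        · intro h
          apply h6
          rw [h, hL0.1]
        · intro h
          apply h4
          rw [h, hL0.1]
      · rw [Equiv.Perm.mul_apply]
        exact mv_apply_self hL0 _ _
    intro x y
    -- the points `y` with a nonzero count
    by_cases hxy : y ≠ x ∧ y ≠ L0 x
    · have hconst : ∀ y', y' ≠ x → y' ≠ L0 x →
          Nat.card {g : J // cj g.1 M0 x = y'} = Nat.card {g : J // cj g.1 M0 x = y} := by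
        intro y' h3 h4
        obtain ⟨c, hc1, hc2⟩ := htr x y' x y h3 h4 hxy.1 hxy.2
        have hc1' : c.1.symm x = x := by rw [Equiv.symm_apply_eq, hc1]
        refine Nat.card_congr
          { toFun := fun g => ⟨⟨c.1 * g.1.1, fun z => by
                rw [Equiv.Perm.mul_apply, Equiv.Perm.mul_apply, g.1.2, c.2]⟩, ?_⟩
            invFun := fun g => ⟨⟨g.1.1.trans c.1.symm, fun z => by
                rw [Equiv.trans_apply, Equiv.trans_apply, g.1.2]
                apply c.1.injective
                rw [Equiv.apply_symm_apply, c.2, Equiv.apply_symm_apply]⟩, ?_⟩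
            left_inv := ?_
            right_inv := ?_ }
        · have hg := g.2
          simp only [cj] at hg ⊢
          have h5 : (c.1 * g.1.1).symm x = g.1.1.symm x := by
            rw [Equiv.symm_apply_eq, Equiv.Perm.mul_apply, Equiv.apply_symm_apply, hc1]
          rw [h5, Equiv.Perm.mul_apply, hg, hc2]
        · have hg := g.2
          simp only [cj] at hg ⊢
          have h5 : (g.1.1.trans c.1.symm).symm x = g.1.1.symm x := by
            rw [Equiv.symm_apply_eq, Equiv.trans_apply, Equiv.apply_symm_apply]
            exact hc1'.symm
          rw [h5, Equiv.trans_apply, hg]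
          rw [← hc2]
          simp
        · intro g
          apply Subtype.ext
          apply Subtype.ext
          apply Equiv.ext
          intro z
          change c.1.symm ((c.1 * g.1.1) z) = g.1.1 z
          rw [Equiv.Perm.mul_apply, Equiv.symm_apply_apply]
        · intro g
          apply Subtype.ext
          apply Subtype.ext
          apply Equiv.ext
          intro z
          change c.1 (c.1.symm (g.1.1 z)) = g.1.1 z
          rw [Equiv.apply_symm_apply]
      -- sum over y'
      have hsum : ∑ y' : X, Nat.card {g : J // cj g.1 M0 x = y'} = Fintype.card J := by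
        rw [← Nat.card_eq_fintype_card (α := J)]
        have e : J ≃ Σ y' : X, {g : J // cj g.1 M0 x = y'} :=
          { toFun := fun g => ⟨cj g.1 M0 x, ⟨g, rfl⟩⟩
            invFun := fun p => p.2.1
            left_inv := fun g => rfl
            right_inv := by
              rintro ⟨y', ⟨g, rfl⟩⟩
              rfl }
        rw [Nat.card_congr e, Nat.card_sigma]
      rw [← hsum]
      let S : Finset X := (Finset.univ.erase x).erase (L0 x)
      have hS : S.card = Nat.card X - 2 := by
        have h1 : L0 x ∈ Finset.univ.erase x := by
          rw [Finset.mem_erase]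
          exact ⟨hL0.2 x, Finset.mem_univ _⟩
        rw [Finset.card_erase_of_mem h1, Finset.card_erase_of_mem (Finset.mem_univ _),
          Finset.card_univ, Nat.card_eq_fintype_card]
        omega
      calc (Nat.card X - 2) * Nat.card {g : J // cj g.1 M0 x = y}
          = ∑ y' ∈ S, Nat.card {g : J // cj g.1 M0 x = y'} := by
            rw [← hS, ← smul_eq_mul, ← Finset.sum_const]
            apply Finset.sum_congr rfl
            intro y' hy'
            simp only [S, Finset.mem_erase] at hy'
            exact (hconst y' hy'.2.1 hy'.1).symm
        _ ≤ ∑ y' : X, Nat.card {g : J // cj g.1 M0 x = y'} :=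
            Finset.sum_le_sum_of_subset (Finset.subset_univ _)
    · -- the count is zero, unless `X` has at most two points
      by_cases hX : Nat.card X ≤ 2
      · rw [Nat.sub_eq_zero_of_le hX, zero_mul]
        exact Nat.zero_le _
      · have hzero : Nat.card {g : J // cj g.1 M0 x = y} = 0 := by
          rw [Nat.card_eq_zero]
          left
          refine ⟨?_⟩
          rintro ⟨g, hg⟩
          have hc := cj_connected g.1 hc0
          rw [hcj0 g] at hc
          have hp := cj_PM g.1 hM0
          push Not at hxy
          by_cases hyx : y = x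
          · rw [hyx] at hg
            exact hp.2 x hg
          · have hyL := hxy hyx
            rw [hyL] at hg
            -- `{x, L0 x}` is a component
            have hcl : ∀ z, z = x ∨ z = L0 x := by
              intro z
              have h7 := hc x z
              have h8 : ∀ a b, (rel L0 (cj g.1 M0)).r a b →
                  ((a = x ∨ a = L0 x) ↔ (b = x ∨ b = L0 x)) := by
                intro a b hab
                refine iff_of_eq (rel_invariant (fun a => (a = x ∨ a = L0 x)) ?_ ?_ hab)
                · intro w
                  apply propext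
                  constructor
                  · rintro (h | h)
                    · right; rw [← h, hL0.1]
                    · left; rw [← hL0.1 w, h, hL0.1]
                  · rintro (h | h)
                    · right; rw [h]
                    · left; rw [h, hL0.1]
                · intro w
                  apply propext
                  constructor
                  · rintro (h | h)
                    · right; rw [← hg, ← h, hp.1]
                    · left; rw [← hp.1 w, h, ← hg, hp.1]
                  · rintro (h | h)
                    · right; rw [h, hg]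
                    · left; rw [h, ← hg, hp.1]
              exact (h8 x z h7).1 (Or.inl rfl)
            apply hX
            have : Fintype.card X ≤ ({x, L0 x} : Finset X).card := by
              rw [← Finset.card_univ]
              apply Finset.card_le_card
              intro z _
              rw [Finset.mem_insert, Finset.mem_singleton]
              exact hcl z
            have h2 := Finset.card_le_two (a := x) (b := L0 x)
            rw [Nat.card_eq_fintype_card]
            omega
        rw [hzero, mul_zero]
        exact Nat.zero_le _
  refine ⟨J, inferInstance, hJ, ?_⟩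
  intro L hL
  obtain ⟨p, hp⟩ := exists_conj hL0 hL
  refine ⟨fun g => cj p (cj g.1 M0), fun g => cj_PM _ (cj_PM _ hM0), ?_, ?_⟩
  · intro g
    have h1 := cj_connected p (cj_connected g.1 hc0)
    rw [hcj0 g, hp] at h1
    exact h1
  · intro x y
    have h1 := hbase (p.symm x) (p.symm y)
    have h2 : Nat.card {j : J // cj p (cj j.1 M0) x = y} =
        Nat.card {g : J // cj g.1 M0 (p.symm x) = p.symm y} := by
      apply Nat.card_congr
      apply Equiv.subtypeEquivRight
      intro g
      rw [Equiv.eq_symm_apply]
      rfl
    rw [h2]
    exact h1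

end Pool.Agent.Lib.MP_fe131b_co
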