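import Pool.Agent.Lib.MP_fe131b_co.Basic

section

/-!
The exploration of a component in the union of a fixed perfect matching `L` and a variable
matching `M` which pairs the points of the groups as prescribed: switching injections.
-/

namespace Pool.Agent.Lib.MP_fe131b_co

open Finset Function

section Walk

variable {X : Type*}

theorem comp_injective {L M : X → X} (hL : PM L) (hM : PM M) : Function.Injective (L ∘ M) := by
  intro x y h
  have h1 : M x = M y := by
    have := congrArg L h
    simpa [hL.1] using this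
  have := congrArg M h1
  simpa [hM.1] using this

/-- the two directions of a cycle never meet -/
theorem iterate_ne {L M : X → X} (hL : PM L) (hM : PM M) :
    ∀ (r : ℕ) (v : X), (L ∘ M)^[r] v ≠ L v := by
  intro r
  induction r using Nat.strong_induction_on with
  | _ r ih =>
    intro v h
    match r, ih, h with
    | 0, _, h => exact hL.2 v h.symm
    | 1, _, h =>
      simp only [Function.iterate_one, Function.comp] at h
      have := congrArg L h
      simp only [hL.1] at this
      exact hM.2 v this
    | r + 2, ih, h =>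
      have h1 : (L ∘ M)^[r] ((L ∘ M) v) = L ((L ∘ M) v) := by
        rw [Function.iterate_succ_apply'] at h
        have h2 := congrArg L h
        simp only [Function.comp, hL.1] at h2
        have h3 := congrArg M h2
        simp only [hM.1] at h3
        rw [Function.iterate_succ_apply] at h3
        simp only [Function.comp, hL.1] at h3 ⊢
        exact h3
      exact ih r (by omega) _ h1

theorem iterate_ne' {L M : X → X} (hL : PM L) (hM : PM M) (a b : ℕ) (v : X) :
    (L ∘ M)^[a] v ≠ L ((L ∘ M)^[b] v) := by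
  rcases le_total b a with h | h
  · obtain ⟨k, rfl⟩ := Nat.exists_eq_add_of_le h
    rw [Nat.add_comm b k, Function.iterate_add_apply]
    exact iterate_ne hL hM k _
  · obtain ⟨k, rfl⟩ := Nat.exists_eq_add_of_le h
    intro h1
    have h2 := congrArg L h1
    rw [hL.1, Nat.add_comm a k, Function.iterate_add_apply] at h2
    exact iterate_ne hL hM k _ h2.symm

theorem iterate_ne_M {L M : X → X} (hL : PM L) (hM : PM M) (a b : ℕ) (v : X) :
    M ((L ∘ M)^[a] v) ≠ (L ∘ M)^[b] v := by
  intro h
  have h1 : (L ∘ M)^[a + 1] v = L ((L ∘ M)^[b] v) := by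
    rw [Function.iterate_succ_apply', Function.comp_apply, h]
  exact iterate_ne' hL hM _ _ v h1

theorem rel_iterate (L M : X → X) (r : ℕ) (v : X) : (rel L M).r v ((L ∘ M)^[r] v) := by
  induction r with
  | zero => exact rel_refl _ _ _
  | succ r ih =>
    rw [Function.iterate_succ_apply']
    exact rel_trans ih (rel_trans (rel_M L M _) (rel_L L M _))

variable [Finite X]

theorem period_pos {L M : X → X} (hL : PM L) (hM : PM M) (v : X) :
    0 < minimalPeriod (L ∘ M) v := by
  apply minimalPeriod_pos_of_mem_periodicPts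
  have hinj := comp_injective hL hM
  -- two iterates coincide
  obtain ⟨a, b, hab, h⟩ : ∃ a b : ℕ, a ≠ b ∧ (L ∘ M)^[a] v = (L ∘ M)^[b] v :=
    Finite.exists_ne_map_eq_of_infinite (fun n : ℕ => (L ∘ M)^[n] v)
  wlog hlt : a < b generalizing a b
  · exact this b a hab.symm h.symm (lt_of_le_of_ne (not_lt.1 hlt) hab.symm)
  obtain ⟨k, rfl⟩ := Nat.exists_eq_add_of_le hlt.le
  have hk : 0 < k := by omega
  rw [Function.iterate_add_apply] at h
  have := hinj.iterate a h
  exact mk_mem_periodicPts hk this.symm

/-- the component of `v` consists of the points `p^r v`, `M (p^r v)`, `r < period` -/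
theorem rel_iff_exists {L M : X → X} (hL : PM L) (hM : PM M) {v y : X}
    (h : (rel L M).r v y) : ∃ r < minimalPeriod (L ∘ M) v,
      y = (L ∘ M)^[r] v ∨ y = M ((L ∘ M)^[r] v) := by
  have hpos := period_pos hL hM v
  set t := minimalPeriod (L ∘ M) v with ht
  have hper : (L ∘ M)^[t] v = v := iterate_minimalPeriod
  let S : X → Prop := fun y => ∃ r < t, y = (L ∘ M)^[r] v ∨ y = M ((L ∘ M)^[r] v)
  have hSL : ∀ y, S y → S (L y) := by
    rintro y ⟨r, hr, rfl | rfl⟩
    · rcases Nat.eq_zero_or_pos r with rfl | hr0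
      · refine ⟨t - 1, by omega, Or.inr ?_⟩
        have h1 : (L ∘ M)^[t - 1 + 1] v = v := by rw [Nat.sub_add_cancel hpos]; exact hper
        rw [Function.iterate_succ_apply', Function.comp_apply] at h1
        have h2 := congrArg L h1
        rw [hL.1] at h2
        rw [h2]
        rfl
      · refine ⟨r - 1, by omega, Or.inr ?_⟩
        have h1 : (L ∘ M)^[r - 1 + 1] v = (L ∘ M)^[r] v := by rw [Nat.sub_add_cancel hr0]
        rw [← h1, Function.iterate_succ_apply', Function.comp_apply, hL.1]
    · by_cases hr1 : r + 1 < t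
      · refine ⟨r + 1, hr1, Or.inl ?_⟩
        rw [Function.iterate_succ_apply', Function.comp_apply]
      · have : r + 1 = t := by omega
        refine ⟨0, hpos, Or.inl ?_⟩
        have h1 : (L ∘ M)^[r + 1] v = v := by rw [this]; exact hper
        rw [Function.iterate_succ_apply', Function.comp_apply] at h1
        rw [h1]
        rfl
  have hSM : ∀ y, S y → S (M y) := by
    rintro y ⟨r, hr, rfl | rfl⟩
    · exact ⟨r, hr, Or.inr rfl⟩
    · exact ⟨r, hr, Or.inl (hM.1 _)⟩
  have hS : S v = S y := by
    refine rel_invariant S ?_ ?_ h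
    · intro x
      apply propext
      constructor
      · intro hx
        have := hSL _ hx
        rwa [hL.1] at this
      · exact hSL x
    · intro x
      apply propext
      constructor
      · intro hx
        have := hSM _ hx
        rwa [hM.1] at this
      · exact hSM x
  have hv : S v := ⟨0, hpos, Or.inl rfl⟩
  rw [hS] at hv
  exact hv

theorem two_period_le {L M : X → X} (hL : PM L) (hM : PM M) (v : X) :
    2 * minimalPeriod (L ∘ M) v ≤ Nat.card {y // (rel L M).r v y} := by
  classical
  set t := minimalPeriod (L ∘ M) v with ht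
  let f : Fin t ⊕ Fin t → {y // (rel L M).r v y} := fun z =>
    match z with
    | Sum.inl r => ⟨(L ∘ M)^[r] v, rel_iterate L M r v⟩
    | Sum.inr r => ⟨M ((L ∘ M)^[r] v), rel_trans (rel_iterate L M r v) (rel_M L M _)⟩
  have hf : Function.Injective f := by
    intro a b hab
    match a, b, hab with
    | Sum.inl a, Sum.inl b, hab =>
      have h1 : (L ∘ M)^[(a : ℕ)] v = (L ∘ M)^[(b : ℕ)] v := congrArg Subtype.val hab
      have := (iterate_eq_iterate_iff_of_lt_minimalPeriod (ht ▸ a.2) (ht ▸ b.2)).1 h1
      rw [Fin.ext this]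
    | Sum.inl a, Sum.inr b, hab =>
      have h1 : (L ∘ M)^[(a : ℕ)] v = M ((L ∘ M)^[(b : ℕ)] v) := congrArg Subtype.val hab
      exact absurd h1.symm (iterate_ne_M hL hM _ _ v)
    | Sum.inr a, Sum.inl b, hab =>
      have h1 : M ((L ∘ M)^[(a : ℕ)] v) = (L ∘ M)^[(b : ℕ)] v := congrArg Subtype.val hab
      exact absurd h1 (iterate_ne_M hL hM _ _ v)
    | Sum.inr a, Sum.inr b, hab =>
      have h1 : M ((L ∘ M)^[(a : ℕ)] v) = M ((L ∘ M)^[(b : ℕ)] v) := congrArg Subtype.val hab
      have h2 := congrArg M h1
      rw [hM.1, hM.1] at h2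
      have := (iterate_eq_iterate_iff_of_lt_minimalPeriod (ht ▸ a.2) (ht ▸ b.2)).1 h2
      rw [Fin.ext this]
  have h1 := Nat.card_le_card_of_injective f hf
  rw [Nat.card_eq_fintype_card, Fintype.card_sum, Fintype.card_fin] at h1
  omega

theorem card_comp_le {L M : X → X} (hL : PM L) (hM : PM M) (v : X) :
    Nat.card {y // (rel L M).r v y} ≤ 2 * minimalPeriod (L ∘ M) v := by
  classical
  set t := minimalPeriod (L ∘ M) v with ht
  let f : Fin t ⊕ Fin t → {y // (rel L M).r v y} := fun z =>
    match z with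
    | Sum.inl r => ⟨(L ∘ M)^[r] v, rel_iterate L M r v⟩
    | Sum.inr r => ⟨M ((L ∘ M)^[r] v), rel_trans (rel_iterate L M r v) (rel_M L M _)⟩
  have hf : Function.Surjective f := by
    rintro ⟨y, hy⟩
    obtain ⟨r, hr, h | h⟩ := rel_iff_exists hL hM hy
    · exact ⟨Sum.inl ⟨r, hr⟩, Subtype.ext h.symm⟩
    · exact ⟨Sum.inr ⟨r, hr⟩, Subtype.ext h.symm⟩
  have h1 := Nat.card_le_card_of_surjective f hf
  rw [Nat.card_eq_fintype_card (α := Fin t ⊕ Fin t), Fintype.card_sum, Fintype.card_fin] at h1
  omega

end Walk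

section Adm

variable {X Γ : Type*} [Fintype X] [DecidableEq X] [DecidableEq Γ]

/-- admissible matchings: the groups are paired by `c` -/
structure Adm (g : X → Γ) (c : Γ → Γ) (M : X → X) : Prop where
  inv : ∀ x, M (M x) = x
  grp : ∀ x, g (M x) = c (g x)

theorem Adm.pm {g : X → Γ} {c : Γ → Γ} (hc : ∀ γ, c γ ≠ γ) {M : X → X} (h : Adm g c M) :
    PM M := by
  refine ⟨h.inv, ?_⟩
  intro x hx
  have := h.grp x
  rw [hx] at this
  exact hc _ this.symm

theorem Adm.sw {g : X → Γ} {c : Γ → Γ} {M : X → X} (h : Adm g c M) {x y : X} (hxy : g x = g y) :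
    Adm g c (sw M x y) := by
  have hsw : ∀ z, g (Equiv.swap x y z) = g z := by
    intro z
    by_cases h1 : z = x
    · subst h1; rw [Equiv.swap_apply_left]; exact hxy.symm
    by_cases h2 : z = y
    · subst h2; rw [Equiv.swap_apply_right]; exact hxy
    rw [Equiv.swap_apply_of_ne_of_ne h1 h2]
  constructor
  · intro z
    simp [MP_fe131b_co.sw, h.inv]
  · intro z
    simp only [MP_fe131b_co.sw]
    rw [hsw, h.grp, hsw]

/-- a component with period `t` has at most `t` points in every group -/
theorem card_comp_group {g : X → Γ} {c : Γ → Γ} (hc : ∀ γ, c γ ≠ γ) {L M : X → X} (hL : PM L)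
    (hM : Adm g c M) (v : X) (γ : Γ) :
    Nat.card {y // (rel L M).r v y ∧ g y = γ} ≤ minimalPeriod (L ∘ M) v := by
  classical
  have hMpm := hM.pm hc
  set t := minimalPeriod (L ∘ M) v with ht
  have hex : ∀ y : {y // (rel L M).r v y ∧ g y = γ}, ∃ r : Fin t,
      y.1 = (L ∘ M)^[r] v ∨ y.1 = M ((L ∘ M)^[r] v) := by
    rintro ⟨y, hy, _⟩
    obtain ⟨r, hr, h⟩ := rel_iff_exists hL hMpm hy
    exact ⟨⟨r, hr⟩, h⟩
  choose f hf using hex
  have hinj : Function.Injective f := by
    intro y y' hyy'
    have h1 := hf y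
    have h2 := hf y'
    rw [← hyy'] at h2
    apply Subtype.ext
    have hg1 := y.2.2
    have hg2 := y'.2.2
    rcases h1 with h1 | h1 <;> rcases h2 with h2 | h2
    · rw [h1, h2]
    · exfalso
      rw [h1] at hg1
      rw [h2, hM.grp, hg1] at hg2
      exact hc _ hg2
    · exfalso
      rw [h2] at hg2
      rw [h1, hM.grp, hg2] at hg1
      exact hc _ hg1
    · rw [h1, h2]
  have := Nat.card_le_card_of_injective f hinj
  simpa using this

/-- **the switching injection** -/
theorem switch_injection {g : X → Γ} {c : Γ → Γ} (hc : ∀ γ, c γ ≠ γ) {D : ℕ}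
    (hD : ∀ γ, Nat.card {x // g x = γ} = D) {L : X → X} (hL : PM L)
    (E F : Finset (X → X)) (w : X) (t ζ : ℕ) (Z : (X → X) → X → Prop)
    (hE : ∀ M ∈ E, Adm g c M ∧ minimalPeriod (L ∘ M) w = t)
    (hZ : ∀ M ∈ E, ∀ γ, Nat.card {y // Z M y ∧ g y = γ} ≤ ζ)
    (hF : ∀ M ∈ E, ∀ y, g y = g ((L ∘ M)^[t - 1] w) →
      (y = (L ∘ M)^[t - 1] w ∨ (¬ (rel L M).r w y ∧ ¬ Z M y)) →
      sw M ((L ∘ M)^[t - 1] w) y ∈ F) :
    E.card * (D - ζ - t + 1) ≤ F.card := by
  classical
  let Y : (X → X) → Finset X := fun M => Finset.univ.filter (fun y =>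
    g y = g ((L ∘ M)^[t - 1] w) ∧
      (y = (L ∘ M)^[t - 1] w ∨ (¬ (rel L M).r w y ∧ ¬ Z M y)))
  have hYcard : ∀ M ∈ E, D - ζ - t + 1 ≤ (Y M).card := by
    intro M hM
    obtain ⟨hadm, hper⟩ := hE M hM
    set x := (L ∘ M)^[t - 1] w with hx
    have hpos := period_pos hL (hadm.pm hc) w
    have h1 : (Finset.univ.filter (fun y => g y = g x)) ⊆
        Y M ∪ (Finset.univ.filter (fun y => (rel L M).r w y ∧ g y = g x)).erase x ∪
          (Finset.univ.filter (fun y => Z M y ∧ g y = g x)) := by
      intro y hy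
      simp only [Finset.mem_filter, Finset.mem_univ, true_and] at hy
      simp only [Y, Finset.mem_union, Finset.mem_filter, Finset.mem_univ, true_and,
        Finset.mem_erase]
      by_cases h1 : y = x
      · left; left; exact ⟨hy, Or.inl h1⟩
      by_cases h2 : (rel L M).r w y
      · left; right; exact ⟨h1, h2, hy⟩
      by_cases h3 : Z M y
      · right; exact ⟨h3, hy⟩
      · left; left; exact ⟨hy, Or.inr ⟨h2, h3⟩⟩
    have h2 := Finset.card_le_card h1
    have h3 := Finset.card_union_le (Y M ∪ (Finset.univ.filter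
        (fun y => (rel L M).r w y ∧ g y = g x)).erase x)
          (Finset.univ.filter (fun y => Z M y ∧ g y = g x))
    have h4 := Finset.card_union_le (Y M) ((Finset.univ.filter
        (fun y => (rel L M).r w y ∧ g y = g x)).erase x)
    have h5 := hD (g x)
    rw [Nat.card_eq_fintype_card, Fintype.card_subtype] at h5
    have h6 := hZ M hM (g x)
    rw [Nat.card_eq_fintype_card, Fintype.card_subtype] at h6
    have h7 := card_comp_group hc hL hadm w (g x)
    rw [Nat.card_eq_fintype_card, Fintype.card_subtype, hper] at h7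
    have h8 : ((Finset.univ.filter
        (fun y => (rel L M).r w y ∧ g y = g x)).erase x).card + 1 =
        (Finset.univ.filter (fun y => (rel L M).r w y ∧ g y = g x)).card := by
      apply Finset.card_erase_add_one
      simp only [Finset.mem_filter, Finset.mem_univ, true_and]
      exact ⟨rel_iterate L M _ w, trivial⟩
    have h9 : 0 < (Y M).card := by
      apply Finset.card_pos.2
      refine ⟨x, ?_⟩
      simp only [Y, Finset.mem_filter, Finset.mem_univ, true_and]
      exact ⟨congrArg g hx, Or.inl hx⟩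
    omega
  have h1 : E.card * (D - ζ - t + 1) ≤ ∑ M ∈ E, (Y M).card := by
    rw [← smul_eq_mul]
    exact Finset.card_nsmul_le_sum _ _ _ hYcard
  have h2 : ∑ M ∈ E, (Y M).card = (E.sigma Y).card := (Finset.card_sigma _ _).symm
  rw [h2] at h1
  refine le_trans h1 ?_
  refine Finset.card_le_card_of_injOn (fun q => sw q.1 ((L ∘ q.1)^[t - 1] w) q.2) ?_ ?_
  · rintro ⟨M, y⟩ hq
    simp only [Finset.coe_sigma, Set.mem_sigma_iff, Finset.mem_coe] at hq
    simp only [Y, Finset.mem_filter, Finset.mem_univ, true_and] at hq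
    exact hF M hq.1 y hq.2.1 hq.2.2
  · -- recovering x and y
    have hrec : ∀ M ∈ E, ∀ y ∈ Y M,
        (L ∘ (sw M ((L ∘ M)^[t - 1] w) y))^[t - 1] w = (L ∘ M)^[t - 1] w ∧
        sw M ((L ∘ M)^[t - 1] w) y (L w) = y := by
      intro M hM y hy
      obtain ⟨hadm, hper⟩ := hE M hM
      have hMpm := hadm.pm hc
      have hpos := period_pos hL hMpm w
      rw [hper] at hpos
      simp only [Y, Finset.mem_filter, Finset.mem_univ, true_and] at hy
      set x := (L ∘ M)^[t - 1] w with hx
      have hiter : ∀ r, r ≤ t - 1 → (L ∘ (sw M x y))^[r] w = (L ∘ M)^[r] w := by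
        intro r
        induction r with
        | zero => intro _; rfl
        | succ r ih =>
          intro hr
          rw [Function.iterate_succ_apply', Function.iterate_succ_apply', ih (by omega)]
          simp only [Function.comp_apply]
          congr 1
          have hzx : (L ∘ M)^[r] w ≠ x := by
            rw [hx]
            intro h
            have := (iterate_eq_iterate_iff_of_lt_minimalPeriod
              (by rw [hper]; omega) (by rw [hper]; omega)).1 h
            omega
          have hMx : M ((L ∘ M)^[r] w) ≠ x := iterate_ne_M hL hMpm _ _ w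
          apply sw_of_ne hzx
          · rcases hy.2 with h | h
            · rw [h]; exact hzx
            · intro h'
              apply h.1
              rw [← h']
              exact rel_iterate L M r w
          · exact hMx
          · rcases hy.2 with h | h
            · rw [h]; exact hMx
            · intro h'
              apply h.1
              rw [← h']
              exact rel_trans (rel_iterate L M r w) (rel_M L M _)
      refine ⟨hiter _ le_rfl, ?_⟩
      -- M x = L w
      have hMx : M x = L w := by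
        have h1 : (L ∘ M)^[t - 1 + 1] w = w := by
          rw [Nat.sub_add_cancel hpos]
          have := iterate_minimalPeriod (f := L ∘ M) (x := w)
          rwa [hper] at this
        rw [Function.iterate_succ_apply', Function.comp_apply, ← hx] at h1
        rw [← h1, hL.1]
      have hgMx : g (M x) ≠ g x := by
        rw [hadm.grp]; exact hc _
      have hyM : sw M x y y = M x := by
        apply sw_right (hMpm.2 x)
        intro h
        apply hgMx
        rw [h, hy.1]
      have hpm' : Adm g c (sw M x y) := hadm.sw hy.1.symm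
      rw [← hMx, ← hyM, hpm'.inv]
    rintro ⟨M, y⟩ hq ⟨M', y'⟩ hq' heq
    simp only [Finset.coe_sigma, Set.mem_sigma_iff, Finset.mem_coe] at hq hq'
    simp only at heq
    obtain ⟨a1, a2⟩ := hrec M hq.1 y hq.2
    obtain ⟨b1, b2⟩ := hrec M' hq'.1 y' hq'.2
    rw [heq] at a1 a2
    have hx : (L ∘ M)^[t - 1] w = (L ∘ M')^[t - 1] w := a1.symm.trans b1
    have hy : y = y' := a2.symm.trans b2
    subst hy
    have hMM : M = M' := by
      have h1 := congrArg (fun N => sw N ((L ∘ M)^[t - 1] w) y) heq
      simp only [sw_sw] at h1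
      rw [h1, hx, sw_sw]
    subst hMM
    rfl

/-- the set of all admissible matchings -/
noncomputable def Om (g : X → Γ) (c : Γ → Γ) : Finset (X → X) := by
  classical
  exact Finset.univ.filter (fun M => Adm g c M)

theorem mem_Om {g : X → Γ} {c : Γ → Γ} {M : X → X} : M ∈ Om g c ↔ Adm g c M := by
  classical
  simp [Om]

open Classical in
theorem single_eq {g : X → Γ} {c : Γ → Γ} (hc : ∀ γ, c γ ≠ γ) {D : ℕ}
    (hD : ∀ γ, Nat.card {x // g x = γ} = D) {L : X → X} (hL : PM L) (w : X) (t : ℕ) :
    ((Om g c).filter (fun M => minimalPeriod (L ∘ M) w = t)).card * (D - t + 1) ≤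
      (Om g c).card := by
  have h := switch_injection hc hD hL
    ((Om g c).filter (fun M => minimalPeriod (L ∘ M) w = t)) (Om g c) w t 0
    (fun _ _ => False) ?_ ?_ ?_
  · simpa using h
  · intro M hM
    rw [Finset.mem_filter, mem_Om] at hM
    exact hM
  · intro M _ γ
    simp
  · intro M hM y hy _
    rw [Finset.mem_filter, mem_Om] at hM
    rw [mem_Om]
    exact hM.1.sw hy.symm

theorem minimalPeriod_congr {f f' : X → X} {v : X} (h : ∀ r : ℕ, f'^[r] v = f^[r] v) :
    minimalPeriod f' v = minimalPeriod f v := by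
  rw [minimalPeriod_eq_minimalPeriod_iff]
  intro n
  unfold IsPeriodicPt IsFixedPt
  rw [h n]

open Classical in
theorem pair_eq {g : X → Γ} {c : Γ → Γ} (hc : ∀ γ, c γ ≠ γ) {D : ℕ}
    (hD : ∀ γ, Nat.card {x // g x = γ} = D) {L : X → X} (hL : PM L) (v w : X) (t t' : ℕ) :
    ((Om g c).filter (fun M => minimalPeriod (L ∘ M) v = t ∧ minimalPeriod (L ∘ M) w = t' ∧
      ¬ (rel L M).r v w)).card * (D - t - t' + 1) ≤
      ((Om g c).filter (fun M => minimalPeriod (L ∘ M) v = t)).card := by
  refine switch_injection hc hD hL _ _ w t' t (fun M y => (rel L M).r v y) ?_ ?_ ?_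
  · intro M hM
    rw [Finset.mem_filter, mem_Om] at hM
    exact ⟨hM.1, hM.2.2.1⟩
  · intro M hM γ
    rw [Finset.mem_filter, mem_Om] at hM
    have := card_comp_group hc hL hM.1 v γ
    rwa [hM.2.1] at this
  · intro M hM y hy hy2
    rw [Finset.mem_filter, mem_Om] at hM
    obtain ⟨hadm, hv, hw, hvw⟩ := hM
    rw [Finset.mem_filter, mem_Om]
    refine ⟨hadm.sw hy.symm, ?_⟩
    rw [← hv]
    set x := (L ∘ M)^[t' - 1] w with hx
    have hwx : (rel L M).r w x := rel_iterate L M _ w
    have hvx : ¬ (rel L M).r v x := fun h => hvw (rel_trans h (rel_symm hwx))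
    have hvy : ¬ (rel L M).r v y := by
      rcases hy2 with h | h
      · rw [h]; exact hvx
      · exact h.2
    apply minimalPeriod_congr
    intro r
    induction r with
    | zero => rfl
    | succ r ih =>
      rw [Function.iterate_succ_apply', Function.iterate_succ_apply', ih]
      simp only [Function.comp_apply]
      congr 1
      have hrel := rel_iterate L M r v
      apply sw_of_ne
      · intro h; exact hvx (h ▸ hrel)
      · intro h; exact hvy (h ▸ hrel)
      · intro h
        apply hvx
        rw [← h]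
        exact rel_trans hrel (rel_M L M _)
      · intro h
        apply hvy
        rw [← h]
        exact rel_trans hrel (rel_M L M _)

open Classical in
theorem single_le {g : X → Γ} {c : Γ → Γ} (hc : ∀ γ, c γ ≠ γ) {D : ℕ}
    (hD : ∀ γ, Nat.card {x // g x = γ} = D) {L : X → X} (hL : PM L) (w : X) (T : ℕ) :
    ((Om g c).filter (fun M => minimalPeriod (L ∘ M) w ≤ T)).card * (D - T) ≤
      T * (Om g c).card := by
  have hsub : (Om g c).filter (fun M => minimalPeriod (L ∘ M) w ≤ T) ⊆
      (Finset.Icc 1 T).biUnion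
        (fun t => (Om g c).filter (fun M => minimalPeriod (L ∘ M) w = t)) := by
    intro M hM
    rw [Finset.mem_filter, mem_Om] at hM
    rw [Finset.mem_biUnion]
    refine ⟨minimalPeriod (L ∘ M) w, ?_, ?_⟩
    · rw [Finset.mem_Icc]
      exact ⟨period_pos hL (hM.1.pm hc) w, hM.2⟩
    · rw [Finset.mem_filter, mem_Om]
      exact ⟨hM.1, rfl⟩
  have h1 := le_trans (Finset.card_le_card hsub) Finset.card_biUnion_le
  calc _ ≤ (∑ t ∈ Finset.Icc 1 T,
        ((Om g c).filter (fun M => minimalPeriod (L ∘ M) w = t)).card) * (D - T) :=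
        Nat.mul_le_mul_right _ h1
    _ = ∑ t ∈ Finset.Icc 1 T,
        ((Om g c).filter (fun M => minimalPeriod (L ∘ M) w = t)).card * (D - T) := by
        rw [Finset.sum_mul]
    _ ≤ ∑ _t ∈ Finset.Icc 1 T, (Om g c).card := by
        apply Finset.sum_le_sum
        intro t ht
        rw [Finset.mem_Icc] at ht
        refine le_trans (Nat.mul_le_mul_left _ ?_) (single_eq hc hD hL w t)
        omega
    _ = T * (Om g c).card := by
        rw [Finset.sum_const, Nat.card_Icc, smul_eq_mul]
        simp

open Classical in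
theorem pair_le {g : X → Γ} {c : Γ → Γ} (hc : ∀ γ, c γ ≠ γ) {D : ℕ}
    (hD : ∀ γ, Nat.card {x // g x = γ} = D) {L : X → X} (hL : PM L) (v w : X) (T : ℕ) :
    ((Om g c).filter (fun M => minimalPeriod (L ∘ M) v ≤ T ∧ minimalPeriod (L ∘ M) w ≤ T ∧
      ¬ (rel L M).r v w)).card * ((D - T) * (D - 2 * T)) ≤ T * T * (Om g c).card := by
  have hsub : (Om g c).filter (fun M => minimalPeriod (L ∘ M) v ≤ T ∧
      minimalPeriod (L ∘ M) w ≤ T ∧ ¬ (rel L M).r v w) ⊆
      ((Finset.Icc 1 T) ×ˢ (Finset.Icc 1 T)).biUnion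
        (fun q => (Om g c).filter (fun M => minimalPeriod (L ∘ M) v = q.1 ∧
          minimalPeriod (L ∘ M) w = q.2 ∧ ¬ (rel L M).r v w)) := by
    intro M hM
    rw [Finset.mem_filter, mem_Om] at hM
    rw [Finset.mem_biUnion]
    refine ⟨(minimalPeriod (L ∘ M) v, minimalPeriod (L ∘ M) w), ?_, ?_⟩
    · rw [Finset.mem_product, Finset.mem_Icc, Finset.mem_Icc]
      exact ⟨⟨period_pos hL (hM.1.pm hc) v, hM.2.1⟩, ⟨period_pos hL (hM.1.pm hc) w, hM.2.2.1⟩⟩
    · rw [Finset.mem_filter, mem_Om]
      exact ⟨hM.1, rfl, rfl, hM.2.2.2⟩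
  have h1 := le_trans (Finset.card_le_card hsub) Finset.card_biUnion_le
  calc _ ≤ (∑ q ∈ (Finset.Icc 1 T) ×ˢ (Finset.Icc 1 T),
        ((Om g c).filter (fun M => minimalPeriod (L ∘ M) v = q.1 ∧
          minimalPeriod (L ∘ M) w = q.2 ∧ ¬ (rel L M).r v w)).card) *
            ((D - T) * (D - 2 * T)) :=
        Nat.mul_le_mul_right _ h1
    _ = ∑ q ∈ (Finset.Icc 1 T) ×ˢ (Finset.Icc 1 T),
        ((Om g c).filter (fun M => minimalPeriod (L ∘ M) v = q.1 ∧
          minimalPeriod (L ∘ M) w = q.2 ∧ ¬ (rel L M).r v w)).card *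
            ((D - T) * (D - 2 * T)) := by
        rw [Finset.sum_mul]
    _ ≤ ∑ _q ∈ (Finset.Icc 1 T) ×ˢ (Finset.Icc 1 T), (Om g c).card := by
        apply Finset.sum_le_sum
        intro q hq
        rw [Finset.mem_product, Finset.mem_Icc, Finset.mem_Icc] at hq
        have e1 := pair_eq hc hD hL v w q.1 q.2
        have e2 := single_eq hc hD hL v q.1
        calc _ = (((Om g c).filter (fun M => minimalPeriod (L ∘ M) v = q.1 ∧
          minimalPeriod (L ∘ M) w = q.2 ∧ ¬ (rel L M).r v w)).card * (D - 2 * T)) * (D - T) := by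
              ring
          _ ≤ (((Om g c).filter (fun M => minimalPeriod (L ∘ M) v = q.1 ∧
          minimalPeriod (L ∘ M) w = q.2 ∧ ¬ (rel L M).r v w)).card *
              (D - q.1 - q.2 + 1)) * (D - T) := by
              apply Nat.mul_le_mul_right
              apply Nat.mul_le_mul_left
              omega
          _ ≤ ((Om g c).filter (fun M => minimalPeriod (L ∘ M) v = q.1)).card * (D - T) :=
              Nat.mul_le_mul_right _ e1
          _ ≤ ((Om g c).filter (fun M => minimalPeriod (L ∘ M) v = q.1)).card *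
              (D - q.1 + 1) := by
              apply Nat.mul_le_mul_left
              omega
          _ ≤ _ := e2
    _ = T * T * (Om g c).card := by
        rw [Finset.sum_const, Finset.card_product, Nat.card_Icc, smul_eq_mul]
        simp

end Adm

end Pool.Agent.Lib.MP_fe131b_co
end

section

/-!
The merging lemma: a perfect matching `M` whose union with `L` has few components can be repaired,
by switches along free rook pairs, into a matching whose union with `L` is connected.
-/

namespace Pool.Agent.Lib.MP_fe131b_co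

open Finset

section

variable {V K : Type*} [Fintype V] [DecidableEq V] [AddCommGroup K]

/-- rook pairs: the layers share a coordinate -/
def Rook (l : V → K × K) (x y : V) : Prop := (l x).1 = (l y).1 ∨ (l x).2 = (l y).2

theorem Rook.symm {l : V → K × K} {x y : V} (h : Rook l x y) : Rook l y x := by
  rcases h with h | h
  · exact Or.inl h.symm
  · exact Or.inr h.symm

/-- the state of the repair of one colour -/
structure State (L M : V → V) (O : Finset V) (Fr : V → V → Prop) (σ : ℕ) (N : V → V) :
    Prop where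
  pm : PM N
  free : ∀ x, N x = M x ∨ Fr x (N x)
  count : Nat.card {x // N x ≠ M x} + 4 * ncomp L N ≤ 4 * ncomp L M
  tiny : ∀ x ∈ O, N x ≠ M x → Nat.card {y // (rel L M).r x y} ≤ 2 * σ
  le : ∀ x y, (rel L M).r x y → (rel L N).r x y

theorem State.step {L M : V → V} (hL : PM L) {O : Finset V} {Fr : V → V → Prop}
    (hFr : ∀ x y, Fr x y → Fr y x) {σ : ℕ} {N : V → V} (hN : State L M O Fr σ N) {c d : V}
    (hcd : ¬ (rel L N).r c d) (h1 : Fr c (N d)) (h2 : Fr d (N c))
    (ht : ∀ x ∈ O, (x = c ∨ x = d ∨ x = N c ∨ x = N d) →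
      Nat.card {y // (rel L M).r x y} ≤ 2 * σ) :
    State L M O Fr σ (sw N c d) ∧ ncomp L (sw N c d) < ncomp L N := by
  classical
  have hdc : N d ≠ c := by
    rintro rfl
    exact hcd (rel_symm (rel_M L N d))
  have hcd' : N c ≠ d := by
    rintro rfl
    exact hcd (rel_M L N c)
  have e1 : sw N c d c = N d := sw_left hdc (hN.pm.2 d)
  have e2 : sw N c d d = N c := sw_right (hN.pm.2 c) hcd'
  have hpm' : PM (sw N c d) := sw_PM hN.pm c d
  have e3 : sw N c d (N d) = c := by rw [← e1, hpm'.1]
  have e4 : sw N c d (N c) = d := by rw [← e2, hpm'.1]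
  have e5 : ∀ x, x ≠ c → x ≠ d → x ≠ N c → x ≠ N d → sw N c d x = N x := by
    intro x h1 h2 h3 h4
    apply sw_of_ne h1 h2
    · intro h; apply h3; rw [← h, hN.pm.1]
    · intro h; apply h4; rw [← h, hN.pm.1]
  have hlt : ncomp L (sw N c d) < ncomp L N :=
    ncomp_lt_of_merge (fun x y h => sw_rel_le hL hN.pm hcd h) hcd (sw_rel_merge hL hN.pm hcd)
  refine ⟨⟨hpm', ?_, ?_, ?_, ?_⟩, hlt⟩
  · intro x
    by_cases hx1 : x = c
    · subst hx1; right; rw [e1]; exact h1
    by_cases hx2 : x = d
    · subst hx2; right; rw [e2]; exact h2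
    by_cases hx3 : x = N c
    · subst hx3; right; rw [e4]; exact hFr _ _ h2
    by_cases hx4 : x = N d
    · subst hx4; right; rw [e3]; exact hFr _ _ h1
    rw [e5 x hx1 hx2 hx3 hx4]
    exact hN.free x
  · have hsub : (Finset.univ.filter (fun x => sw N c d x ≠ M x)) ⊆
        (Finset.univ.filter (fun x => N x ≠ M x)) ∪ {c, d, N c, N d} := by
      intro x hx
      simp only [Finset.mem_filter, Finset.mem_univ, true_and] at hx
      simp only [Finset.mem_union, Finset.mem_filter, Finset.mem_univ, true_and,
        Finset.mem_insert, Finset.mem_singleton]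
      by_cases hx1 : x = c
      · right; left; exact hx1
      by_cases hx2 : x = d
      · right; right; left; exact hx2
      by_cases hx3 : x = N c
      · right; right; right; left; exact hx3
      by_cases hx4 : x = N d
      · right; right; right; right; exact hx4
      left
      rwa [e5 x hx1 hx2 hx3 hx4] at hx
    have hcard := Finset.card_le_card hsub
    have h4 : ({c, d, N c, N d} : Finset V).card ≤ 4 := Finset.card_le_four
    have hu := Finset.card_union_le (Finset.univ.filter (fun x => N x ≠ M x)) {c, d, N c, N d}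
    have hc := hN.count
    rw [Nat.card_eq_fintype_card, Fintype.card_subtype] at hc ⊢
    omega
  · intro x hxO hx
    by_cases hx' : x = c ∨ x = d ∨ x = N c ∨ x = N d
    · exact ht x hxO hx'
    · push Not at hx'
      rw [e5 x hx'.1 hx'.2.1 hx'.2.2.1 hx'.2.2.2] at hx
      exact hN.tiny x hxO hx
  · intro x y h
    exact sw_rel_le hL hN.pm hcd (hN.le x y h)

/-- finding a partner for a switch -/
theorem exists_partner {l : V → K × K} {s : K × K} {N : V → V} (hN : PM N)
    {Fr : V → V → Prop} {β : ℕ}
    (hβ : ∀ x, Nat.card {y // y ≠ x ∧ Rook l x y ∧ ¬ Fr x y} ≤ β)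
    (y : V) (μ : K × K) (h1 : (l y).1 = μ.1 ∨ (l y).2 = μ.2)
    (h2 : (l (N y)).1 = (μ + s).1 ∨ (l (N y)).2 = (μ + s).2)
    (B : Finset V) (hB : ∀ b ∈ B, l b = μ ∧ l (N b) = l b + s) (hcard : 2 * β + 2 < B.card) :
    ∃ b ∈ B, b ≠ y ∧ b ≠ N y ∧ Fr y b ∧ Fr (N y) (N b) := by
  classical
  by_contra hcon
  push Not at hcon
  have hsub : B ⊆ {y, N y} ∪ (Finset.univ.filter (fun b => b ≠ y ∧ Rook l y b ∧ ¬ Fr y b)) ∪
      (Finset.univ.filter (fun b => N b ≠ N y ∧ Rook l (N y) (N b) ∧ ¬ Fr (N y) (N b))) := by
    intro b hb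
    simp only [Finset.mem_union, Finset.mem_insert, Finset.mem_singleton, Finset.mem_filter,
      Finset.mem_univ, true_and]
    by_cases hb1 : b = y
    · left; left; left; exact hb1
    by_cases hb2 : b = N y
    · left; left; right; exact hb2
    by_cases hb3 : Fr y b
    · right
      refine ⟨?_, ?_, hcon b hb hb1 hb2 hb3⟩
      · intro h
        apply hb1
        rw [← hN.1 b, h, hN.1]
      · unfold Rook
        rw [(hB b hb).2, (hB b hb).1]
        exact h2
    · left; right
      refine ⟨hb1, ?_, hb3⟩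
      unfold Rook
      rw [(hB b hb).1]
      exact h1
  have hc := Finset.card_le_card hsub
  have hu1 := Finset.card_union_le ({y, N y} ∪ (Finset.univ.filter
    (fun b => b ≠ y ∧ Rook l y b ∧ ¬ Fr y b))) (Finset.univ.filter
    (fun b => N b ≠ N y ∧ Rook l (N y) (N b) ∧ ¬ Fr (N y) (N b)))
  have hu2 := Finset.card_union_le ({y, N y} : Finset V) (Finset.univ.filter
    (fun b => b ≠ y ∧ Rook l y b ∧ ¬ Fr y b))
  have h3 : ({y, N y} : Finset V).card ≤ 2 := Finset.card_le_two
  have h4 : (Finset.univ.filter (fun b => b ≠ y ∧ Rook l y b ∧ ¬ Fr y b)).card ≤ β := by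
    have := hβ y
    rwa [Nat.card_eq_fintype_card, Fintype.card_subtype] at this
  have h5 : (Finset.univ.filter
      (fun b => N b ≠ N y ∧ Rook l (N y) (N b) ∧ ¬ Fr (N y) (N b))).card ≤ β := by
    have := hβ (N y)
    rw [Nat.card_eq_fintype_card, Fintype.card_subtype] at this
    refine le_trans (Finset.card_le_card_of_injOn N ?_ ?_) this
    · intro b hb
      simpa using hb
    · intro b _ b' _ h
      have := congrArg N h
      rwa [hN.1, hN.1] at this
  omega

/-- **Merging lemma.** -/
theorem merging (l : V → K × K) (s : K × K) (L M : V → V) (hL : PM L) (hM : PM M)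
    (O : Finset V) (Fr : V → V → Prop) (hFr : ∀ x y, Fr x y → Fr y x)
    (σ β e C n1 : ℕ) (hO : O.card ≤ σ)
    (hβ : ∀ x, Nat.card {y // y ≠ x ∧ Rook l x y ∧ ¬ Fr x y} ≤ β)
    (he : Nat.card {x // l (M x) ≠ l x + s} ≤ e)
    (hn1 : ∀ μ, n1 ≤ Nat.card {x // l x = μ})
    (hC : ncomp L M ≤ C)
    (hbig : 4 * C + 2 * σ + e + 4 * β + 4 < n1)
    (hn : 2 * (4 * C + 2 * σ + e) < Fintype.card V) :
    ∃ M' : V → V, PM M' ∧ Connected L M' ∧ (∀ x, M' x = M x ∨ Fr x (M' x)) ∧
      Nat.card {x // M' x ≠ M x} ≤ 4 * C ∧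
      (∀ x ∈ O, M' x ≠ M x → Nat.card {y // (rel L M).r x y} ≤ 2 * σ) := by
  classical
  -- choose a state with the fewest components
  have hex : ∃ m, ∃ N : V → V, State L M O Fr σ N ∧ ncomp L N = m := by
    refine ⟨_, M, ⟨hM, fun x => Or.inl rfl, ?_, ?_, fun x y h => h⟩, rfl⟩
    · simp
    · intro x _ h
      exact absurd rfl h
  obtain ⟨N, hN, hNm⟩ := Nat.find_spec hex
  have hmin : ∀ N' : V → V, State L M O Fr σ N' → ncomp L N ≤ ncomp L N' := by
    intro N' hN'
    rw [hNm]
    exact Nat.find_min' hex ⟨N', hN', rfl⟩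
  have hnosw : ∀ c d, ¬ (rel L N).r c d → Fr c (N d) → Fr d (N c) →
      (∀ x ∈ O, (x = c ∨ x = d ∨ x = N c ∨ x = N d) →
      Nat.card {y // (rel L M).r x y} ≤ 2 * σ) → False := by
    intro c d h1 h2 h3 h4
    obtain ⟨h5, h6⟩ := hN.step hL hFr h1 h2 h3 h4
    exact absurd (hmin _ h5) (not_le.2 h6)
  have hCount : Nat.card {x // N x ≠ M x} ≤ 4 * C := by
    have := hN.count
    omega
  refine ⟨N, hN.pm, ?_, hN.free, hCount, hN.tiny⟩
  by_contra hnc
  -- clean vertices
  let Clean : Finset V := Finset.univ.filter (fun b => N b = M b ∧ b ∉ O ∧ N b ∉ O ∧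
    l (M b) = l b + s)
  have hClean : ∀ b, b ∈ Clean ↔ (N b = M b ∧ b ∉ O ∧ N b ∉ O ∧ l (M b) = l b + s) := by
    intro b; simp [Clean]
  have hCleanN : ∀ b ∈ Clean, l (N b) = l b + s := by
    intro b hb
    obtain ⟨h1, _, _, h4⟩ := (hClean b).1 hb
    rw [h1, h4]
  have hunclean : (Finset.univ \ Clean).card ≤ 4 * C + 2 * σ + e := by
    have hsub : Finset.univ \ Clean ⊆ (Finset.univ.filter (fun x => N x ≠ M x)) ∪ O ∪
        (Finset.univ.filter (fun x => N x ∈ O)) ∪
        (Finset.univ.filter (fun x => l (M x) ≠ l x + s)) := by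
      intro b hb
      rw [Finset.mem_sdiff, hClean] at hb
      simp only [Finset.mem_union, Finset.mem_filter, Finset.mem_univ, true_and]
      have hb2 := hb.2
      by_contra hcon
      push Not at hcon
      exact hb2 ⟨hcon.1.1.1, hcon.1.1.2, hcon.1.2, hcon.2⟩
    have h1 := Finset.card_le_card hsub
    have h2 := Finset.card_union_le ((Finset.univ.filter (fun x => N x ≠ M x)) ∪ O ∪
        (Finset.univ.filter (fun x => N x ∈ O)))
        (Finset.univ.filter (fun x => l (M x) ≠ l x + s))
    have h3 := Finset.card_union_le ((Finset.univ.filter (fun x => N x ≠ M x)) ∪ O)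
        (Finset.univ.filter (fun x => N x ∈ O))
    have h4 := Finset.card_union_le (Finset.univ.filter (fun x => N x ≠ M x)) O
    have h5 : (Finset.univ.filter (fun x => N x ∈ O)).card ≤ O.card := by
      refine Finset.card_le_card_of_injOn N ?_ ?_
      · intro b hb; simpa using hb
      · intro b _ b' _ h
        have := congrArg N h
        rwa [hN.pm.1, hN.pm.1] at this
    rw [Nat.card_eq_fintype_card, Fintype.card_subtype] at he hCount
    omega
  have hcardClean : Fintype.card V ≤ Clean.card + (4 * C + 2 * σ + e) := by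
    have h1 := Finset.card_sdiff_add_card_eq_card (Finset.subset_univ Clean)
    rw [Finset.card_univ] at h1
    omega
  have hlayer : ∀ μ, n1 ≤ (Clean.filter (fun b => l b = μ)).card + (4 * C + 2 * σ + e) := by
    intro μ
    have h1 := hn1 μ
    rw [Nat.card_eq_fintype_card, Fintype.card_subtype] at h1
    have hsub : (Finset.univ.filter (fun x => l x = μ)) ⊆
        (Clean.filter (fun b => l b = μ)) ∪ (Finset.univ \ Clean) := by
      intro b hb
      simp only [Finset.mem_filter, Finset.mem_univ, true_and] at hb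
      simp only [Finset.mem_union, Finset.mem_filter, Finset.mem_sdiff, Finset.mem_univ, true_and]
      by_cases hb' : b ∈ Clean
      · left; exact ⟨hb', hb⟩
      · right; exact hb'
    have h2 := Finset.card_le_card hsub
    have h3 := Finset.card_union_le (Clean.filter (fun b => l b = μ)) (Finset.univ \ Clean)
    omega
  -- the smallest component
  have hne : (Finset.univ : Finset V).Nonempty := by
    rw [← Finset.card_pos, Finset.card_univ]
    omega
  let sz : V → ℕ := fun x => (Finset.univ.filter (fun y => (rel L N).r x y)).card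
  obtain ⟨x0, -, hx0⟩ := Finset.exists_min_image Finset.univ sz hne
  let A : Finset V := Finset.univ.filter (fun y => (rel L N).r x0 y)
  have hA : ∀ y, y ∈ A ↔ (rel L N).r x0 y := by intro y; simp [A]
  obtain ⟨y0, hy0⟩ : ∃ y0, y0 ∉ A := by
    by_contra hcon
    push Not at hcon
    apply hnc
    intro x y
    exact rel_trans (rel_symm ((hA x).1 (hcon x))) ((hA y).1 (hcon y))
  have hAcard : 2 * A.card ≤ Fintype.card V := by
    have h1 : A.card ≤ sz y0 := hx0 y0 (Finset.mem_univ _)
    have hdisj : Disjoint A (Finset.univ.filter (fun y => (rel L N).r y0 y)) := by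
      rw [Finset.disjoint_left]
      intro z hz hz'
      simp only [Finset.mem_filter, Finset.mem_univ, true_and] at hz'
      exact hy0 ((hA y0).2 (rel_trans ((hA z).1 hz) (rel_symm hz')))
    have h2 := Finset.card_union_of_disjoint hdisj
    have h3 := Finset.card_le_univ (A ∪ (Finset.univ.filter (fun y => (rel L N).r y0 y)))
    have h4 : sz y0 = (Finset.univ.filter (fun y => (rel L N).r y0 y)).card := rfl
    omega
  have hAN : ∀ y, y ∈ A → N y ∈ A := by
    intro y hy
    rw [hA] at hy ⊢
    exact rel_trans hy (rel_M L N y)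
  have hArel : ∀ x ∈ A, ∀ y, y ∉ A → ¬ (rel L N).r x y := by
    intro x hx y hy h
    exact hy ((hA y).2 (rel_trans ((hA x).1 hx) h))
  -- the node on the side of A
  obtain ⟨u, huA, hu⟩ : ∃ u ∈ A, (u ∉ O ∧ N u ∉ O) ∨ (∀ x ∈ A, x ∈ O ∨ N x ∈ O) := by
    by_cases h : ∃ u ∈ A, u ∉ O ∧ N u ∉ O
    · obtain ⟨u, hu1, hu2⟩ := h
      exact ⟨u, hu1, Or.inl hu2⟩
    · push Not at h
      refine ⟨x0, (hA x0).2 (rel_refl _ _ _), Or.inr ?_⟩
      intro x hx
      by_cases hxO : x ∈ O
      · exact Or.inl hxO
      · exact Or.inr (h x hx hxO)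
  have htiny : ∀ x ∈ A, x ∈ O → (∀ x ∈ A, x ∈ O ∨ N x ∈ O) →
      Nat.card {y // (rel L M).r x y} ≤ 2 * σ := by
    intro x hx _ hall
    have h1 : (Finset.univ.filter (fun y => (rel L M).r x y)) ⊆ A := by
      intro y hy
      simp only [Finset.mem_filter, Finset.mem_univ, true_and] at hy
      rw [hA]
      exact rel_trans ((hA x).1 hx) (hN.le x y hy)
    have h2 : A ⊆ O ∪ (Finset.univ.filter (fun x => N x ∈ O)) := by
      intro y hy
      simp only [Finset.mem_union, Finset.mem_filter, Finset.mem_univ, true_and]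
      exact hall y hy
    have h5 : (Finset.univ.filter (fun x => N x ∈ O)).card ≤ O.card := by
      refine Finset.card_le_card_of_injOn N ?_ ?_
      · intro b hb; simpa using hb
      · intro b _ b' _ h
        have := congrArg N h
        rwa [hN.pm.1, hN.pm.1] at this
    have h3 := Finset.card_le_card h1
    have h4 := Finset.card_le_card h2
    have h6 := Finset.card_union_le O (Finset.univ.filter (fun x => N x ∈ O))
    rw [Nat.card_eq_fintype_card, Fintype.card_subtype]
    omega
  -- any clean vertex outside A has no partner in A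
  have hspread : ∀ μ ν : K × K, (ν.1 = μ.1 ∨ ν.2 = μ.2) →
      2 * β + 2 < ((Clean.filter (fun b => l b = μ)).filter (fun b => b ∈ A)).card →
      ∀ y ∈ Clean, l y = ν → y ∈ A := by
    intro μ ν hμν hcard y hy hly
    by_contra hyA
    have hly2 := hCleanN y hy
    obtain ⟨b, hb, _, _, hb3, hb4⟩ := exists_partner (l := l) (s := s) hN.pm hβ y μ
      (by rw [hly]; exact hμν)
      (by
        rw [hly2, hly]
        rcases hμν with h | h
        · left; simp [h]
        · right; simp [h])
      _ (by
        intro b hb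
        simp only [Finset.mem_filter] at hb
        exact ⟨hb.1.2, hCleanN b hb.1.1⟩) hcard
    simp only [Finset.mem_filter] at hb
    have hbc := (hClean b).1 hb.1.1
    have hyc := (hClean y).1 hy
    refine hnosw y (N b) ?_ ?_ ?_ ?_
    · intro h
      exact hArel (N b) (hAN b hb.2) y hyA (rel_symm h)
    · rw [hN.pm.1]; exact hb3
    · exact hFr _ _ hb4
    · intro x hxO hx
      exfalso
      rcases hx with rfl | rfl | rfl | rfl
      · exact hyc.2.1 hxO
      · exact hbc.2.2.1 hxO
      · exact hyc.2.2.1 hxO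
      · rw [hN.pm.1] at hxO; exact hbc.2.1 hxO
  -- the layer adjacent to the node u
  let μ : K × K := ((l u).1, (l (N u)).2 - s.2)
  have hB0 := hlayer μ
  have hB2 : ((Clean.filter (fun b => l b = μ)).filter (fun b => b ∉ A)).card ≤ 2 * β + 2 := by
    by_contra hcon
    push Not at hcon
    obtain ⟨b, hb, _, _, hb3, hb4⟩ := exists_partner (l := l) (s := s) hN.pm hβ u μ
      (Or.inl rfl)
      (by right; simp [μ])
      _ (by
        intro b hb
        simp only [Finset.mem_filter] at hb
        exact ⟨hb.1.2, hCleanN b hb.1.1⟩) hcon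
    simp only [Finset.mem_filter] at hb
    have hbc := (hClean b).1 hb.1.1
    have hNbA : N b ∉ A := by
      intro h
      apply hb.2
      have := hAN _ h
      rwa [hN.pm.1] at this
    refine hnosw u (N b) ?_ ?_ ?_ ?_
    · exact hArel u huA (N b) hNbA
    · rw [hN.pm.1]; exact hb3
    · exact hFr _ _ hb4
    · intro x hxO hx
      rcases hx with rfl | rfl | rfl | rfl
      · rcases hu with hu | hu
        · exact absurd hxO hu.1
        · exact htiny _ huA hxO hu
      · exact absurd hxO hbc.2.2.1
      · rcases hu with hu | hu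
        · exact absurd hxO hu.2
        · exact htiny _ (hAN _ huA) hxO hu
      · rw [hN.pm.1] at hxO
        exact absurd hxO hbc.2.1
  have hsplit : ∀ ν, ((Clean.filter (fun b => l b = ν)).filter (fun b => b ∈ A)).card +
      ((Clean.filter (fun b => l b = ν)).filter (fun b => b ∉ A)).card =
      (Clean.filter (fun b => l b = ν)).card := by
    intro ν
    exact Finset.card_filter_add_card_filter_not (fun b => b ∈ A)
  have hB1 : 2 * β + 2 < ((Clean.filter (fun b => l b = μ)).filter (fun b => b ∈ A)).card := by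
    have := hsplit μ
    omega
  have hall : ∀ y ∈ Clean, y ∈ A := by
    intro y hy
    -- the middle layer
    have hmid : ∀ z ∈ Clean, l z = (μ.1, (l y).2) → z ∈ A :=
      hspread μ (μ.1, (l y).2) (Or.inl rfl) hB1
    have hmidcard : 2 * β + 2 <
        ((Clean.filter (fun b => l b = (μ.1, (l y).2))).filter (fun b => b ∈ A)).card := by
      have h1 := hlayer (μ.1, (l y).2)
      have h2 : (Clean.filter (fun b => l b = (μ.1, (l y).2))).filter (fun b => b ∈ A) =
          Clean.filter (fun b => l b = (μ.1, (l y).2)) := by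
        apply Finset.filter_true_of_mem
        intro z hz
        rw [Finset.mem_filter] at hz
        exact hmid z hz.1 hz.2
      rw [h2]
      omega
    exact hspread (μ.1, (l y).2) (l y) (Or.inr rfl) hmidcard y hy rfl
  have hle : Clean.card ≤ A.card := Finset.card_le_card hall
  omega

end

end Pool.Agent.Lib.MP_fe131b_co
end
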