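import Pool.Agent.Lib.MP_fe131b_co.Merging

section

/-!
The repair of all colours, one after the other.
-/

namespace Pool.Agent.Lib.MP_fe131b_co

open Finset

section

variable {V K ι : Type*} [Fintype V] [DecidableEq V] [AddCommGroup K] [Fintype ι] [DecidableEq ι]

/-- pairwise disjoint families of matchings -/
def Disj (M : ι → V → V) : Prop := ∀ i j, i ≠ j → ∀ x, M i x ≠ M j x

/-- `x` lies in a component with at most `2σ` points -/
def Tiny (L M : V → V) (σ : ℕ) (x : V) : Prop := Nat.card {y // (rel L M).r x y} ≤ 2 * σ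

structure RInv (l : V → K × K) (L M0 : ι → V → V) (C σ θ : ℕ) (P : Finset ι)
    (M : ι → V → V) : Prop where
  pm : ∀ i, PM (M i)
  disj : Disj M
  out : ∀ i, i ∉ P → M i = M0 i
  conn : ∀ i ∈ P, Connected (L i) (M i)
  few : ∀ i ∈ P, Nat.card {x // M i x ≠ M0 i x} ≤ 4 * C
  rook : ∀ i ∈ P, ∀ x, M i x ≠ M0 i x → Rook l x (M i x)
  load : ∀ x, Nat.card {i // i ∈ P ∧ M i x ≠ M0 i x} ≤
    θ + Nat.card {i // i ∈ P ∧ Tiny (L i) (M0 i) σ x}

theorem repair (l : V → K × K) (s : ι → K × K) (L M0 : ι → V → V) (hL : ∀ i, PM (L i))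
    (hM0 : ∀ i, PM (M0 i)) (hdisj : Disj M0) (σ e C n1 θ : ℕ) (hθ : 0 < θ)
    (he1 : ∀ x, Nat.card {i // Rook l x (M0 i x)} ≤ e)
    (he2 : ∀ i, Nat.card {x // l (M0 i x) ≠ l x + s i} ≤ e)
    (hn1 : ∀ μ, n1 ≤ Nat.card {x // l x = μ})
    (hC : ∀ i, ncomp (L i) (M0 i) ≤ C)
    (hT : ∀ x, Nat.card {i // Tiny (L i) (M0 i) σ x} ≤ θ)
    (hσ : Fintype.card ι * (4 * C) ≤ σ * θ)
    (hbig : 4 * C + 2 * σ + e + 4 * (2 * θ + e) + 4 < n1)
    (hn : 2 * (4 * C + 2 * σ + e) < Fintype.card V) :
    ∃ M : ι → V → V, (∀ i, PM (M i)) ∧ Disj M ∧ ∀ i, Connected (L i) (M i) := by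
  classical
  have key : ∀ P : Finset ι, ∃ M, RInv l L M0 C σ θ P M := by
    intro P
    induction P using Finset.induction_on with
    | empty =>
      refine ⟨M0, hM0, hdisj, fun i _ => rfl, ?_, ?_, ?_, ?_⟩
      · intro i hi; simp at hi
      · intro i hi; simp at hi
      · intro i hi; simp at hi
      · intro x; simp
    | insert i P hi ih =>
      obtain ⟨M, hM⟩ := ih
      let O : Finset V := Finset.univ.filter
        (fun x => θ ≤ (P.filter (fun i => M i x ≠ M0 i x)).card)
      have hloadeq : ∀ x, Nat.card {i // i ∈ P ∧ M i x ≠ M0 i x} =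
          (P.filter (fun i => M i x ≠ M0 i x)).card := by
        intro x
        rw [Nat.card_eq_fintype_card, Fintype.card_subtype]
        congr 1
        ext j
        simp
      have hOcard : O.card ≤ σ := by
        have h1 : O.card * θ ≤ ∑ x ∈ O, (P.filter (fun i => M i x ≠ M0 i x)).card := by
          rw [← smul_eq_mul]
          apply Finset.card_nsmul_le_sum
          intro x hx
          simpa [O] using hx
        have h2 : ∑ x ∈ O, (P.filter (fun i => M i x ≠ M0 i x)).card ≤
            ∑ x : V, (P.filter (fun i => M i x ≠ M0 i x)).card :=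
          Finset.sum_le_sum_of_subset (Finset.subset_univ _)
        have h3 : ∑ x : V, (P.filter (fun i => M i x ≠ M0 i x)).card =
            ∑ j ∈ P, (Finset.univ.filter (fun x => M j x ≠ M0 j x)).card := by
          simp only [Finset.card_filter]
          rw [Finset.sum_comm]
        have h4 : ∑ j ∈ P, (Finset.univ.filter (fun x => M j x ≠ M0 j x)).card ≤
            P.card * (4 * C) := by
          rw [← smul_eq_mul]
          apply Finset.sum_le_card_nsmul
          intro j hj
          have := hM.few j hj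
          rwa [Nat.card_eq_fintype_card, Fintype.card_subtype] at this
        have h5 : P.card * (4 * C) ≤ Fintype.card ι * (4 * C) :=
          Nat.mul_le_mul_right _ (Finset.card_le_univ P)
        have h6 : O.card * θ ≤ σ * θ := by omega
        exact Nat.le_of_mul_le_mul_right h6 hθ
      let Fr : V → V → Prop := fun x y => Rook l x y ∧ ∀ j, j ≠ i → M j x ≠ y
      have hFr : ∀ x y, Fr x y → Fr y x := by
        intro x y h
        refine ⟨h.1.symm, ?_⟩
        intro j hj hjy
        apply h.2 j hj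
        rw [← hjy, (hM.pm j).1]
      have hloadx : ∀ x, (P.filter (fun i => M i x ≠ M0 i x)).card ≤ 2 * θ := by
        intro x
        have h1 := hM.load x
        rw [hloadeq] at h1
        have h2 : Nat.card {i // i ∈ P ∧ Tiny (L i) (M0 i) σ x} ≤
            Nat.card {i // Tiny (L i) (M0 i) σ x} := by
          rw [Nat.card_eq_fintype_card, Nat.card_eq_fintype_card, Fintype.card_subtype,
            Fintype.card_subtype]
          apply Finset.card_le_card
          intro j hj
          simp only [Finset.mem_filter, Finset.mem_univ, true_and] at hj ⊢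
          exact hj.2
        have h3 := hT x
        omega
      have hβ : ∀ x, Nat.card {y // y ≠ x ∧ Rook l x y ∧ ¬ Fr x y} ≤ 2 * θ + e := by
        intro x
        rw [Nat.card_eq_fintype_card, Fintype.card_subtype]
        have hsub : (Finset.univ.filter (fun y => y ≠ x ∧ Rook l x y ∧ ¬ Fr x y)) ⊆
            (P.filter (fun j => M j x ≠ M0 j x) ∪
              Finset.univ.filter (fun j => Rook l x (M0 j x))).image (fun j => M j x) := by
          intro y hy
          simp only [Finset.mem_filter, Finset.mem_univ, true_and, Fr, not_and] at hy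
          obtain ⟨_, h1, h2⟩ := hy
          have h3 := h2 h1
          push Not at h3
          obtain ⟨j, hj, hjy⟩ := h3
          rw [Finset.mem_image]
          refine ⟨j, ?_, hjy⟩
          simp only [Finset.mem_union, Finset.mem_filter, Finset.mem_univ, true_and]
          by_cases hjP : M j x = M0 j x
          · right
            rw [← hjP, hjy]
            exact h1
          · left
            refine ⟨?_, hjP⟩
            by_contra hcon
            exact hjP (by rw [hM.out j hcon])
        have h1 := Finset.card_le_card hsub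
        have h2 := Finset.card_image_le (s := P.filter (fun j => M j x ≠ M0 j x) ∪
              Finset.univ.filter (fun j => Rook l x (M0 j x))) (f := fun j => M j x)
        have h3 := Finset.card_union_le (P.filter (fun j => M j x ≠ M0 j x))
          (Finset.univ.filter (fun j => Rook l x (M0 j x)))
        have h4 := he1 x
        rw [Nat.card_eq_fintype_card, Fintype.card_subtype] at h4
        have h5 := hloadx x
        omega
      have hMi : M i = M0 i := hM.out i hi
      obtain ⟨M', hM'pm, hM'conn, hM'free, hM'few, hM'tiny⟩ :=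
        merging l (s i) (L i) (M0 i) (hL i) (hM0 i) O Fr hFr σ (2 * θ + e) e C n1 hOcard hβ
          (he2 i) hn1 (hC i) hbig hn
      refine ⟨Function.update M i M', ?_⟩
      have hup_ne : ∀ j, j ≠ i → Function.update M i M' j = M j := by
        intro j hj
        exact Function.update_of_ne hj _ _
      have hup_i : Function.update M i M' i = M' := Function.update_self _ _ _
      have hiP : ∀ j ∈ P, j ≠ i := by
        rintro j hj rfl
        exact hi hj
      have hdis1 : ∀ j, j ≠ i → ∀ x, M' x ≠ M j x := by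
        intro j hj x
        rcases hM'free x with h | h
        · rw [h, ← hMi]
          exact hM.disj i j (Ne.symm hj) x
        · exact fun h' => h.2 j hj h'.symm
      refine ⟨?_, ?_, ?_, ?_, ?_, ?_, ?_⟩
      · intro j
        by_cases hj : j = i
        · subst hj; rw [hup_i]; exact hM'pm
        · rw [hup_ne j hj]; exact hM.pm j
      · intro j j' hjj' x
        by_cases hj : j = i
        · subst hj
          rw [hup_i, hup_ne j' (Ne.symm hjj')]
          exact hdis1 j' (Ne.symm hjj') x
        · by_cases hj' : j' = i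
          · subst hj'
            rw [hup_i, hup_ne j hj]
            exact (hdis1 j hj x).symm
          · rw [hup_ne j hj, hup_ne j' hj']
            exact hM.disj j j' hjj' x
      · intro j hj
        rw [Finset.mem_insert, not_or] at hj
        rw [hup_ne j hj.1]
        exact hM.out j hj.2
      · intro j hj
        rcases Finset.mem_insert.1 hj with rfl | hj
        · rw [hup_i]; exact hM'conn
        · rw [hup_ne j (hiP j hj)]; exact hM.conn j hj
      · intro j hj
        rcases Finset.mem_insert.1 hj with rfl | hj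
        · rw [hup_i]; exact hM'few
        · rw [hup_ne j (hiP j hj)]; exact hM.few j hj
      · intro j hj x
        rcases Finset.mem_insert.1 hj with rfl | hj
        · rw [hup_i]
          intro hx
          rcases hM'free x with h | h
          · exact absurd h hx
          · exact h.1
        · rw [hup_ne j (hiP j hj)]; exact hM.rook j hj x
      · intro x
        have hold := hM.load x
        rw [hloadeq] at hold
        have e1 : Nat.card {j // j ∈ insert i P ∧ Function.update M i M' j x ≠ M0 j x} =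
            (if M' x ≠ M0 i x then 1 else 0) + (P.filter (fun j => M j x ≠ M0 j x)).card := by
          rw [Nat.card_eq_fintype_card, Fintype.card_subtype]
          have : (Finset.univ.filter (fun j => j ∈ insert i P ∧
              Function.update M i M' j x ≠ M0 j x)) =
              (insert i P).filter (fun j => Function.update M i M' j x ≠ M0 j x) := by
            ext j; simp
          rw [this, Finset.filter_insert, hup_i]
          have h2 : P.filter (fun j => Function.update M i M' j x ≠ M0 j x) =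
              P.filter (fun j => M j x ≠ M0 j x) := by
            apply Finset.filter_congr
            intro j hj
            rw [hup_ne j (hiP j hj)]
          rw [h2]
          split_ifs with h
          · rw [Finset.card_insert_of_notMem]
            · omega
            · intro hmem
              exact hi (Finset.mem_filter.1 hmem).1
          · omega
        have e2 : Nat.card {j // j ∈ insert i P ∧ Tiny (L j) (M0 j) σ x} =
            (if Tiny (L i) (M0 i) σ x then 1 else 0) +
              Nat.card {j // j ∈ P ∧ Tiny (L j) (M0 j) σ x} := by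
          rw [Nat.card_eq_fintype_card, Fintype.card_subtype, Nat.card_eq_fintype_card,
            Fintype.card_subtype]
          have h1 : (Finset.univ.filter (fun j => j ∈ insert i P ∧ Tiny (L j) (M0 j) σ x)) =
              (insert i P).filter (fun j => Tiny (L j) (M0 j) σ x) := by
            ext j; simp
          have h2 : (Finset.univ.filter (fun j => j ∈ P ∧ Tiny (L j) (M0 j) σ x)) =
              P.filter (fun j => Tiny (L j) (M0 j) σ x) := by
            ext j; simp
          rw [h1, h2, Finset.filter_insert]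
          split_ifs with h
          · rw [Finset.card_insert_of_notMem]
            · omega
            · intro hmem
              exact hi (Finset.mem_filter.1 hmem).1
          · omega
        rw [e1, e2]
        by_cases hx : M' x ≠ M0 i x
        · by_cases hxO : x ∈ O
          · have : Tiny (L i) (M0 i) σ x := hM'tiny x hxO hx
            rw [if_pos hx, if_pos this]
            omega
          · have hlt : (P.filter (fun i => M i x ≠ M0 i x)).card < θ := by
              by_contra hcon
              push Not at hcon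
              apply hxO
              simp only [O, Finset.mem_filter, Finset.mem_univ, true_and]
              exact hcon
            rw [if_pos hx]
            omega
        · rw [if_neg hx]
          omega
  obtain ⟨M, hM⟩ := key Finset.univ
  exact ⟨M, hM.pm, hM.disj, fun i => hM.conn i (Finset.mem_univ i)⟩

end

end Pool.Agent.Lib.MP_fe131b_co
end

section

/-!
Selection of the random matchings, class after class (multiplicative weights).
-/

namespace Pool.Agent.Lib.MP_fe131b_co

open Finset Function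

section Comp

variable {X : Type*} [Fintype X] [DecidableEq X]

open Classical in
/-- number of points with short period -/
noncomputable def nshort (L M : X → X) (T : ℕ) : ℕ :=
  (Finset.univ.filter (fun v => minimalPeriod (L ∘ M) v ≤ T)).card

open Classical in
/-- number of pairs of points of short period in different components -/
noncomputable def npairs (L M : X → X) (T : ℕ) : ℕ :=
  (Finset.univ.filter (fun q : X × X => minimalPeriod (L ∘ M) q.1 ≤ T ∧
    minimalPeriod (L ∘ M) q.2 ≤ T ∧ ¬ (rel L M).r q.1 q.2)).card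

theorem ncomp_le {L M : X → X} (hL : PM L) (hM : PM M) (T : ℕ) :
    ncomp L M * (2 * T) ≤ nshort L M T * (2 * T) + Fintype.card X := by
  classical
  let S : Finset (Quotient (rel L M)) := Finset.univ
  have hcardS : ncomp L M = S.card := by
    unfold ncomp
    rw [Nat.card_eq_fintype_card, Finset.card_univ]
  let S1 := S.filter (fun q => minimalPeriod (L ∘ M) q.out ≤ T)
  let S2 := S.filter (fun q => ¬ minimalPeriod (L ∘ M) q.out ≤ T)
  have h12 : S1.card + S2.card = S.card := Finset.card_filter_add_card_filter_not _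
  have h1 : S1.card ≤ nshort L M T := by
    refine Finset.card_le_card_of_injOn (fun q => q.out) ?_ ?_
    · intro q hq
      simp only [S1, S, Finset.coe_filter, Finset.mem_univ, true_and, Set.mem_setOf_eq] at hq
      simp only [Finset.coe_filter, Finset.mem_univ, true_and, Set.mem_setOf_eq]
      exact hq
    · intro q _ q' _ h
      exact Quotient.out_injective h
  have h2 : S2.card * (2 * T) ≤ Fintype.card X := by
    have h3 : ∑ q ∈ S, (Finset.univ.filter
        (fun x : X => (Quotient.mk (rel L M) x) = q)).card = Fintype.card X := by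
      rw [← Finset.card_univ (α := X)]
      exact (Finset.card_eq_sum_card_fiberwise (fun x _ => Finset.mem_coe.2 (Finset.mem_univ _))).symm
    rw [← h3, ← smul_eq_mul]
    refine le_trans (Finset.card_nsmul_le_sum S2
      (fun q => (Finset.univ.filter (fun x : X => (Quotient.mk (rel L M) x) = q)).card)
      (2 * T) ?_) (Finset.sum_le_sum_of_subset (Finset.filter_subset _ _))
    intro q hq
    simp only [S2, S, Finset.mem_filter, Finset.mem_univ, true_and] at hq
    have h4 := two_period_le hL hM q.out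
    rw [Nat.card_eq_fintype_card, Fintype.card_subtype] at h4
    have h5 : (Finset.univ.filter (fun y => (rel L M).r q.out y)) ⊆
        (Finset.univ.filter (fun x : X => (Quotient.mk (rel L M) x) = q)) := by
      intro y hy
      simp only [Finset.mem_filter, Finset.mem_univ, true_and] at hy ⊢
      have h6 : Quotient.mk (rel L M) q.out = Quotient.mk (rel L M) y := Quotient.sound hy
      rw [← h6]
      exact Quotient.out_eq q
    have h6 := Finset.card_le_card h5
    omega
  rw [hcardS, ← h12, Nat.add_mul]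
  have := Nat.mul_le_mul_right (2 * T) h1
  omega

theorem npairs_ge {L M : X → X} (hL : PM L) (hM : PM M) (T : ℕ) :
    nshort L M T * (nshort L M T - 2 * T) ≤ npairs L M T := by
  classical
  let S : Finset X := Finset.univ.filter (fun v => minimalPeriod (L ∘ M) v ≤ T)
  have hS : nshort L M T = S.card := rfl
  have h1 : (S.sigma (fun v => S.filter (fun w => ¬ (rel L M).r v w))).card ≤
      npairs L M T := by
    refine Finset.card_le_card_of_injOn (fun q => (q.1, q.2)) ?_ ?_
    · rintro ⟨v, w⟩ hq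
      simp only [Finset.coe_sigma, Set.mem_sigma_iff, Finset.mem_coe, S, Finset.mem_filter,
        Finset.mem_univ, true_and] at hq
      simp only [Finset.coe_filter, Finset.mem_univ, true_and, Set.mem_setOf_eq]
      exact ⟨hq.1, hq.2.1, hq.2.2⟩
    · rintro ⟨v, w⟩ _ ⟨v', w'⟩ _ h
      simp only [Prod.mk.injEq] at h
      obtain ⟨rfl, rfl⟩ := h
      rfl
  refine le_trans ?_ h1
  rw [Finset.card_sigma, hS, ← smul_eq_mul]
  apply Finset.card_nsmul_le_sum
  intro v hv
  have h2 : (S.filter (fun w => (rel L M).r v w)).card +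
      (S.filter (fun w => ¬ (rel L M).r v w)).card = S.card :=
    Finset.card_filter_add_card_filter_not _
  have h3 : (S.filter (fun w => (rel L M).r v w)).card ≤ 2 * T := by
    have h4 := card_comp_le hL hM v
    rw [Nat.card_eq_fintype_card, Fintype.card_subtype] at h4
    have h5 : S.filter (fun w => (rel L M).r v w) ⊆
        Finset.univ.filter (fun w => (rel L M).r v w) :=
      Finset.filter_subset_filter _ (Finset.subset_univ _)
    have h6 := Finset.card_le_card h5
    simp only [S, Finset.mem_filter, Finset.mem_univ, true_and] at hv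
    omega
  omega

end Comp

section Shift

variable {Γ Y : Type*} [Fintype Γ] [DecidableEq Γ] [AddCommGroup Y] [Fintype Y] [DecidableEq Y]

/-- shift of the oriented groups -/
def tau (P : Γ → Bool) (j : Y) (x : Γ × Y) : Γ × Y := (x.1, if P x.1 then x.2 + j else x.2)

omit [Fintype Γ] [DecidableEq Γ] [Fintype Y] [DecidableEq Y] in
theorem tau_tau (P : Γ → Bool) (j k : Y) (x : Γ × Y) :
    tau P j (tau P k x) = tau P (k + j) x := by
  simp only [tau]
  split_ifs <;> simp [add_assoc]

omit [Fintype Γ] [DecidableEq Γ] [Fintype Y] [DecidableEq Y] in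
theorem tau_zero (P : Γ → Bool) (x : Γ × Y) : tau P 0 x = x := by
  simp [tau]

/-- the `j`-th matching of a class -/
def shift (P : Γ → Bool) (j : Y) (M : Γ × Y → Γ × Y) (x : Γ × Y) : Γ × Y :=
  tau P (-j) (M (tau P j x))

omit [Fintype Γ] [DecidableEq Γ] [Fintype Y] [DecidableEq Y] in
theorem shift_adm {P : Γ → Bool} {c : Γ → Γ} (j : Y) {M : Γ × Y → Γ × Y}
    (hM : Adm Prod.fst c M) : Adm Prod.fst c (shift P j M) := by
  constructor
  · intro x
    simp only [shift]
    rw [tau_tau]
    simp only [neg_add_cancel, tau_zero]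
    rw [hM.inv, tau_tau]
    simp [tau_zero]
  · intro x
    have := hM.grp (tau P j x)
    simp only [shift, tau] at this ⊢
    exact this

omit [Fintype Γ] [DecidableEq Γ] [Fintype Y] [DecidableEq Y] in
theorem shift_shift (P : Γ → Bool) (j k : Y) (M : Γ × Y → Γ × Y) :
    shift P j (shift P k M) = shift P (j + k) M := by
  funext x
  simp only [shift, tau_tau]
  congr 1
  abel

omit [Fintype Γ] [DecidableEq Γ] [Fintype Y] [DecidableEq Y] in
theorem shift_zero (P : Γ → Bool) (M : Γ × Y → Γ × Y) : shift P 0 M = M := by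
  funext x
  simp [shift, tau_zero]

theorem sum_shift {R : Type*} [AddCommMonoid R] (P : Γ → Bool) (c : Γ → Γ) (j : Y)
    (f : (Γ × Y → Γ × Y) → R) :
    ∑ M ∈ Om (Prod.fst : Γ × Y → Γ) c, f (shift P j M) =
      ∑ M ∈ Om (Prod.fst : Γ × Y → Γ) c, f M := by
  refine Finset.sum_nbij' (fun M => shift P j M) (fun M => shift P (-j) M) ?_ ?_ ?_ ?_ ?_
  · intro M hM
    rw [mem_Om] at hM ⊢
    exact shift_adm j hM
  · intro M hM
    rw [mem_Om] at hM ⊢
    exact shift_adm (-j) hM
  · intro M _
    rw [shift_shift]; simp [shift_zero]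
  · intro M _
    rw [shift_shift]; simp [shift_zero]
  · intro M _
    rfl

omit [Fintype Γ] [DecidableEq Γ] [Fintype Y] [DecidableEq Y] in
theorem shift_disj {P : Γ → Bool} {c : Γ → Γ} (hP : ∀ γ, P (c γ) = !P γ) {M : Γ × Y → Γ × Y}
    (hM : Adm Prod.fst c M) {j k : Y} (hjk : j ≠ k) (x : Γ × Y) :
    shift P j M x ≠ shift P k M x := by
  intro h
  rcases hPx : P x.1 with _ | _
  · -- x is not oriented: M (tau x) = M x, group c x.1 oriented
    have h1 : ∀ i : Y, shift P i M x = ((M x).1, (M x).2 + -i) := by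
      intro i
      have h2 : tau P i x = x := by
        simp [tau, hPx]
      have h3 : P (M x).1 = true := by rw [hM.grp x, hP, hPx]; rfl
      simp only [shift, h2]
      simp [tau, h3]
    rw [h1, h1] at h
    simp only [Prod.mk.injEq, true_and, add_right_inj, neg_inj] at h
    exact hjk h
  · have h1 : ∀ i : Y, shift P i M x = M (x.1, x.2 + i) := by
      intro i
      have h2 : tau P i x = (x.1, x.2 + i) := by
        simp [tau, hPx]
      have h3 : P (M (x.1, x.2 + i)).1 = false := by
        rw [hM.grp, hP]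
        simp [hPx]
      simp only [shift, h2]
      simp [tau, h3]
    rw [h1, h1] at h
    have h2 := congrArg M h
    rw [hM.inv, hM.inv] at h2
    simp only [Prod.mk.injEq, true_and, add_right_inj] at h2
    exact hjk h2

theorem Om_nonempty {c : Γ → Γ} (hc2 : ∀ γ, c (c γ) = γ) :
    (Om (Prod.fst : Γ × Y → Γ) c).Nonempty := by
  refine ⟨fun x => (c x.1, x.2), ?_⟩
  rw [mem_Om]
  constructor
  · intro x; simp [hc2]
  · intro x; rfl

theorem card_fiber (γ : Γ) : Nat.card {x : Γ × Y // x.1 = γ} = Fintype.card Y := by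
  rw [← Nat.card_eq_fintype_card]
  refine Nat.card_congr ⟨fun x => x.1.2, fun y => ⟨(γ, y), rfl⟩, ?_, ?_⟩
  · rintro ⟨⟨γ', y⟩, h⟩
    simp only at h
    subst h
    rfl
  · intro y
    rfl

open Classical in
/-- number of colours `j` of a class in which `v` has short period -/
noncomputable def tshort (P : Γ → Bool) (L : Y → Γ × Y → Γ × Y) (M : Γ × Y → Γ × Y) (S : ℕ)
    (v : Γ × Y) : ℕ :=
  (Finset.univ.filter (fun j => minimalPeriod (L j ∘ shift P j M) v ≤ S)).card

/-- selection in one class -/
theorem select_class {P : Γ → Bool} {c : Γ → Γ} (hc : ∀ γ, c γ ≠ γ) (hc2 : ∀ γ, c (c γ) = γ)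
    (L : Y → Γ × Y → Γ × Y) (hL : ∀ j, PM (L j)) (wt : Γ × Y → ℝ) (hwt : ∀ v, 0 ≤ wt v)
    (hwpos : 0 < ∑ v, wt v) (T S : ℕ) (hT : 0 < T) (hS : 0 < S)
    (hDT : 2 * T < Fintype.card Y) (hDS : S < Fintype.card Y) :
    ∃ M, Adm Prod.fst c M ∧
      (∀ j, (npairs (L j) (shift P j M) T : ℝ) * (((Fintype.card Y : ℝ) - T) *
        ((Fintype.card Y : ℝ) - 2 * T)) ≤
        2 * ((Fintype.card Y : ℝ) * (Fintype.card (Γ × Y) : ℝ) ^ 2 * (T : ℝ) ^ 2)) ∧
      (∑ v, wt v * (tshort P L M S v : ℝ)) * ((Fintype.card Y : ℝ) - S) ≤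
        2 * ((Fintype.card Y : ℝ) * S * ∑ v, wt v) := by
  classical
  set D := Fintype.card Y with hD
  set N := Fintype.card (Γ × Y) with hN
  have hDT' : (2 : ℝ) * T < D := by exact_mod_cast hDT
  have hDS' : (S : ℝ) < D := by exact_mod_cast hDS
  have hTpos : (0 : ℝ) < T := by exact_mod_cast hT
  have hSpos : (0 : ℝ) < S := by exact_mod_cast hS
  have hDpos : (0 : ℝ) < D := lt_trans hSpos hDS'
  have hNpos : (0 : ℝ) < N := by
    have : 0 < N := by
      rw [hN, Fintype.card_pos_iff]
      by_contra hcon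
      rw [not_nonempty_iff] at hcon
      simp at hwpos
    exact_mod_cast this
  set Ω := Om (Prod.fst : Γ × Y → Γ) c with hΩ
  have hΩpos : (0 : ℝ) < Ω.card := by
    have := Finset.card_pos.2 (Om_nonempty (Y := Y) hc2)
    exact_mod_cast this
  set e1 : ℝ := ((D : ℝ) - T) * ((D : ℝ) - 2 * T) with he1
  set e2 : ℝ := (D : ℝ) - S with he2
  have he1pos : 0 < e1 := by
    apply mul_pos <;> linarith
  have he2pos : 0 < e2 := by
    rw [he2]; linarith
  set a : ℝ := (D : ℝ) * (N : ℝ) ^ 2 * (T : ℝ) ^ 2 with ha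
  set b : ℝ := (D : ℝ) * S * ∑ v, wt v with hb
  have hapos : 0 < a := by positivity
  have hbpos : 0 < b := by positivity
  -- the two functionals
  let A : (Γ × Y → Γ × Y) → ℝ := fun M => ∑ j, (npairs (L j) (shift P j M) T : ℝ)
  let B : (Γ × Y → Γ × Y) → ℝ := fun M => ∑ v, wt v * (tshort P L M S v : ℝ)
  have hA : (∑ M ∈ Ω, A M) * e1 ≤ Ω.card * a := by
    have h1 : ∑ M ∈ Ω, A M = ∑ j : Y, ∑ M ∈ Ω, (npairs (L j) M T : ℝ) := by
      simp only [A]
      rw [Finset.sum_comm]
      apply Finset.sum_congr rfl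
      intro j _
      exact sum_shift P c j (fun M => (npairs (L j) M T : ℝ))
    have h2 : ∀ j : Y, (∑ M ∈ Ω, (npairs (L j) M T : ℝ)) * e1 ≤
        (N : ℝ) ^ 2 * ((T : ℝ) ^ 2 * Ω.card) := by
      intro j
      have h3 : ∑ M ∈ Ω, (npairs (L j) M T : ℝ) = ∑ q : (Γ × Y) × (Γ × Y),
          ((Ω.filter (fun M => minimalPeriod (L j ∘ M) q.1 ≤ T ∧
            minimalPeriod (L j ∘ M) q.2 ≤ T ∧ ¬ (rel (L j) M).r q.1 q.2)).card : ℝ) := by
        simp only [npairs, Finset.card_filter]
        push_cast
        rw [Finset.sum_comm]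
      rw [h3, Finset.sum_mul]
      have h4 : ∀ q : (Γ × Y) × (Γ × Y),
          ((Ω.filter (fun M => minimalPeriod (L j ∘ M) q.1 ≤ T ∧
            minimalPeriod (L j ∘ M) q.2 ≤ T ∧ ¬ (rel (L j) M).r q.1 q.2)).card : ℝ) * e1 ≤
            (T : ℝ) ^ 2 * Ω.card := by
        intro q
        have h5 := pair_le hc card_fiber (hL j) q.1 q.2 T
        rw [← hD] at h5
        have h6 : ((D - T : ℕ) : ℝ) = (D : ℝ) - T := by
          rw [Nat.cast_sub (by omega)]
        have h7 : ((D - 2 * T : ℕ) : ℝ) = (D : ℝ) - 2 * T := by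
          rw [Nat.cast_sub (by omega)]; push_cast; ring
        rw [he1, ← h6, ← h7, pow_two]
        exact_mod_cast h5
      calc _ ≤ ∑ _q : (Γ × Y) × (Γ × Y), (T : ℝ) ^ 2 * Ω.card :=
            Finset.sum_le_sum (fun q _ => h4 q)
        _ = (N : ℝ) ^ 2 * ((T : ℝ) ^ 2 * Ω.card) := by
            rw [Finset.sum_const, Finset.card_univ, Fintype.card_prod (Γ × Y) (Γ × Y), ← hN,
              nsmul_eq_mul]
            push_cast
            ring
    rw [h1, Finset.sum_mul]
    calc _ ≤ ∑ _j : Y, (N : ℝ) ^ 2 * ((T : ℝ) ^ 2 * Ω.card) :=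
          Finset.sum_le_sum (fun j _ => h2 j)
      _ = Ω.card * a := by
          rw [Finset.sum_const, Finset.card_univ, ← hD, nsmul_eq_mul, ha]
          ring
  have hB : (∑ M ∈ Ω, B M) * e2 ≤ Ω.card * b := by
    have h1 : ∑ M ∈ Ω, B M = ∑ v, wt v * ∑ j : Y,
        ((Ω.filter (fun M => minimalPeriod (L j ∘ M) v ≤ S)).card : ℝ) := by
      simp only [B]
      rw [Finset.sum_comm]
      apply Finset.sum_congr rfl
      intro v _
      rw [← Finset.mul_sum]
      congr 1
      simp only [tshort, Finset.card_filter]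
      push_cast
      rw [Finset.sum_comm]
      apply Finset.sum_congr rfl
      intro j _
      exact sum_shift P c j (fun M => if minimalPeriod (L j ∘ M) v ≤ S then (1 : ℝ) else 0)
    have h2 : ∀ v, (∑ j : Y, ((Ω.filter (fun M => minimalPeriod (L j ∘ M) v ≤ S)).card : ℝ))
        * e2 ≤ (D : ℝ) * (S * Ω.card) := by
      intro v
      rw [Finset.sum_mul]
      have h3 : ∀ j : Y, ((Ω.filter (fun M => minimalPeriod (L j ∘ M) v ≤ S)).card : ℝ) * e2 ≤
          S * Ω.card := by
        intro j
        have h5 := single_le hc card_fiber (hL j) v S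
        rw [← hD] at h5
        have h6 : ((D - S : ℕ) : ℝ) = (D : ℝ) - S := by
          rw [Nat.cast_sub (by omega)]
        rw [he2, ← h6]
        exact_mod_cast h5
      calc _ ≤ ∑ _j : Y, (S : ℝ) * Ω.card := Finset.sum_le_sum (fun j _ => h3 j)
        _ = _ := by rw [Finset.sum_const, Finset.card_univ, ← hD, nsmul_eq_mul]
    rw [h1, Finset.sum_mul]
    calc _ = ∑ v, wt v * ((∑ j : Y,
        ((Ω.filter (fun M => minimalPeriod (L j ∘ M) v ≤ S)).card : ℝ)) * e2) := by
          apply Finset.sum_congr rfl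
          intro v _
          ring
      _ ≤ ∑ v, wt v * ((D : ℝ) * (S * Ω.card)) := by
          apply Finset.sum_le_sum
          intro v _
          exact mul_le_mul_of_nonneg_left (h2 v) (hwt v)
      _ = Ω.card * b := by
          rw [← Finset.sum_mul, hb]
          ring
  -- choose M
  have hsum : ∑ M ∈ Ω, (A M * (e1 / a) + B M * (e2 / b)) ≤ ∑ _M ∈ Ω, (2 : ℝ) := by
    rw [Finset.sum_add_distrib, ← Finset.sum_mul, ← Finset.sum_mul, Finset.sum_const,
      nsmul_eq_mul]
    have h1 : (∑ M ∈ Ω, A M) * (e1 / a) ≤ Ω.card := by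
      rw [← mul_div_assoc, div_le_iff₀ hapos]
      exact hA
    have h2 : (∑ M ∈ Ω, B M) * (e2 / b) ≤ Ω.card := by
      rw [← mul_div_assoc, div_le_iff₀ hbpos]
      exact hB
    linarith
  obtain ⟨M, hMΩ, hM⟩ := Finset.exists_le_of_sum_le (Om_nonempty (Y := Y) hc2) hsum
  have hA0 : 0 ≤ A M := Finset.sum_nonneg (fun j _ => Nat.cast_nonneg _)
  have hB0 : 0 ≤ B M := Finset.sum_nonneg (fun v _ => mul_nonneg (hwt v) (Nat.cast_nonneg _))
  have hA1 : 0 ≤ A M * (e1 / a) := by positivity
  have hB1 : 0 ≤ B M * (e2 / b) := by positivity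
  refine ⟨M, mem_Om.1 hMΩ, ?_, ?_⟩
  · intro j
    have h1 : A M * (e1 / a) ≤ 2 := by linarith
    rw [← mul_div_assoc, div_le_iff₀ hapos] at h1
    have h2 : (npairs (L j) (shift P j M) T : ℝ) ≤ A M := by
      have h3 : ∀ i ∈ (Finset.univ : Finset Y), (0 : ℝ) ≤ (npairs (L i) (shift P i M) T : ℝ) :=
        fun i _ => Nat.cast_nonneg _
      exact Finset.single_le_sum h3 (Finset.mem_univ j)
    exact le_trans (mul_le_mul_of_nonneg_right h2 he1pos.le) h1
  · have h1 : B M * (e2 / b) ≤ 2 := by linarith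
    rw [← mul_div_assoc, div_le_iff₀ hbpos] at h1
    exact h1

end Shift

end Pool.Agent.Lib.MP_fe131b_co
end

section

/-!
Selection in all classes, one after the other (multiplicative weights).
-/

namespace Pool.Agent.Lib.MP_fe131b_co

open Finset Function

section

variable {Γ Y C : Type*} [Fintype Γ] [DecidableEq Γ] [AddCommGroup Y] [Fintype Y] [DecidableEq Y]
  [Fintype C] [DecidableEq C]

theorem exp_half_le {x : ℝ} (h0 : 0 ≤ x) (h1 : x ≤ 1) : Real.exp (x / 2) ≤ 1 + x := by
  have h2 : 1 - x / 2 ≤ Real.exp (-(x / 2)) := by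
    have := Real.add_one_le_exp (-(x / 2))
    linarith
  have h3 : 0 < 1 - x / 2 := by linarith
  have h4 : Real.exp (x / 2) * (1 - x / 2) ≤ 1 := by
    calc Real.exp (x / 2) * (1 - x / 2) ≤ Real.exp (x / 2) * Real.exp (-(x / 2)) :=
          mul_le_mul_of_nonneg_left h2 (Real.exp_pos _).le
      _ = 1 := by rw [← Real.exp_add]; simp
  have h5 : 1 ≤ (1 + x) * (1 - x / 2) := by nlinarith
  have h6 : Real.exp (x / 2) * (1 - x / 2) ≤ (1 + x) * (1 - x / 2) := le_trans h4 h5
  exact le_of_mul_le_mul_right h6 h3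

theorem tshort_le (P : Γ → Bool) (L : Y → Γ × Y → Γ × Y) (M : Γ × Y → Γ × Y) (S : ℕ)
    (v : Γ × Y) : tshort P L M S v ≤ Fintype.card Y := by
  classical
  unfold tshort
  exact Finset.card_le_univ _

theorem select_all [Nonempty Γ] (P : C → Γ → Bool) (c : C → Γ → Γ) (hc : ∀ κ γ, c κ γ ≠ γ)
    (hc2 : ∀ κ γ, c κ (c κ γ) = γ)
    (L : C → Y → Γ × Y → Γ × Y) (hL : ∀ κ j, PM (L κ j)) (T S : ℕ) (hT : 0 < T) (hS : 0 < S)
    (hDT : 2 * T < Fintype.card Y) (hDS : S < Fintype.card Y) :
    ∃ M : C → (Γ × Y → Γ × Y), (∀ κ, Adm Prod.fst (c κ) (M κ)) ∧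
      (∀ κ j, (npairs (L κ j) (shift (P κ) j (M κ)) T : ℝ) * (((Fintype.card Y : ℝ) - T) *
        ((Fintype.card Y : ℝ) - 2 * T)) ≤
        2 * ((Fintype.card Y : ℝ) * (Fintype.card (Γ × Y) : ℝ) ^ 2 * (T : ℝ) ^ 2)) ∧
      (∀ v, (∑ κ, (tshort (P κ) (L κ) (M κ) S v : ℝ)) ≤ 2 * (Fintype.card Y : ℝ) *
        (Real.log (Fintype.card (Γ × Y)) +
          (Fintype.card C : ℝ) * (2 * S / ((Fintype.card Y : ℝ) - S)))) := by
  classical
  set D := Fintype.card Y with hD
  set N := Fintype.card (Γ × Y) with hN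
  have hDS' : (S : ℝ) < D := by exact_mod_cast hDS
  have hSpos : (0 : ℝ) < S := by exact_mod_cast hS
  have hDpos : (0 : ℝ) < D := lt_trans hSpos hDS'
  have hNpos' : 0 < N := by
    rw [hN, Fintype.card_pos_iff]
    have : Nonempty Y := ⟨0⟩
    infer_instance
  have hNpos : (0 : ℝ) < N := by exact_mod_cast hNpos'
  set δ : ℝ := 2 * S / ((D : ℝ) - S) with hδ
  have hDS2 : 0 < (D : ℝ) - S := by linarith
  have hδpos : 0 ≤ δ := by positivity
  have key : ∀ F : Finset C, ∃ M : C → (Γ × Y → Γ × Y), (∀ κ ∈ F, Adm Prod.fst (c κ) (M κ)) ∧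
      (∀ κ ∈ F, ∀ j, (npairs (L κ j) (shift (P κ) j (M κ)) T : ℝ) * (((D : ℝ) - T) *
        ((D : ℝ) - 2 * T)) ≤ 2 * ((D : ℝ) * (N : ℝ) ^ 2 * (T : ℝ) ^ 2)) ∧
      ∑ v, ∏ κ ∈ F, (1 + (tshort (P κ) (L κ) (M κ) S v : ℝ) / D) ≤
        (N : ℝ) * (1 + δ) ^ F.card := by
    intro F
    induction F using Finset.induction_on with
    | empty =>
      refine ⟨fun _ => id, ?_, ?_, ?_⟩
      · intro κ h; simp at h
      · intro κ h; simp at h
      · simp only [Finset.prod_empty, Finset.sum_const, Finset.card_univ, Finset.card_empty,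
          pow_zero, mul_one, nsmul_eq_mul]
        rfl
    | insert κ0 F hκ0 ih =>
      obtain ⟨M, hM1, hM2, hM3⟩ := ih
      let wt : Γ × Y → ℝ := fun v => ∏ κ ∈ F, (1 + (tshort (P κ) (L κ) (M κ) S v : ℝ) / D)
      have hwt1 : ∀ v, 1 ≤ wt v := by
        intro v
        have : ∀ κ ∈ F, (1 : ℝ) ≤ 1 + (tshort (P κ) (L κ) (M κ) S v : ℝ) / D := by
          intro κ _
          have : (0 : ℝ) ≤ (tshort (P κ) (L κ) (M κ) S v : ℝ) / D := by positivity
          linarith
        calc (1 : ℝ) = ∏ _κ ∈ F, (1 : ℝ) := by simp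
          _ ≤ _ := Finset.prod_le_prod (fun _ _ => zero_le_one) this
      have hwt0 : ∀ v, 0 ≤ wt v := fun v => le_trans zero_le_one (hwt1 v)
      have hwpos : 0 < ∑ v, wt v := by
        apply Finset.sum_pos
        · intro v _
          exact lt_of_lt_of_le zero_lt_one (hwt1 v)
        · rw [← Finset.card_pos, Finset.card_univ]
          exact hNpos'
      obtain ⟨M0, hM01, hM02, hM03⟩ := select_class (P := P κ0) (hc κ0) (hc2 κ0) (L κ0) (hL κ0)
        wt hwt0 hwpos T S hT hS hDT hDS
      have hupd : ∀ κ ∈ F, Function.update M κ0 M0 κ = M κ := by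
        intro κ hκ
        apply Function.update_of_ne
        rintro rfl
        exact hκ0 hκ
      have hupd0 : Function.update M κ0 M0 κ0 = M0 := Function.update_self _ _ _
      refine ⟨Function.update M κ0 M0, ?_, ?_, ?_⟩
      · intro κ hκ
        rcases Finset.mem_insert.1 hκ with rfl | hκ
        · rw [hupd0]; exact hM01
        · rw [hupd κ hκ]; exact hM1 κ hκ
      · intro κ hκ j
        rcases Finset.mem_insert.1 hκ with rfl | hκ
        · rw [hupd0]; exact hM02 j
        · rw [hupd κ hκ]; exact hM2 κ hκ j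
      · have h1 : ∀ v, ∏ κ ∈ insert κ0 F,
            (1 + (tshort (P κ) (L κ) (Function.update M κ0 M0 κ) S v : ℝ) / D) =
            wt v + wt v * (tshort (P κ0) (L κ0) M0 S v : ℝ) / D := by
          intro v
          rw [Finset.prod_insert hκ0, hupd0]
          have h2 : ∏ κ ∈ F, (1 + (tshort (P κ) (L κ) (Function.update M κ0 M0 κ) S v : ℝ) / D) =
              wt v := by
            apply Finset.prod_congr rfl
            intro κ hκ
            rw [hupd κ hκ]
          rw [h2]
          ring
        simp only [h1]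
        rw [Finset.sum_add_distrib, ← Finset.sum_div]
        rw [Finset.card_insert_of_notMem hκ0, pow_succ]
        have h2 : (∑ v, wt v * (tshort (P κ0) (L κ0) M0 S v : ℝ)) / D ≤ (∑ v, wt v) * δ := by
          rw [div_le_iff₀ hDpos, hδ]
          have h3 : (∑ v, wt v * (tshort (P κ0) (L κ0) M0 S v : ℝ)) ≤
              2 * ((D : ℝ) * S * ∑ v, wt v) / ((D : ℝ) - S) := by
            rw [le_div_iff₀ hDS2]
            exact hM03
          refine le_trans h3 (le_of_eq ?_)
          ring
        calc ∑ v, wt v + (∑ v, wt v * (tshort (P κ0) (L κ0) M0 S v : ℝ)) / D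
            ≤ ∑ v, wt v + (∑ v, wt v) * δ := by linarith
          _ = (∑ v, wt v) * (1 + δ) := by ring
          _ ≤ ((N : ℝ) * (1 + δ) ^ F.card) * (1 + δ) := by
              apply mul_le_mul_of_nonneg_right hM3
              linarith
          _ = _ := by ring
  obtain ⟨M, hM1, hM2, hM3⟩ := key Finset.univ
  refine ⟨M, fun κ => hM1 κ (Finset.mem_univ κ), fun κ j => hM2 κ (Finset.mem_univ κ) j, ?_⟩
  intro v
  have h1 : ∏ κ : C, (1 + (tshort (P κ) (L κ) (M κ) S v : ℝ) / D) ≤
      (N : ℝ) * (1 + δ) ^ (Fintype.card C) := by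
    refine le_trans ?_ hM3
    refine Finset.single_le_sum
      (f := fun v => ∏ κ : C, (1 + (tshort (P κ) (L κ) (M κ) S v : ℝ) / D)) ?_ (Finset.mem_univ v)
    intro w _
    apply Finset.prod_nonneg
    intro κ _
    positivity
  have h2 : Real.exp ((∑ κ, (tshort (P κ) (L κ) (M κ) S v : ℝ) / D) / 2) ≤
      ∏ κ : C, (1 + (tshort (P κ) (L κ) (M κ) S v : ℝ) / D) := by
    rw [Finset.sum_div, Real.exp_sum]
    apply Finset.prod_le_prod
    · intro κ _; exact (Real.exp_pos _).le
    · intro κ _
      apply exp_half_le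
      · positivity
      · rw [div_le_one hDpos]
        exact_mod_cast tshort_le _ _ _ _ _
  have h3 : (1 + δ) ^ (Fintype.card C) ≤ Real.exp ((Fintype.card C : ℝ) * δ) := by
    rw [Real.exp_nat_mul]
    apply pow_le_pow_left₀ (by linarith)
    have := Real.add_one_le_exp δ
    linarith
  have h4 : Real.exp ((∑ κ, (tshort (P κ) (L κ) (M κ) S v : ℝ) / D) / 2) ≤
      Real.exp (Real.log N + (Fintype.card C : ℝ) * δ) := by
    rw [Real.exp_add, Real.exp_log hNpos]
    refine le_trans h2 (le_trans h1 ?_)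
    exact mul_le_mul_of_nonneg_left h3 hNpos.le
  have h5 := Real.exp_le_exp.1 h4
  rw [← Finset.sum_div] at h5
  have h6 : (∑ κ, (tshort (P κ) (L κ) (M κ) S v : ℝ)) / D ≤
      2 * (Real.log N + (Fintype.card C : ℝ) * δ) := by linarith
  rw [div_le_iff₀ hDpos] at h6
  refine le_trans h6 (le_of_eq ?_)
  ring

end

end Pool.Agent.Lib.MP_fe131b_co
end

section

/-!
Removing dummy points: matchings on `X` induce matchings on the set `V` of non-dummy points.
-/

namespace Pool.Agent.Lib.MP_fe131b_co

open Finset Function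

section

variable {X : Type*} {Dm : X → Prop}

open Classical in
/-- extension of a matching of the non-dummy points by the matching `i0` of the dummy points -/
noncomputable def ext (i0 : X → X) (L : {x // ¬ Dm x} → {x // ¬ Dm x}) (x : X) : X :=
  if h : Dm x then i0 x else (L ⟨x, h⟩).1

theorem ext_dm {i0 : X → X} {L : {x // ¬ Dm x} → {x // ¬ Dm x}} {x : X} (h : Dm x) :
    ext i0 L x = i0 x := by
  unfold ext
  rw [dif_pos h]

theorem ext_val {i0 : X → X} {L : {x // ¬ Dm x} → {x // ¬ Dm x}} (x : {x // ¬ Dm x}) :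
    ext i0 L x.1 = (L x).1 := by
  unfold ext
  rw [dif_neg x.2]

theorem ext_PM {i0 : X → X} (h0 : ∀ x, Dm x → Dm (i0 x)) (h1 : ∀ x, Dm x → i0 (i0 x) = x)
    (h2 : ∀ x, Dm x → i0 x ≠ x) {L : {x // ¬ Dm x} → {x // ¬ Dm x}} (hL : PM L) :
    PM (ext i0 L) := by
  constructor
  · intro x
    by_cases h : Dm x
    · rw [ext_dm h, ext_dm (h0 x h), h1 x h]
    · have e1 : ext i0 L x = (L ⟨x, h⟩).1 := ext_val (⟨x, h⟩ : {x // ¬ Dm x})
      rw [e1, ext_val, hL.1]
  · intro x
    by_cases h : Dm x
    · rw [ext_dm h]; exact h2 x h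
    · have e1 : ext i0 L x = (L ⟨x, h⟩).1 := ext_val (⟨x, h⟩ : {x // ¬ Dm x})
      rw [e1]
      intro h3
      exact hL.2 ⟨x, h⟩ (Subtype.ext h3)

open Classical in
/-- restriction of the matching `M` to the non-dummy points -/
noncomputable def res (i0 : X → X) (h0 : ∀ x, Dm x → Dm (i0 x)) (M : X → X)
    (hM : ∀ x, Dm x → ¬ Dm (M x)) (x : {x // ¬ Dm x}) : {x // ¬ Dm x} :=
  if h : Dm (M x.1) then ⟨M (i0 (M x.1)), hM _ (h0 _ h)⟩ else ⟨M x.1, h⟩

variable {i0 : X → X} {h0 : ∀ x, Dm x → Dm (i0 x)} {M : X → X} {hM : ∀ x, Dm x → ¬ Dm (M x)}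

theorem res_dm {x : {x // ¬ Dm x}} (h : Dm (M x.1)) :
    (res i0 h0 M hM x).1 = M (i0 (M x.1)) := by
  unfold res
  rw [dif_pos h]

theorem res_not_dm {x : {x // ¬ Dm x}} (h : ¬ Dm (M x.1)) :
    (res i0 h0 M hM x).1 = M x.1 := by
  unfold res
  rw [dif_neg h]

theorem res_PM (h1 : ∀ x, Dm x → i0 (i0 x) = x)
    (h2 : ∀ x, Dm x → i0 x ≠ x) (hPM : PM M) : PM (res i0 h0 M hM) := by
  constructor
  · intro x
    apply Subtype.ext
    by_cases h : Dm (M x.1)
    · have h3 : Dm (M (res i0 h0 M hM x).1) := by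
        rw [res_dm h, hPM.1]; exact h0 _ h
      rw [res_dm h3, res_dm h, hPM.1, h1 _ h, hPM.1]
    · have h3 : ¬ Dm (M (res i0 h0 M hM x).1) := by
        rw [res_not_dm h, hPM.1]; exact x.2
      rw [res_not_dm h3, res_not_dm h, hPM.1]
  · intro x hx
    have hx' := congrArg Subtype.val hx
    by_cases h : Dm (M x.1)
    · rw [res_dm h] at hx'
      have h3 := congrArg M hx'
      rw [hPM.1] at h3
      exact h2 _ h h3
    · rw [res_not_dm h] at hx'
      exact hPM.2 _ hx'

theorem rel_res_imp (hPM : PM M) {L : {x // ¬ Dm x} → {x // ¬ Dm x}}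
    {v w : {x // ¬ Dm x}} (h : (rel L (res i0 h0 M hM)).r v w) :
    (rel (ext i0 L) M).r v.1 w.1 := by
  refine rel_le_of (Setoid.comap Subtype.val (rel (ext i0 L) M)) ?_ ?_ h
  · intro x
    change (rel (ext i0 L) M).r x.1 (L x).1
    rw [← ext_val (i0 := i0)]
    exact rel_L _ _ _
  · intro x
    change (rel (ext i0 L) M).r x.1 (res i0 h0 M hM x).1
    by_cases hx : Dm (M x.1)
    · rw [res_dm hx]
      have e1 : (rel (ext i0 L) M).r x.1 (M x.1) := rel_M _ _ _
      have e2 : (rel (ext i0 L) M).r (M x.1) (i0 (M x.1)) := by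
        rw [← ext_dm (i0 := i0) (L := L) hx]
        exact rel_L _ _ _
      exact rel_trans (rel_trans e1 e2) (rel_M _ _ _)
    · rw [res_not_dm hx]
      exact rel_M _ _ _

theorem rel_res_of (hPM : PM M) (h1 : ∀ x, Dm x → i0 (i0 x) = x)
    {L : {x // ¬ Dm x} → {x // ¬ Dm x}} {v w : {x // ¬ Dm x}}
    (h : (rel (ext i0 L) M).r v.1 w.1) : (rel L (res i0 h0 M hM)).r v w := by
  classical
  let f : X → Quotient (rel L (res i0 h0 M hM)) := fun x =>
    if h : Dm x then Quotient.mk _ ⟨M x, hM x h⟩ else Quotient.mk _ ⟨x, h⟩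
  have f1 : ∀ x (h : Dm x), f x = Quotient.mk _ ⟨M x, hM x h⟩ := by
    intro x h; simp only [f]; rw [dif_pos h]
  have f2 : ∀ x (h : ¬ Dm x), f x = Quotient.mk _ ⟨x, h⟩ := by
    intro x h; simp only [f]; rw [dif_neg h]
  have hf : f v.1 = f w.1 := by
    refine rel_invariant f ?_ ?_ h
    · intro x
      by_cases hx : Dm x
      · rw [ext_dm hx, f1 _ (h0 x hx), f1 x hx]
        apply Quotient.sound
        have hx2 : Dm (M (⟨M x, hM x hx⟩ : {x // ¬ Dm x}).1) := by
          simp only [hPM.1]; exact hx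
        have e1 : res i0 h0 M hM ⟨M x, hM x hx⟩ = ⟨M (i0 x), hM _ (h0 x hx)⟩ := by
          apply Subtype.ext
          rw [res_dm hx2]
          simp only [hPM.1]
        rw [← e1]
        exact rel_symm (rel_M L (res i0 h0 M hM) _)
      · have e1 : ext i0 L x = (L ⟨x, hx⟩).1 := ext_val (⟨x, hx⟩ : {x // ¬ Dm x})
        rw [e1, f2 _ (L ⟨x, hx⟩).2, f2 x hx]
        apply Quotient.sound
        exact rel_symm (rel_L L (res i0 h0 M hM) ⟨x, hx⟩)
    · intro x
      by_cases hx : Dm x
      · rw [f1 x hx, f2 _ (hM x hx)]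
      · by_cases hx2 : Dm (M x)
        · rw [f1 _ hx2, f2 x hx]
          congr 1
          apply Subtype.ext
          exact hPM.1 x
        · rw [f2 _ hx2, f2 x hx]
          apply Quotient.sound
          have e1 : res i0 h0 M hM ⟨x, hx⟩ = ⟨M x, hx2⟩ := by
            apply Subtype.ext
            rw [res_not_dm (x := ⟨x, hx⟩) hx2]
          rw [← e1]
          exact rel_symm (rel_M L (res i0 h0 M hM) _)
  rw [f2 _ v.2, f2 _ w.2] at hf
  exact Quotient.exact hf

variable [Finite X]

theorem ncomp_res_le (hPM : PM M) (h1 : ∀ x, Dm x → i0 (i0 x) = x)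
    (L : {x // ¬ Dm x} → {x // ¬ Dm x}) :
    ncomp L (res i0 h0 M hM) ≤ ncomp (ext i0 L) M := by
  unfold ncomp
  haveI : Finite (Quotient (rel (ext i0 L) M)) := Quotient.finite _
  let f : Quotient (rel L (res i0 h0 M hM)) → Quotient (rel (ext i0 L) M) :=
    Quotient.map' (s₁ := rel L (res i0 h0 M hM)) (s₂ := rel (ext i0 L) M) Subtype.val
      (fun v w h => rel_res_imp hPM h)
  refine Nat.card_le_card_of_injective f ?_
  intro a b
  induction a using Quotient.inductionOn' with
  | h v =>
    induction b using Quotient.inductionOn' with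
    | h w =>
      intro h
      apply Quotient.sound'
      apply rel_res_of hPM h1
      exact Quotient.exact' h

theorem tiny_res (hPM : PM M) (h1 : ∀ x, Dm x → i0 (i0 x) = x)
    (h2 : ∀ x, Dm x → i0 x ≠ x)
    {L : {x // ¬ Dm x} → {x // ¬ Dm x}} (hL : PM L) {σ : ℕ} {v : {x // ¬ Dm x}}
    (h : Tiny L (res i0 h0 M hM) σ v) : minimalPeriod (ext i0 L ∘ M) v.1 ≤ 2 * σ := by
  classical
  haveI := Fintype.ofFinite X
  unfold Tiny at h
  have h3 := two_period_le (ext_PM h0 h1 h2 hL) hPM v.1
  rw [Nat.card_eq_fintype_card, Fintype.card_subtype] at h h3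
  set S := Finset.univ.filter (fun y => (rel (ext i0 L) M).r v.1 y) with hS
  set S' := Finset.univ.filter (fun y => (rel L (res i0 h0 M hM)).r v y) with hS'
  have hmem : ∀ y (hy : ¬ Dm y), y ∈ S → (⟨y, hy⟩ : {x // ¬ Dm x}) ∈ S' := by
    intro y hy hyS
    simp only [hS, hS', Finset.mem_filter, Finset.mem_univ, true_and] at hyS ⊢
    exact rel_res_of (v := v) (w := ⟨y, hy⟩) hPM h1 hyS
  have h4 : S.card = (S.filter (fun y => Dm y)).card + (S.filter (fun y => ¬ Dm y)).card :=
    (Finset.card_filter_add_card_filter_not _).symm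
  have h5 : (S.filter (fun y => ¬ Dm y)).card ≤ S'.card := by
    have : (S.filter (fun y => ¬ Dm y)) ⊆ S'.image Subtype.val := by
      intro y hy
      rw [Finset.mem_filter] at hy
      rw [Finset.mem_image]
      exact ⟨⟨y, hy.2⟩, hmem y hy.2 hy.1, rfl⟩
    exact le_trans (Finset.card_le_card this) Finset.card_image_le
  have h6 : (S.filter (fun y => Dm y)).card ≤ (S.filter (fun y => ¬ Dm y)).card := by
    refine Finset.card_le_card_of_injOn M ?_ ?_
    · intro y hy
      simp only [Finset.coe_filter, Set.mem_setOf_eq] at hy ⊢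
      refine ⟨?_, hM y hy.2⟩
      simp only [hS, Finset.mem_filter, Finset.mem_univ, true_and] at hy ⊢
      exact rel_trans hy.1 (rel_M _ _ _)
    · intro y _ y' _ hyy'
      have := congrArg M hyy'
      rwa [hPM.1, hPM.1] at this
  omega

end

end Pool.Agent.Lib.MP_fe131b_co
end

section

/-!
The explicit structure: layers `K × K`, groups `(K × K) × ZMod q`, points `(K × K) × ZMod q × ZMod D`,
and the single-vertex theorem in terms of numerical parameters.
-/

namespace Pool.Agent.Lib.MP_fe131b_co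

open Finset Function

/-- orientation of a fixed-point-free involution, with a prescribed oriented point -/
theorem exists_orientation {Γ : Type*} [Fintype Γ] (f : Γ → Γ) (hf : ∀ γ, f γ ≠ γ)
    (hf2 : ∀ γ, f (f γ) = γ) (γ0 : Γ) :
    ∃ P : Γ → Bool, (∀ γ, P (f γ) = !P γ) ∧ P γ0 = true := by
  classical
  let e := Fintype.equivFin Γ
  have hne : ∀ γ, e (f γ) ≠ e γ := fun γ h => hf γ (e.injective h)
  refine ⟨fun γ => (decide (e γ < e (f γ)) == decide (e γ0 < e (f γ0))), ?_, ?_⟩
  · intro γ
    simp only [hf2]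
    have h1 : decide (e (f γ) < e γ) = !decide (e γ < e (f γ)) := by
      rcases lt_trichotomy (e γ) (e (f γ)) with h | h | h
      · simp [h, h.not_gt]
      · exact absurd h.symm (hne γ)
      · simp [h, h.not_gt]
    rw [h1]
    cases decide (e γ < e (f γ)) <;> cases decide (e γ0 < e (f γ0)) <;> rfl
  · simp

section

variable {K : Type*} [AddCommGroup K] [Fintype K] [DecidableEq K]

/-- classes of matchings -/
abbrev Cls (K : Type*) [AddCommGroup K] (q : ℕ) := {s : K × K // s.1 ≠ 0 ∧ s.2 ≠ 0} × ZMod q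

/-- groups of points -/
abbrev Grp (K : Type*) (q : ℕ) := (K × K) × ZMod q

/-- the involution of the groups given by a class -/
def cmap {q : ℕ} (κ : Cls K q) (γ : Grp K q) : Grp K q := (γ.1 + κ.1.1, κ.2 - γ.2)

theorem cmap_ne {q : ℕ} (κ : Cls K q) (γ : Grp K q) : cmap κ γ ≠ γ := by
  intro h
  have h1 := congrArg (fun z => z.1.1) h
  simp only [cmap, Prod.fst_add, add_eq_left] at h1
  exact κ.1.2.1 h1

theorem cmap_cmap (hK : ∀ k : K, k + k = 0) {q : ℕ} (κ : Cls K q) (γ : Grp K q) :
    cmap κ (cmap κ γ) = γ := by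
  have h1 : κ.1.1 + κ.1.1 = 0 := by
    ext
    · exact hK _
    · exact hK _
  unfold cmap
  ext
  · simp only [add_assoc, h1, add_zero]
  · simp only [add_assoc, h1, add_zero]
  · simp

theorem cmap_inj {q : ℕ} {κ κ' : Cls K q} {γ : Grp K q} (h : cmap κ γ = cmap κ' γ) :
    κ = κ' := by
  unfold cmap at h
  rw [Prod.mk.injEq] at h
  obtain ⟨h1, h2⟩ := h
  have h3 : κ.1.1 = κ'.1.1 := add_left_cancel h1
  have h4 : κ.2 = κ'.2 := by
    have := congrArg (fun z => z + γ.2) h2
    simpa using this
  exact Prod.ext (Subtype.ext h3) h4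

/-- dummy points: the first `e` points of the group `0` -/
def Dmy (K : Type*) [AddCommGroup K] (q D e : ℕ) (x : Grp K q × ZMod D) : Prop :=
  x.1 = 0 ∧ x.2.val < e

/-- the matching of the dummy points -/
def dinv (K : Type*) [AddCommGroup K] (q D e : ℕ) (x : Grp K q × ZMod D) : Grp K q × ZMod D :=
  (x.1, ((e - 1 : ℕ) : ZMod D) - x.2)

theorem val_dinv {D : ℕ} [NeZero D] {e : ℕ} (heD : e ≤ D) {y : ZMod D} (hy : y.val < e) :
    (((e - 1 : ℕ) : ZMod D) - y).val = e - 1 - y.val := by
  have h1 : y = ((y.val : ℕ) : ZMod D) := (ZMod.natCast_zmod_val y).symm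
  have h2 : ((e - 1 : ℕ) : ZMod D) - y = ((e - 1 - y.val : ℕ) : ZMod D) := by
    rw [Nat.cast_sub (show y.val ≤ e - 1 by omega), ← h1]
  rw [h2, ZMod.val_cast_of_lt]
  omega

theorem dinv_dmy {q D e : ℕ} [NeZero D] (heD : e ≤ D) (x : Grp K q × ZMod D)
    (hx : Dmy K q D e x) : Dmy K q D e (dinv K q D e x) := by
  refine ⟨hx.1, ?_⟩
  have := val_dinv heD hx.2
  simp only [dinv]
  rw [this]
  have := hx.2
  omega

theorem dinv_dinv {q D e : ℕ} (x : Grp K q × ZMod D) :
    dinv K q D e (dinv K q D e x) = x := by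
  simp [dinv]

theorem dinv_ne {q D e : ℕ} [NeZero D] (heD : e ≤ D) (he : Even e) (x : Grp K q × ZMod D)
    (hx : Dmy K q D e x) : dinv K q D e x ≠ x := by
  intro h
  have h1 := congrArg (fun z => z.2.val) h
  simp only [dinv] at h1
  rw [val_dinv heD hx.2] at h1
  have := hx.2
  obtain ⟨k, hk⟩ := he
  omega

theorem card_dmy {q D e : ℕ} [NeZero q] [NeZero D] (heD : e ≤ D) :
    Nat.card {x : Grp K q × ZMod D // Dmy K q D e x} = e := by
  have h : {x : Grp K q × ZMod D // Dmy K q D e x} ≃ Fin e :=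
    { toFun := fun x => ⟨x.1.2.val, x.2.2⟩
      invFun := fun k => ⟨(0, ((k : ℕ) : ZMod D)), rfl, by
        have : (((k : ℕ) : ZMod D)).val = k := ZMod.val_cast_of_lt (lt_of_lt_of_le k.2 heD)
        rw [this]; exact k.2⟩
      left_inv := by
        rintro ⟨⟨γ, y⟩, hγ, hy⟩
        simp only at hγ
        subst hγ
        simp
      right_inv := by
        intro k
        apply Fin.ext
        exact ZMod.val_cast_of_lt (lt_of_lt_of_le k.2 heD) }
  rw [Nat.card_congr h]
  simp

theorem two_mul_inj {D e : ℕ} [NeZero D] (heD : 2 * e ≤ D) {y y' : ZMod D} (hy : y.val < e)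
    (hy' : y'.val < e) (h : y + y = y' + y') : y = y' := by
  have key : ∀ z : ZMod D, z.val < e → (z + z).val = 2 * z.val := by
    intro z hz
    have h1 : z = ((z.val : ℕ) : ZMod D) := (ZMod.natCast_zmod_val z).symm
    have h2 : z + z = ((2 * z.val : ℕ) : ZMod D) := by
      push_cast
      rw [← h1]; ring
    rw [h2, ZMod.val_cast_of_lt]
    omega
  have h1 := congrArg ZMod.val h
  rw [key y hy, key y' hy'] at h1
  exact ZMod.val_injective D (by omega)

/-- The single-vertex theorem with numerical parameters. -/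
theorem vertex_param (hK : ∀ k : K, k + k = 0) (q D e T σ θ Cn Z : ℕ) [NeZero q] [NeZero D]
    (he : Even e) (heD : 2 * e ≤ D) (hT : 0 < T) (hσ : 0 < σ) (hθ : 0 < θ)
    (hDT : 2 * T < D) (hDσ : 2 * σ < D)
    (hZ : 2 * ((D : ℝ) * (Fintype.card (Grp K q × ZMod D) : ℝ) ^ 2 * (T : ℝ) ^ 2) <
      (Z : ℝ) * ((Z : ℝ) - 2 * T) * (((D : ℝ) - T) * ((D : ℝ) - 2 * T)))
    (hZT : 2 * T ≤ Z)
    (hCn : Z * (2 * T) + Fintype.card (Grp K q × ZMod D) ≤ Cn * (2 * T))
    (hθT : 2 * (D : ℝ) * (Real.log (Fintype.card (Grp K q × ZMod D)) +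
      (Fintype.card (Cls K q) : ℝ) * (2 * (2 * σ : ℕ) / ((D : ℝ) - (2 * σ : ℕ)))) ≤ θ)
    (hload : Fintype.card (Cls K q × ZMod D) * (4 * Cn) ≤ σ * θ)
    (hbig : 4 * Cn + 2 * σ + e + 4 * (2 * θ + e) + 4 + e < q * D)
    (hn : 2 * (4 * Cn + 2 * σ + e) + e < Fintype.card (Grp K q × ZMod D))
    (L : Cls K q × ZMod D → {x // ¬ Dmy K q D e x} → {x // ¬ Dmy K q D e x})
    (hL : ∀ i, PM (L i)) :
    ∃ M : Cls K q × ZMod D → {x // ¬ Dmy K q D e x} → {x // ¬ Dmy K q D e x},
      (∀ i, PM (M i)) ∧ Disj M ∧ ∀ i, Connected (L i) (M i) := by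
  classical
  have heD' : e ≤ D := by omega
  haveI : Nonempty (Grp K q) := ⟨0⟩
  -- orientations
  have hor : ∀ κ : Cls K q, ∃ P : Grp K q → Bool, (∀ γ, P (cmap κ γ) = !P γ) ∧ P 0 = true :=
    fun κ => exists_orientation (cmap κ) (cmap_ne κ) (cmap_cmap hK κ) 0
  choose P hP1 hP2 using hor
  let i0 := dinv K q D e
  have h0 : ∀ x, Dmy K q D e x → Dmy K q D e (i0 x) := fun x hx => dinv_dmy heD' x hx
  have h1 : ∀ x, Dmy K q D e x → i0 (i0 x) = x := fun x _ => dinv_dinv x
  have h2 : ∀ x, Dmy K q D e x → i0 x ≠ x := fun x hx => dinv_ne heD' he x hx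
  let L' : Cls K q → ZMod D → Grp K q × ZMod D → Grp K q × ZMod D :=
    fun κ j => ext i0 (L (κ, j))
  have hL' : ∀ κ j, PM (L' κ j) := fun κ j => ext_PM h0 h1 h2 (hL (κ, j))
  have hcardY : Fintype.card (ZMod D) = D := ZMod.card D
  obtain ⟨M, hM1, hM2, hM3⟩ := select_all P (fun κ => cmap κ) cmap_ne (cmap_cmap hK) L' hL' T
    (2 * σ) hT (by omega) (by rw [hcardY]; exact hDT) (by rw [hcardY]; exact hDσ)
  rw [hcardY] at hM2 hM3
  -- the matchings on X
  let Mf : Cls K q × ZMod D → Grp K q × ZMod D → Grp K q × ZMod D :=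
    fun i => shift (P i.1) i.2 (M i.1)
  have hMf : ∀ i, Adm Prod.fst (cmap i.1) (Mf i) := fun i => shift_adm i.2 (hM1 i.1)
  have hMfpm : ∀ i, PM (Mf i) := fun i => (hMf i).pm (cmap_ne i.1)
  have hMfdisj : ∀ i i', i ≠ i' → ∀ x, Mf i x ≠ Mf i' x := by
    rintro ⟨κ, j⟩ ⟨κ', j'⟩ hne x h
    have hκ : κ = κ' := by
      have h3 := congrArg Prod.fst h
      rw [(hMf (κ, j)).grp x, (hMf (κ', j')).grp x] at h3
      exact cmap_inj h3
    subst hκ
    have hj : j ≠ j' := by
      rintro rfl
      exact hne rfl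
    exact shift_disj (hP1 κ) (hM1 κ) hj x h
  have hMfdm : ∀ i x, Dmy K q D e x → ¬ Dmy K q D e (Mf i x) := by
    intro i x hx hx'
    have h3 := (hMf i).grp x
    rw [hx.1] at h3
    have h4 := hx'.1
    rw [h3] at h4
    exact cmap_ne i.1 0 h4
  let M0 : Cls K q × ZMod D → {x // ¬ Dmy K q D e x} → {x // ¬ Dmy K q D e x} :=
    fun i => res i0 h0 (Mf i) (hMfdm i)
  have hM0 : ∀ i, PM (M0 i) := fun i => res_PM h1 h2 (hMfpm i)
  let l : {x // ¬ Dmy K q D e x} → K × K := fun x => x.1.1.1
  -- description of M0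
  have hdir : ∀ i x, ¬ Dmy K q D e (Mf i x.1) → l (M0 i x) = l x + i.1.1.1 := by
    intro i x hx
    have h3 : (M0 i x).1 = Mf i x.1 := res_not_dm hx
    simp only [l]
    rw [h3, (hMf i).grp]
    rfl
  have hvirt : ∀ i x, Dmy K q D e (Mf i x.1) → (M0 i x).1.1 = x.1.1 := by
    intro i x hx
    have h3 : (M0 i x).1 = Mf i (i0 (Mf i x.1)) := res_dm hx
    rw [h3, (hMf i).grp]
    have h4 : (i0 (Mf i x.1)).1 = (Mf i x.1).1 := rfl
    rw [h4, (hMf i).grp]
    exact cmap_cmap hK _ _
  have hdirne : ∀ i x, ¬ Dmy K q D e (Mf i x.1) → ¬ Rook l x (M0 i x) := by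
    intro i x hx hr
    have h3 := hdir i x hx
    rcases hr with h | h
    · rw [h3] at h
      simp only [Prod.fst_add, left_eq_add] at h
      exact i.1.1.2.1 h
    · rw [h3] at h
      simp only [Prod.snd_add, left_eq_add] at h
      exact i.1.1.2.2 h
  have hdisj : Disj M0 := by
    intro i i' hne x h
    by_cases hx : Dmy K q D e (Mf i x.1) <;> by_cases hx' : Dmy K q D e (Mf i' x.1)
    · -- both virtual
      obtain ⟨κ, j⟩ := i
      obtain ⟨κ', j'⟩ := i'
      have hκ : κ = κ' := by
        apply cmap_inj (γ := x.1.1)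
        rw [← (hMf (κ, j)).grp x.1, ← (hMf (κ', j')).grp x.1, hx.1, hx'.1]
      subst hκ
      have hgx : x.1.1 = cmap κ 0 := by
        rw [← hx.1, (hMf (κ, j)).grp, cmap_cmap hK]
      have hPx : P κ x.1.1 = false := by
        rw [hgx, hP1, hP2]; rfl
      have hNx : (M κ x.1).1 = 0 := by
        rw [(hM1 κ).grp, hgx, cmap_cmap hK]
      -- explicit description
      have hexp : ∀ i : ZMod D, Mf (κ, i) x.1 = (0, (M κ x.1).2 + -i) := by
        intro i
        have e1 : tau (P κ) i x.1 = x.1 := by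
          simp [tau, hPx]
        simp only [Mf, shift, e1]
        simp only [tau, hNx, hP2, if_true]
      have hexp2 : ∀ i y : ZMod D, Mf (κ, i) (0, y) = M κ (0, y + i) := by
        intro i y
        have e1 : tau (P κ) i ((0 : Grp K q), y) = (0, y + i) := by
          simp [tau, hP2]
        simp only [Mf, shift, e1]
        have e2 : P κ (M κ (0, y + i)).1 = false := by
          rw [(hM1 κ).grp, hP1, hP2]; rfl
        simp [tau, e2]
      have hval : ∀ i : ZMod D, Dmy K q D e (Mf (κ, i) x.1) →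
          (M0 (κ, i) x).1 = M κ (0, ((e - 1 : ℕ) : ZMod D) - ((M κ x.1).2 + -i) + i) := by
        intro i hi
        have e1 : (M0 (κ, i) x).1 = Mf (κ, i) (i0 (Mf (κ, i) x.1)) := res_dm hi
        rw [e1, hexp i]
        have e2 : i0 ((0 : Grp K q), (M κ x.1).2 + -i) =
            (0, ((e - 1 : ℕ) : ZMod D) - ((M κ x.1).2 + -i)) := rfl
        rw [e2, hexp2]
      have h3 := congrArg Subtype.val h
      rw [hval j hx, hval j' hx'] at h3
      have h4 := congrArg (M κ) h3
      rw [(hM1 κ).inv, (hM1 κ).inv] at h4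
      have h5 := congrArg Prod.snd h4
      simp only at h5
      rw [hexp j] at hx
      rw [hexp j'] at hx'
      have h6 : (M κ x.1).2 + -j = (M κ x.1).2 + -j' := by
        refine two_mul_inj heD hx.2 hx'.2 ?_
        have h7 : j + j = j' + j' := by linear_combination h5
        linear_combination -h7
      have h8 : j = j' := by
        have := add_left_cancel h6
        exact neg_injective this
      subst h8
      exact hne rfl
    · have e1 := hvirt i x hx
      have e2 := hdirne i' x hx'
      apply e2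
      rw [← h]
      left
      simp only [l]
      rw [e1]
    · have e1 := hvirt i' x hx'
      have e2 := hdirne i x hx
      apply e2
      rw [h]
      left
      simp only [l]
      rw [e1]
    · have e1 : (M0 i x).1 = Mf i x.1 := res_not_dm hx
      have e2 : (M0 i' x).1 = Mf i' x.1 := res_not_dm hx'
      apply hMfdisj i i' hne x.1
      rw [← e1, ← e2, h]
  -- counting
  have hcd := card_dmy (K := K) (q := q) (D := D) (e := e) heD'
  have he1 : ∀ x, Nat.card {i // Rook l x (M0 i x)} ≤ e := by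
    intro x
    refine le_trans ?_ (le_of_eq hcd)
    refine Nat.card_le_card_of_injective (fun i => ⟨Mf i.1 x.1, ?_⟩) ?_
    · by_contra hcon
      exact hdirne i.1 x hcon i.2
    · rintro ⟨i, hi⟩ ⟨i', hi'⟩ h
      by_contra hne
      simp only [Subtype.mk.injEq] at h hne
      exact hMfdisj i i' hne x.1 h
  have he2 : ∀ i, Nat.card {x // l (M0 i x) ≠ l x + i.1.1.1} ≤ e := by
    intro i
    refine le_trans ?_ (le_of_eq hcd)
    refine Nat.card_le_card_of_injective (fun x => ⟨Mf i x.1.1, ?_⟩) ?_
    · by_contra hcon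
      exact x.2 (hdir i x.1 hcon)
    · rintro ⟨x, hx⟩ ⟨x', hx'⟩ h
      simp only [Subtype.mk.injEq] at h ⊢
      have := congrArg (Mf i) h
      rw [(hMfpm i).1, (hMfpm i).1] at this
      exact Subtype.ext this
  have hn1 : ∀ μ, q * D - e ≤ Nat.card {x // l x = μ} := by
    intro μ
    -- points of the layer: (μ, z, y)
    have h3 : q * D = Nat.card {x : Grp K q × ZMod D // x.1.1 = μ} := by
      have h4 : {x : Grp K q × ZMod D // x.1.1 = μ} ≃ ZMod q × ZMod D :=
        { toFun := fun x => (x.1.1.2, x.1.2)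
          invFun := fun z => ⟨((μ, z.1), z.2), rfl⟩
          left_inv := by
            rintro ⟨⟨⟨μ', z⟩, y⟩, h⟩
            simp only at h
            subst h
            rfl
          right_inv := by
            intro z
            rfl }
      rw [Nat.card_congr h4, Nat.card_prod, Nat.card_zmod, Nat.card_zmod]
    have hcd' := hcd
    rw [Nat.card_eq_fintype_card, Fintype.card_subtype] at h3 hcd'
    rw [Nat.card_eq_fintype_card, Fintype.card_subtype]
    have h5 : (Finset.univ.filter (fun x : Grp K q × ZMod D => x.1.1 = μ)) ⊆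
        (Finset.univ.filter (fun x : {x // ¬ Dmy K q D e x} => l x = μ)).image Subtype.val ∪
          (Finset.univ.filter (fun x => Dmy K q D e x)) := by
      intro x hx
      simp only [Finset.mem_filter, Finset.mem_univ, true_and] at hx
      simp only [Finset.mem_union, Finset.mem_image, Finset.mem_filter, Finset.mem_univ, true_and]
      by_cases hd : Dmy K q D e x
      · right; exact hd
      · left; exact ⟨⟨x, hd⟩, hx, rfl⟩
    have h6 := Finset.card_le_card h5
    have h7 := Finset.card_union_le ((Finset.univ.filter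
      (fun x : {x // ¬ Dmy K q D e x} => l x = μ)).image Subtype.val)
      (Finset.univ.filter (fun x => Dmy K q D e x))
    have h8 := Finset.card_image_le (s := Finset.univ.filter
      (fun x : {x // ¬ Dmy K q D e x} => l x = μ)) (f := Subtype.val)
    omega
  have hC : ∀ i, ncomp (L i) (M0 i) ≤ Cn := by
    intro i
    refine le_trans (ncomp_res_le (hMfpm i) h1 (L i)) ?_
    have e1 := hM2 i.1 i.2
    have e2 := npairs_ge (hL' i.1 i.2) (hMfpm i) T
    have e3 := ncomp_le (hL' i.1 i.2) (hMfpm i) T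
    have e4 : nshort (L' i.1 i.2) (Mf i) T ≤ Z := by
      by_contra hcon
      push Not at hcon
      set n := nshort (L' i.1 i.2) (Mf i) T with hn
      have e5 : ((n : ℝ)) * ((n : ℝ) - 2 * T) ≤ (npairs (L' i.1 i.2) (Mf i) T : ℝ) := by
        have : ((n - 2 * T : ℕ) : ℝ) = (n : ℝ) - 2 * T := by
          rw [Nat.cast_sub (by omega)]; push_cast; ring
        rw [← this]
        exact_mod_cast e2
      have hnZ : (Z : ℝ) ≤ n := by exact_mod_cast hcon.le
      have hZT' : (2 : ℝ) * T ≤ Z := by exact_mod_cast hZT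
      have hDT' : (2 : ℝ) * T < D := by exact_mod_cast hDT
      have hTpos : (0 : ℝ) < T := by exact_mod_cast hT
      have e6 : (Z : ℝ) * ((Z : ℝ) - 2 * T) ≤ (n : ℝ) * ((n : ℝ) - 2 * T) := by
        apply mul_le_mul hnZ (by linarith) (by linarith) (by linarith)
      have e7 : 0 < ((D : ℝ) - T) * ((D : ℝ) - 2 * T) := by
        apply mul_pos <;> linarith
      have e8 : (Z : ℝ) * ((Z : ℝ) - 2 * T) * (((D : ℝ) - T) * ((D : ℝ) - 2 * T)) ≤
          (npairs (L' i.1 i.2) (Mf i) T : ℝ) * (((D : ℝ) - T) * ((D : ℝ) - 2 * T)) :=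
        mul_le_mul_of_nonneg_right (le_trans e6 e5) e7.le
      exact absurd (lt_of_lt_of_le hZ (le_trans e8 e1)) (lt_irrefl _)
    have e5 : ncomp (L' i.1 i.2) (Mf i) * (2 * T) ≤ Cn * (2 * T) := by
      refine le_trans e3 (le_trans ?_ hCn)
      have := Nat.mul_le_mul_right (2 * T) e4
      omega
    exact Nat.le_of_mul_le_mul_right e5 (by omega)
  have hTn : ∀ x, Nat.card {i // Tiny (L i) (M0 i) σ x} ≤ θ := by
    intro x
    have e1 := hM3 x.1
    have e2 : (Nat.card {i // Tiny (L i) (M0 i) σ x}) ≤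
        ∑ κ, tshort (P κ) (L' κ) (M κ) (2 * σ) x.1 := by
      rw [Nat.card_eq_fintype_card, Fintype.card_subtype]
      have e3 : (Finset.univ.filter (fun i => Tiny (L i) (M0 i) σ x)) ⊆
          ((Finset.univ : Finset (Cls K q)).sigma (fun κ => Finset.univ.filter
            (fun j => minimalPeriod (L' κ j ∘ shift (P κ) j (M κ)) x.1 ≤ 2 * σ))).image
              (fun z => (z.1, z.2)) := by
        rintro ⟨κ, j⟩ hi
        simp only [Finset.mem_filter, Finset.mem_univ, true_and] at hi
        rw [Finset.mem_image]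
        refine ⟨⟨κ, j⟩, ?_, rfl⟩
        simp only [Finset.mem_sigma, Finset.mem_univ, true_and, Finset.mem_filter]
        exact tiny_res (hMfpm (κ, j)) h1 h2 (hL (κ, j)) hi
      refine le_trans (Finset.card_le_card e3) (le_trans Finset.card_image_le ?_)
      rw [Finset.card_sigma]
      exact le_of_eq rfl
    have e3 : (Nat.card {i // Tiny (L i) (M0 i) σ x} : ℝ) ≤ θ := by
      refine le_trans ?_ (le_trans e1 hθT)
      exact_mod_cast e2
    exact_mod_cast e3
  have hcardV : Fintype.card (Grp K q × ZMod D) =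
      Fintype.card {x // ¬ Dmy K q D e x} + e := by
    have h3 := Fintype.card_subtype_compl (fun x : Grp K q × ZMod D => Dmy K q D e x)
    have h4 : Fintype.card {x : Grp K q × ZMod D // Dmy K q D e x} = e := by
      rw [← Nat.card_eq_fintype_card]; exact hcd
    have h5 : e ≤ Fintype.card (Grp K q × ZMod D) := by
      rw [← h4]; exact Fintype.card_subtype_le _
    rw [h4] at h3
    omega
  exact repair l (fun i => i.1.1.1) L M0 hL hM0 hdisj σ e Cn (q * D - e) θ hθ he1 he2 hn1 hC hTn
    hload (by omega) (by omega)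

end

end Pool.Agent.Lib.MP_fe131b_co
end
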